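import Mathlib

/-! Survival functions of a lazy fair walk, the normalised matching cone and its invariants. -/

namespace Pool.Agent.MP_23af5d_nt

/-- finitely supported functions of (number of up steps, number of down steps) -/
abbrev W : Type := (ℕ × ℕ) →₀ ℝ

/-- one more up step -/
def up (p : ℕ × ℕ) : ℕ × ℕ := (p.1 + 1, p.2)

/-- one more down step -/
def dn (p : ℕ × ℕ) : ℕ × ℕ := (p.1, p.2 + 1)

theorem up_inj : Function.Injective up := by
  rintro ⟨a, b⟩ ⟨c, d⟩ h
  simp only [up, Prod.mk.injEq] at h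
  exact Prod.ext (by omega) h.2

theorem dn_inj : Function.Injective dn := by
  rintro ⟨a, b⟩ ⟨c, d⟩ h
  simp only [dn, Prod.mk.injEq] at h
  exact Prod.ext h.1 (by omega)

/-- make a fair step, then follow `g` after an up step and `f` after a down step -/
noncomputable def T (f g : W) : W :=
  Finsupp.single (0, 0) 1 + (1 / 2 : ℝ) • g.mapDomain up + (1 / 2 : ℝ) • f.mapDomain dn

theorem up_succ (g : W) (a b : ℕ) : g.mapDomain up (a + 1, b) = g (a, b) :=
  Finsupp.mapDomain_apply up_inj g (a, b)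

theorem dn_succ (g : W) (a b : ℕ) : g.mapDomain dn (a, b + 1) = g (a, b) :=
  Finsupp.mapDomain_apply dn_inj g (a, b)

theorem up_zero (g : W) (b : ℕ) : g.mapDomain up (0, b) = 0 := by
  apply Finsupp.mapDomain_of_notMem_range
  rintro ⟨p, hp⟩
  simp [up] at hp

theorem dn_zero (g : W) (a : ℕ) : g.mapDomain dn (a, 0) = 0 := by
  apply Finsupp.mapDomain_of_notMem_range
  rintro ⟨p, hp⟩
  simp [dn] at hp

theorem T_zz (f g : W) : T f g (0, 0) = 1 := by
  simp [T, up_zero, dn_zero]

theorem T_sz (f g : W) (a : ℕ) : T f g (a + 1, 0) = g (a, 0) / 2 := by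
  simp [T, up_succ, dn_zero]; ring

theorem T_zs (f g : W) (b : ℕ) : T f g (0, b + 1) = f (0, b) / 2 := by
  simp [T, up_zero, dn_succ]; ring

theorem T_ss (f g : W) (a b : ℕ) :
    T f g (a + 1, b + 1) = g (a, b + 1) / 2 + f (a + 1, b) / 2 := by
  simp [T, up_succ, dn_succ]; ring

theorem T_mono {f f' g g' : W} (hf : ∀ p, f p ≤ f' p) (hg : ∀ p, g p ≤ g' p) (p : ℕ × ℕ) :
    T f g p ≤ T f' g' p := by
  rcases p with ⟨_ | a, _ | b⟩
  · rw [T_zz, T_zz]
  · rw [T_zs, T_zs]; linarith [hf (0, b)]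
  · rw [T_sz, T_sz]; linarith [hg (a, 0)]
  · rw [T_ss, T_ss]; linarith [hg (a, b + 1), hf (a + 1, b)]

/-- The cone of functions whose quotient by the binomial weights decreases in both variables. -/
structure Cone (h : W) : Prop where
  nonneg : ∀ p, 0 ≤ h p
  ma : ∀ a b : ℕ, 2 * ((a : ℝ) + 1) * h (a + 1, b) ≤ ((a : ℝ) + b + 1) * h (a, b)
  mb : ∀ a b : ℕ, 2 * ((b : ℝ) + 1) * h (a, b + 1) ≤ ((a : ℝ) + b + 1) * h (a, b)

theorem Cone.zero : Cone 0 := ⟨by simp, by simp, by simp⟩

theorem Cone.add {h h' : W} (H : Cone h) (H' : Cone h') : Cone (h + h') := by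
  refine ⟨fun p => ?_, fun a b => ?_, fun a b => ?_⟩
  · simpa using add_nonneg (H.nonneg p) (H'.nonneg p)
  · have := H.ma a b
    have := H'.ma a b
    simp only [Finsupp.add_apply]; linarith
  · have := H.mb a b
    have := H'.mb a b
    simp only [Finsupp.add_apply]; linarith

theorem Cone.smul {h : W} (H : Cone h) {c : ℝ} (hc : 0 ≤ c) : Cone (c • h) := by
  refine ⟨fun p => ?_, fun a b => ?_, fun a b => ?_⟩
  · simpa using mul_nonneg hc (H.nonneg p)
  · have := mul_le_mul_of_nonneg_left (H.ma a b) hc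
    simp only [Finsupp.smul_apply, smul_eq_mul]; linarith
  · have := mul_le_mul_of_nonneg_left (H.mb a b) hc
    simp only [Finsupp.smul_apply, smul_eq_mul]; linarith

theorem Cone.T {f g : W} (hf : Cone f) (hg : Cone g) (df : ∀ p, f p ≤ T f g p)
    (dg : ∀ p, g p ≤ T f g p) : Cone (T f g) := by
  refine ⟨?_, ?_, ?_⟩
  · intro p
    exact (hf.nonneg p).trans (df p)
  · rintro (_ | a) (_ | b)
    · have := dg (0, 0)
      rw [T_sz]
      push_cast
      linarith
    · have h1 := dg (0, b + 1)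
      have h2 := hf.ma 0 b
      rw [T_zs] at h1
      rw [T_ss, T_zs]
      push_cast at h2 ⊢
      linarith
    · have h1 := dg (a + 1, 0)
      have h2 := hg.ma a 0
      rw [T_sz] at h1
      rw [T_sz, T_sz]
      push_cast at h2 ⊢
      linarith
    · have h1 := dg (a + 1, b + 1)
      have h2 := hg.ma a (b + 1)
      have h3 := hf.ma (a + 1) b
      rw [T_ss] at h1
      rw [T_ss, T_ss]
      push_cast at h2 h3 ⊢
      linarith
  · rintro (_ | a) (_ | b)
    · have := df (0, 0)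
      rw [T_zs]
      push_cast
      linarith
    · have h1 := df (0, b + 1)
      have h2 := hf.mb 0 b
      rw [T_zs] at h1
      rw [T_zs, T_zs]
      push_cast at h2 ⊢
      linarith
    · have h1 := df (a + 1, 0)
      have h2 := hg.mb a 0
      rw [T_sz] at h1
      rw [T_ss, T_sz]
      push_cast at h2 ⊢
      linarith
    · have h1 := df (a + 1, b + 1)
      have h2 := hg.mb a (b + 1)
      have h3 := hf.mb (a + 1) b
      rw [T_ss] at h1
      rw [T_ss, T_ss]
      push_cast at h2 h3 ⊢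
      linarith

/-- The pointwise invariants; `H` and `K` are the two halves of `2 t`. -/
structure Pt (j s t f g U V : ℝ) : Prop where
  oU : U ≤ s * g
  oV : V ≤ j * f
  df : f ≤ t
  dg : g ≤ t
  hA : (j + s + 2) * ((j + 1) * f) ≤ 2 * (j + 1) * t + U + (j + s + 1) * V
  hB : (j + s + 2) * ((s + 1) * g) ≤ 2 * (s + 1) * t + V + (j + s + 1) * U

theorem Pt.swap {j s t f g U V : ℝ} (h : Pt j s t f g U V) : Pt s j t g f V U :=
  ⟨h.oV, h.oU, h.dg, h.df, by have := h.hB; linarith, by have := h.hA; linarith⟩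

theorem Pt.step {j s t f g U V d f₁ V₁ : ℝ} (h : Pt j s t f g U V) (hj : 0 ≤ j) (hd : 0 ≤ d)
    (hs : d ≤ s)
    (hV : (j + s + 2) * V₁ = 2 * d * (j + 1) * t + d * U + (j + s + 2 - d) * V)
    (hf : (j + s + 2) * ((j + d + 1) * f₁) =
      2 * (d + 1) * (j + 1) * t + (d + 1) * U + (j + s + 2 - (d + 1)) * V) :
    f ≤ f₁ ∧ ∀ t₁, t ≤ t₁ → Pt (j + d) (s - d) t₁ f₁ g ((s - d) * g) V₁ := by
  have hq : 0 < j + s + 2 := by linarith
  obtain ⟨H, hH⟩ : ∃ H, (j + s + 2) * H = 2 * (j + 1) * t + U - V :=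
    ⟨(2 * (j + 1) * t + U - V) / (j + s + 2), by field_simp⟩
  obtain ⟨K, hK⟩ : ∃ K, K = 2 * t - H := ⟨_, rfl⟩
  have hK' : (j + s + 2) * K = 2 * (s + 1) * t + V - U := by rw [hK]; linarith
  have eV : V₁ = d * H + V := by
    apply mul_left_cancel₀ hq.ne'
    rw [hV]
    linear_combination (-d) * hH
  have ef : (j + d + 1) * f₁ = (d + 1) * H + V := by
    apply mul_left_cancel₀ hq.ne'
    rw [hf]
    linear_combination (-(d + 1)) * hH
  have hA : (j + 1) * f ≤ H + V := by
    apply le_of_mul_le_mul_left _ hq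
    have := h.hA
    linarith
  have hB : (s + 1) * g ≤ K + U := by
    apply le_of_mul_le_mul_left _ hq
    have := h.hB
    linarith
  have hHf : f ≤ H := by have := h.oV; linarith
  have hKg : g ≤ K := by have := h.oU; linarith
  have hp : 0 < j + d + 1 := by linarith
  have h1 : d * f ≤ d * H := mul_le_mul_of_nonneg_left hHf hd
  have h2 : j * f ≤ j * H := mul_le_mul_of_nonneg_left hHf hj
  have h3 : d * g ≤ d * K := mul_le_mul_of_nonneg_left hKg hd
  refine ⟨?_, fun t₁ ht => ⟨le_rfl, ?_, ?_, h.dg.trans ht, ?_, ?_⟩⟩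
  · apply le_of_mul_le_mul_left _ hp
    linarith
  · apply le_of_mul_le_mul_left _ hp
    have h4 : V₁ ≤ (j + d) * H := by have := h.oV; linarith
    have : (j + d + 1) * ((j + d) * f₁) = (j + d) * (V₁ + H) := by
      rw [eV]; linear_combination (j + d) * ef
    linarith
  · refine le_trans ?_ ht
    apply le_of_mul_le_mul_left _ (mul_pos hq hp)
    have h4 : U ≤ s * t := h.oU.trans (mul_le_mul_of_nonneg_left h.dg (by linarith))
    have h5 : V ≤ j * t := h.oV.trans (mul_le_mul_of_nonneg_left h.df hj)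
    have h6 := mul_le_mul_of_nonneg_left h4 (by linarith : 0 ≤ d + 1)
    have h7 := mul_le_mul_of_nonneg_left h5 (by linarith : 0 ≤ j + s + 2 - (d + 1))
    rw [mul_assoc, hf]
    linarith
  · have h4 := mul_le_mul_of_nonneg_left ht hp.le
    have h5 := h.oU
    have h6 : d * K = 2 * (d * t) - d * H := by rw [hK]; ring
    have e : (j + d + (s - d) + 2) * ((j + d + 1) * f₁) = (j + s + 2) * (V₁ + H) := by
      rw [ef, eV]; ring
    rw [e]
    have e2 : (j + s + 2) * (V₁ + H) = (j + s + 1) * V₁ + (d * H + V) + (j + s + 2) * H := by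
      rw [← eV]; ring
    rw [e2, hH]
    linarith
  · have h4 := mul_le_mul_of_nonneg_left ht (by linarith : 0 ≤ s - d + 1)
    have h5 : 0 ≤ (j + s + 1 - d) * (K - g) := mul_nonneg (by linarith) (by linarith)
    have h6 : d * K = 2 * (d * t) - d * H := by rw [hK]; ring
    rw [eV]
    linarith

/-- The invariants carried along the digits. -/
structure Inv (j s : ℝ) (f g U V : W) : Prop where
  cf : Cone f
  cg : Cone g
  cU : Cone U
  cV : Cone V
  pt : ∀ p, Pt j s (T f g p) (f p) (g p) (U p) (V p)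

theorem Inv.cT {j s : ℝ} {f g U V : W} (h : Inv j s f g U V) : Cone (T f g) :=
  h.cf.T h.cg (fun p => (h.pt p).df) fun p => (h.pt p).dg

theorem Inv.zero {j s : ℝ} (hj : 0 ≤ j) (hs : 0 ≤ s) : Inv j s 0 0 0 0 := by
  have h0 : ∀ p, 0 ≤ T 0 0 p := by
    rintro ⟨_ | a, _ | b⟩
    · rw [T_zz]; norm_num
    · rw [T_zs]; simp
    · rw [T_sz]; simp
    · rw [T_ss]; simp
  refine ⟨Cone.zero, Cone.zero, Cone.zero, Cone.zero, fun p => ?_⟩
  have := h0 p
  refine ⟨by simp, by simp, by simpa, by simpa, ?_, ?_⟩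
  · simp only [Finsupp.coe_zero, Pi.zero_apply, mul_zero, add_zero]; positivity
  · simp only [Finsupp.coe_zero, Pi.zero_apply, mul_zero, add_zero]; positivity

/-- the function of the middle state: `c • t + α • U + β • V`, divided by `q` -/
noncomputable def mid (q c α β : ℝ) (t U V : W) : W :=
  (c / q) • t + (α / q) • U + (β / q) • V

theorem mid_apply {q : ℝ} (hq : q ≠ 0) (c α β : ℝ) (t U V : W) (p : ℕ × ℕ) :
    q * mid q c α β t U V p = c * t p + α * U p + β * V p := by
  simp only [mid, Finsupp.add_apply, Finsupp.smul_apply, smul_eq_mul]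
  field_simp

theorem Inv.cmid {j s : ℝ} {f g U V : W} (h : Inv j s f g U V) {q c α β : ℝ} (hq : 0 ≤ q)
    (hc : 0 ≤ c) (hα : 0 ≤ α) (hβ : 0 ≤ β) : Cone (mid q c α β (T f g) U V) :=
  ((h.cT.smul (div_nonneg hc hq)).add (h.cU.smul (div_nonneg hα hq))).add
    (h.cV.smul (div_nonneg hβ hq))

theorem Inv.stepA {j s d q : ℝ} {f g U V : W} (h : Inv j s f g U V) (hq : q = j + s + 2)
    (hj : 0 ≤ j) (hd : 0 ≤ d) (hs : d ≤ s) :
    Inv (j + d) (s - d)
      ((j + d + 1)⁻¹ • mid q (2 * (d + 1) * (j + 1)) (d + 1) (q - (d + 1)) (T f g) U V) g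
      ((s - d) • g) (mid q (2 * d * (j + 1)) d (q - d) (T f g) U V) := by
  have hq0 : 0 < q := by linarith
  have hp : 0 < j + d + 1 := by linarith
  have key := fun p => (h.pt p).step hj hd hs
    (V₁ := mid q (2 * d * (j + 1)) d (q - d) (T f g) U V p)
    (f₁ := ((j + d + 1)⁻¹ •
      mid q (2 * (d + 1) * (j + 1)) (d + 1) (q - (d + 1)) (T f g) U V : W) p)
    (by rw [← hq, mid_apply hq0.ne'])
    (by rw [← hq, Finsupp.smul_apply, smul_eq_mul, mul_inv_cancel_left₀ hp.ne', mid_apply hq0.ne'])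
  refine ⟨(h.cmid hq0.le (by positivity) (by linarith) (by linarith)).smul (by positivity), h.cg,
    h.cg.smul (by linarith), h.cmid hq0.le (by positivity) hd (by linarith), fun p => ?_⟩
  exact (key p).2 _ (T_mono (fun p => (key p).1) (fun _ => le_rfl) p)

theorem Inv.stepB {j s d q : ℝ} {f g U V : W} (h : Inv j s f g U V) (hq : q = j + s + 2)
    (hs : 0 ≤ s) (hd : 0 ≤ d) (hj : d ≤ j) :
    Inv (j - d) (s + d) f
      ((s + d + 1)⁻¹ • mid q (2 * (d + 1) * (s + 1)) (q - (d + 1)) (d + 1) (T f g) U V)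
      (mid q (2 * d * (s + 1)) (q - d) d (T f g) U V) ((j - d) • f) := by
  have hq0 : 0 < q := by linarith
  have hp : 0 < s + d + 1 := by linarith
  have hq' : q = s + j + 2 := by linarith
  have key := fun p => (h.pt p).swap.step hs hd hj
    (V₁ := mid q (2 * d * (s + 1)) (q - d) d (T f g) U V p)
    (f₁ := ((s + d + 1)⁻¹ •
      mid q (2 * (d + 1) * (s + 1)) (q - (d + 1)) (d + 1) (T f g) U V : W) p)
    (by rw [← hq', mid_apply hq0.ne']; ring)
    (by
      rw [← hq', Finsupp.smul_apply, smul_eq_mul, mul_inv_cancel_left₀ hp.ne', mid_apply hq0.ne']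
      ring)
  refine ⟨h.cf, (h.cmid hq0.le (by positivity) (by linarith) (by linarith)).smul (by positivity),
    h.cmid hq0.le (by positivity) (by linarith) hd, h.cf.smul (by linarith), fun p => ?_⟩
  exact ((key p).2 _ (T_mono (fun _ => le_rfl) (fun p => (key p).1) p)).swap

end Pool.Agent.MP_23af5d_nt
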