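import Pool.Agent.MP_23af5d_nt.Link

/-! One digit position acting on the survival functions of the digit-count walk. -/

namespace Pool.Agent.MP_23af5d_nt.DC

/-- the unit mass at the origin -/
noncomputable def dl : W := Finsupp.single (0, 0) 1

/-- mass `c` of fair steps, followed by `X` after an up step and by `Y` after a down step -/
noncomputable def S (c : ℝ) (X Y : W) : W :=
  c • dl + (1 / 2 : ℝ) • X.mapDomain up + (1 / 2 : ℝ) • Y.mapDomain dn

theorem S_apply (c : ℝ) (X Y : W) (p : ℕ × ℕ) :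
    S c X Y p = c * dl p + X.mapDomain up p / 2 + Y.mapDomain dn p / 2 := by
  simp only [S, Finsupp.add_apply, Finsupp.smul_apply, smul_eq_mul]
  ring

theorem S_zz (c : ℝ) (X Y : W) : S c X Y (0, 0) = c := by
  simp [S_apply, dl, up_zero, dn_zero]

theorem S_sz (c : ℝ) (X Y : W) (a : ℕ) : S c X Y (a + 1, 0) = X (a, 0) / 2 := by
  simp [S_apply, dl, up_succ, dn_zero]

theorem S_zs (c : ℝ) (X Y : W) (b : ℕ) : S c X Y (0, b + 1) = Y (0, b) / 2 := by
  simp [S_apply, dl, up_zero, dn_succ]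

theorem S_ss (c : ℝ) (X Y : W) (a b : ℕ) :
    S c X Y (a + 1, b + 1) = X (a, b + 1) / 2 + Y (a + 1, b) / 2 := by
  simp [S_apply, dl, up_succ, dn_succ]

theorem cone_S {c : ℝ} {g f : W} (hg : Cone g) (hf : Cone f) (dg : ∀ p, g p ≤ S c g f p)
    (df : ∀ p, f p ≤ S c g f p) : Cone (S c g f) := by
  refine ⟨?_, ?_, ?_⟩
  · intro p
    exact (hf.nonneg p).trans (df p)
  · rintro (_ | a) (_ | b)
    · have := dg (0, 0)
      rw [S_sz]
      push_cast
      linarith
    · have h1 := dg (0, b + 1)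
      have h2 := hf.ma 0 b
      rw [S_zs] at h1
      rw [S_ss, S_zs]
      push_cast at h2 ⊢
      linarith
    · have h1 := dg (a + 1, 0)
      have h2 := hg.ma a 0
      rw [S_sz] at h1
      rw [S_sz, S_sz]
      push_cast at h2 ⊢
      linarith
    · have h1 := dg (a + 1, b + 1)
      have h2 := hg.ma a (b + 1)
      have h3 := hf.ma (a + 1) b
      rw [S_ss] at h1
      rw [S_ss, S_ss]
      push_cast at h2 h3 ⊢
      linarith
  · rintro (_ | a) (_ | b)
    · have := df (0, 0)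
      rw [S_zs]
      push_cast
      linarith
    · have h1 := df (0, b + 1)
      have h2 := hf.mb 0 b
      rw [S_zs] at h1
      rw [S_zs, S_zs]
      push_cast at h2 ⊢
      linarith
    · have h1 := df (a + 1, 0)
      have h2 := hg.mb a 0
      rw [S_sz] at h1
      rw [S_ss, S_sz]
      push_cast at h2 ⊢
      linarith
    · have h1 := df (a + 1, b + 1)
      have h2 := hg.mb a (b + 1)
      have h3 := hf.mb (a + 1) b
      rw [S_ss] at h1
      rw [S_ss, S_ss]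
      push_cast at h2 h3 ⊢
      linarith

theorem S_mix (c x y z v : ℝ) (f g : W) (p : ℕ × ℕ) :
    S c (x • g + y • f) (z • g + v • f) p = c * dl p +
      (x * g.mapDomain up p + y * f.mapDomain up p) / 2 +
        (z * g.mapDomain dn p + v * f.mapDomain dn p) / 2 := by
  simp only [S_apply, Finsupp.mapDomain_add, Finsupp.mapDomain_smul, Finsupp.add_apply,
    Finsupp.smul_apply, smul_eq_mul]

theorem up_le {x y q : ℝ} {f g X : W} (h : ∀ p, x * g p + y * f p ≤ q * X p) (p : ℕ × ℕ) :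
    x * g.mapDomain up p + y * f.mapDomain up p ≤ q * X.mapDomain up p := by
  rcases p with ⟨_ | a, b⟩
  · simp [up_zero]
  · simpa only [up_succ] using h (a, b)

theorem dn_le {x y q : ℝ} {f g X : W} (h : ∀ p, x * g p + y * f p ≤ q * X p) (p : ℕ × ℕ) :
    x * g.mapDomain dn p + y * f.mapDomain dn p ≤ q * X.mapDomain dn p := by
  rcases p with ⟨a, _ | b⟩
  · simp [dn_zero]
  · simpa only [dn_succ] using h (a, b)

/-- The invariants of the pair (carry one, carry zero); the last four only in the mode `two`. -/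
structure Inv (two : Prop) (f g : W) : Prop where
  cf : Cone f
  cg : Cone g
  gg : ∀ p, g p ≤ S 1 g g p
  ff : ∀ p, f p ≤ S 1 f f p
  gI : ∀ p, g p ≤ S 1 g f p
  fI : ∀ p, f p ≤ S 1 g f p
  fg : two → ∀ p, f p ≤ S 1 g g p
  gf : two → ∀ p, g p ≤ S 1 f f p
  gJ : two → ∀ p, g p ≤ S 1 f g p
  fJ : two → ∀ p, f p ≤ S 1 f g p

theorem Inv.zero (two : Prop) : Inv two 0 0 := by
  have h : ∀ p, (0 : W) p ≤ S 1 0 0 p := by
    rintro ⟨_ | a, _ | b⟩
    · simp [S_zz]
    · simp [S_zs]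
    · simp [S_sz]
    · simp [S_ss]
  exact ⟨Cone.zero, Cone.zero, h, h, h, h, fun _ => h, fun _ => h, fun _ => h, fun _ => h⟩

/-- numbers of lazy, up and down digits, without and with an outgoing carry -/
structure Co where
  L0 : ℝ
  L1 : ℝ
  P0 : ℝ
  P1 : ℝ
  N0 : ℝ
  N1 : ℝ

/-- the counts are nonnegative, fair, and add up to `q` -/
structure Co.Ok (c : Co) (q : ℝ) : Prop where
  l0 : 0 ≤ c.L0
  l1 : 0 ≤ c.L1
  p0 : 0 ≤ c.P0
  p1 : 0 ≤ c.P1
  n0 : 0 ≤ c.N0
  n1 : 0 ≤ c.N1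
  fair : c.P0 + c.P1 = c.N0 + c.N1
  tot : c.L0 + c.L1 + 2 * (c.P0 + c.P1) = q

/-- the moving part of one digit position -/
noncomputable def Mv (c : Co) (f g : W) : W :=
  S (2 * (c.P0 + c.P1)) ((2 * c.P0) • g + (2 * c.P1) • f) ((2 * c.N0) • g + (2 * c.N1) • f)

/-- the survival function after one more digit position -/
noncomputable def H (q : ℝ) (c : Co) (f g : W) : W :=
  (1 / q) • (c.L0 • g + c.L1 • f + Mv c f g)

theorem H_apply {q : ℝ} (hq : q ≠ 0) (c : Co) (f g : W) (p : ℕ × ℕ) :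
    q * H q c f g p = c.L0 * g p + c.L1 * f p + Mv c f g p := by
  simp only [H, Finsupp.add_apply, Finsupp.smul_apply, smul_eq_mul]
  field_simp

theorem Mv_apply (c : Co) (f g : W) (p : ℕ × ℕ) :
    Mv c f g p = 2 * (c.P0 + c.P1) * dl p +
      (c.P0 * g.mapDomain up p + c.P1 * f.mapDomain up p) +
        (c.N0 * g.mapDomain dn p + c.N1 * f.mapDomain dn p) := by
  rw [Mv, S_mix]
  ring

variable {two : Prop} {f g : W} {q : ℝ} {c c' c'' : Co}

theorem Inv.both (h : Inv two f g) (ht : two) (p : ℕ × ℕ) : ∃ a b : ℝ,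
    a ≤ g.mapDomain up p ∧ a ≤ f.mapDomain up p ∧ b ≤ g.mapDomain dn p ∧ b ≤ f.mapDomain dn p ∧
      g p ≤ dl p + a / 2 + b / 2 ∧ f p ≤ dl p + a / 2 + b / 2 := by
  have h1 := h.gg p
  have h2 := h.ff p
  have h3 := h.gI p
  have h4 := h.fI p
  have h5 := h.fg ht p
  have h6 := h.gf ht p
  have h7 := h.gJ ht p
  have h8 := h.fJ ht p
  rw [S_apply] at h1 h2 h3 h4 h5 h6 h7 h8
  rcases le_total (g.mapDomain up p) (f.mapDomain up p) with a | a <;>
    rcases le_total (g.mapDomain dn p) (f.mapDomain dn p) with b | b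
  · exact ⟨_, _, le_rfl, a, le_rfl, b, by linarith, by linarith⟩
  · exact ⟨_, _, le_rfl, a, b, le_rfl, by linarith, by linarith⟩
  · exact ⟨_, _, a, le_rfl, le_rfl, b, by linarith, by linarith⟩
  · exact ⟨_, _, a, le_rfl, b, le_rfl, by linarith, by linarith⟩

theorem Inv.mv_two (h : Inv two f g) (ht : two) (hc : c.Ok q) {x y : ℝ} (hx : 0 ≤ x) (hy : 0 ≤ y)
    (e : x + y = 2 * (c.P0 + c.P1)) (p : ℕ × ℕ) : x * g p + y * f p ≤ Mv c f g p := by
  obtain ⟨a, b, a1, a2, b1, b2, h1, h2⟩ := h.both ht p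
  have k1 := mul_le_mul_of_nonneg_left h1 hx
  have k2 := mul_le_mul_of_nonneg_left h2 hy
  have k3 := mul_le_mul_of_nonneg_left a1 hc.p0
  have k4 := mul_le_mul_of_nonneg_left a2 hc.p1
  have k5 := mul_le_mul_of_nonneg_left b1 hc.n0
  have k6 := mul_le_mul_of_nonneg_left b2 hc.n1
  have e1 : x * (dl p + a / 2 + b / 2) + y * (dl p + a / 2 + b / 2) =
      2 * (c.P0 + c.P1) * dl p + (c.P0 * a + c.P1 * a) + (c.N0 * b + c.N1 * b) := by
    rw [← add_mul, e, ← add_mul c.N0, ← hc.fair]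
    ring
  rw [Mv_apply]
  linarith

theorem Inv.mv_one (h : Inv two f g) (hc : c.Ok q) {x y : ℝ} (hx : 2 * c.N0 ≤ x)
    (hy : x ≤ 2 * c.P0) (e : x + y = 2 * (c.P0 + c.P1)) (p : ℕ × ℕ) :
    x * g p + y * f p ≤ Mv c f g p := by
  have h1 := h.gg p
  have h2 := h.ff p
  have h3 := h.gI p
  have h4 := h.fI p
  rw [S_apply] at h1 h2 h3 h4
  have k1 := mul_le_mul_of_nonneg_left h1 hc.n0
  have k2 := mul_le_mul_of_nonneg_left h2 hc.p1
  have k3 := mul_le_mul_of_nonneg_left h3 (sub_nonneg.2 hx)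
  have k4 := mul_le_mul_of_nonneg_left h4 (sub_nonneg.2 hy)
  have e1 : c.N1 = c.P0 + c.P1 - c.N0 := by linarith [hc.fair]
  have e2 : y = 2 * (c.P0 + c.P1) - x := by linarith
  rw [Mv_apply, e1, e2]
  linarith

theorem Inv.cone_H (h : Inv two f g) (hq : 0 < q) (hc : c.Ok q) (ht : two ∨ c.N0 ≤ c.P0) :
    Cone (H q c f g) := by
  have p0 := hc.p0
  have p1 := hc.p1
  have n0 := hc.n0
  have n1 := hc.n1
  have fa := hc.fair
  refine (((h.cg.smul hc.l0).add (h.cf.smul hc.l1)).add (cone_S ?_ ?_ ?_ ?_)).smul (by positivity)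
  · exact (h.cg.smul (by linarith)).add (h.cf.smul (by linarith))
  · exact (h.cg.smul (by linarith)).add (h.cf.smul (by linarith))
  · intro p
    simp only [Finsupp.add_apply, Finsupp.smul_apply, smul_eq_mul]
    rcases ht with ht | ht
    · exact h.mv_two ht hc (by linarith) (by linarith) (by ring) p
    · exact h.mv_one hc (by linarith) le_rfl (by ring) p
  · intro p
    simp only [Finsupp.add_apply, Finsupp.smul_apply, smul_eq_mul]
    rcases ht with ht | ht
    · exact h.mv_two ht hc (by linarith) (by linarith) (by linarith) p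
    · exact h.mv_one hc le_rfl (by linarith) (by linarith) p

/-- a mixture of `g` and `f` lies below the new survival function -/
def Low (q : ℝ) (c : Co) (f g : W) (x : ℝ) : Prop :=
  ∀ p, x * g p + (q - x) * f p ≤ q * H q c f g p

/-- the new survival function lies below a fair step followed by mixtures of `g` and `f` -/
def High (q : ℝ) (c : Co) (f g : W) (y z : ℝ) : Prop :=
  ∀ p, q * H q c f g p ≤ q * dl p + (y * g.mapDomain up p + (q - y) * f.mapDomain up p) / 2 +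
    (z * g.mapDomain dn p + (q - z) * f.mapDomain dn p) / 2

theorem High.le (hq : 0 < q) {y z : ℝ} (h : High q c f g y z) (h1 : Low q c' f g y)
    (h2 : Low q c'' f g z) (p : ℕ × ℕ) : H q c f g p ≤ S 1 (H q c' f g) (H q c'' f g) p := by
  have a := h p
  have b := up_le h1 p
  have d := dn_le h2 p
  apply le_of_mul_le_mul_left _ hq
  rw [S_apply]
  linarith

theorem Inv.low_two (h : Inv two f g) (ht : two) (hq : 0 < q) (hc : c.Ok q) {x : ℝ}
    (h1 : c.L0 ≤ x) (h2 : x ≤ q - c.L1) : Low q c f g x := by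
  intro p
  have := h.mv_two ht hc (x := x - c.L0) (y := q - c.L1 - x) (by linarith) (by linarith)
    (by linarith [hc.tot]) p
  rw [H_apply hq.ne']
  linarith

theorem Inv.low_one (h : Inv two f g) (hq : 0 < q) (hc : c.Ok q) {x : ℝ}
    (h1 : c.L0 + 2 * c.N0 ≤ x) (h2 : x ≤ c.L0 + 2 * c.P0) : Low q c f g x := by
  intro p
  have := h.mv_one hc (x := x - c.L0) (y := q - c.L1 - x) (by linarith) (by linarith)
    (by linarith [hc.tot]) p
  rw [H_apply hq.ne']
  linarith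

theorem Inv.high_two (h : Inv two f g) (ht : two) (hq : 0 < q) (hc : c.Ok q) {y z : ℝ}
    (y1 : 2 * c.P0 ≤ y) (y2 : y ≤ q - 2 * c.P1) (z1 : 2 * c.N0 ≤ z) (z2 : z ≤ q - 2 * c.N1) :
    High q c f g y z := by
  intro p
  obtain ⟨a, b, a1, a2, b1, b2, h1, h2⟩ := h.both ht p
  have k1 := mul_le_mul_of_nonneg_left h1 hc.l0
  have k2 := mul_le_mul_of_nonneg_left h2 hc.l1
  have k3 := mul_le_mul_of_nonneg_left a1 (sub_nonneg.2 y1)
  have k4 := mul_le_mul_of_nonneg_left a2 (sub_nonneg.2 y2)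
  have k5 := mul_le_mul_of_nonneg_left b1 (sub_nonneg.2 z1)
  have k6 := mul_le_mul_of_nonneg_left b2 (sub_nonneg.2 z2)
  have e1 : c.N1 = c.P0 + c.P1 - c.N0 := by linarith [hc.fair]
  rw [H_apply hq.ne', Mv_apply]
  rw [← hc.tot] at k4 k6 ⊢
  rw [e1] at k6 ⊢
  linarith

theorem Inv.high_one (h : Inv two f g) (hq : 0 < q) (hc : c.Ok q) {y z : ℝ}
    (y1 : c.L0 + 2 * c.P0 ≤ y) (y2 : y ≤ q - 2 * c.P1) (z1 : 2 * c.N0 ≤ z)
    (z2 : z ≤ c.L0 + 2 * c.N0) : High q c f g y z := by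
  intro p
  have h1 := h.gg p
  have h2 := h.ff p
  have h3 := h.gI p
  have h4 := h.fI p
  rw [S_apply] at h1 h2 h3 h4
  have k1 := mul_le_mul_of_nonneg_left h1 (sub_nonneg.2 z1)
  have k2 := mul_le_mul_of_nonneg_left h2 (sub_nonneg.2 y2)
  have k3 := mul_le_mul_of_nonneg_left h3 (sub_nonneg.2 z2)
  have k4 := mul_le_mul_of_nonneg_left h4 (sub_nonneg.2 y1)
  have e1 : c.N1 = c.P0 + c.P1 - c.N0 := by linarith [hc.fair]
  rw [H_apply hq.ne', Mv_apply, e1]
  rw [← hc.tot] at k2 ⊢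
  linarith

/-- the moving digits of `c` fit beside the lazy digits of `c'` -/
structure Fit (q : ℝ) (c c' : Co) : Prop where
  p0 : 2 * c.P0 + c'.L1 ≤ q
  p1 : 2 * c.P1 + c'.L0 ≤ q
  n0 : 2 * c.N0 + c'.L1 ≤ q
  n1 : 2 * c.N1 + c'.L0 ≤ q

theorem Co.Ok.fit (hc : c.Ok q) : Fit q c c := by
  have := hc.l0
  have := hc.l1
  have := hc.p0
  have := hc.p1
  have := hc.n0
  have := hc.n1
  have := hc.fair
  have := hc.tot
  refine ⟨?_, ?_, ?_, ?_⟩ <;> linarith

theorem Inv.le_two (h : Inv two f g) (ht : two) (hq : 0 < q) (hc : c.Ok q) (hc' : c'.Ok q)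
    (hc'' : c''.Ok q) (a : Fit q c c') (b : Fit q c c'') (p : ℕ × ℕ) :
    H q c f g p ≤ S 1 (H q c' f g) (H q c'' f g) p := by
  have t1 : 2 * c.P0 ≤ q - 2 * c.P1 := by linarith [hc.tot, hc.l0, hc.l1]
  have t2 : 2 * c.N0 ≤ q - 2 * c.N1 := by linarith [hc.tot, hc.l0, hc.l1, hc.fair]
  have t3 : c'.L0 ≤ q - c'.L1 := by linarith [hc'.tot, hc'.p0, hc'.p1]
  have t4 : c''.L0 ≤ q - c''.L1 := by linarith [hc''.tot, hc''.p0, hc''.p1]
  refine (h.high_two ht hq hc (y := max (2 * c.P0) c'.L0) (z := max (2 * c.N0) c''.L0)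
    (le_max_left _ _) (max_le t1 (by linarith [a.p1])) (le_max_left _ _)
    (max_le t2 (by linarith [b.n1]))).le hq
    (h.low_two ht hq hc' (le_max_right _ _) (max_le (by linarith [a.p0]) t3))
    (h.low_two ht hq hc'' (le_max_right _ _) (max_le (by linarith [b.n0]) t4)) p

theorem Inv.step_two (h : Inv two f g) (ht : two) (hq : 0 < q) (hc : c.Ok q) (hc' : c'.Ok q)
    (a : Fit q c c') (b : Fit q c' c) : Inv two (H q c' f g) (H q c f g) :=
  ⟨h.cone_H hq hc' (Or.inl ht), h.cone_H hq hc (Or.inl ht),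
    h.le_two ht hq hc hc hc hc.fit hc.fit, h.le_two ht hq hc' hc' hc' hc'.fit hc'.fit,
    h.le_two ht hq hc hc hc' hc.fit a, h.le_two ht hq hc' hc hc' b hc'.fit,
    fun _ => h.le_two ht hq hc' hc hc b b, fun _ => h.le_two ht hq hc hc' hc' a a,
    fun _ => h.le_two ht hq hc hc' hc a hc.fit, fun _ => h.le_two ht hq hc' hc' hc hc'.fit b⟩

theorem Inv.le_self (h : Inv two f g) (hq : 0 < q) (hc : c.Ok q) (d : c.N0 ≤ c.P0) (p : ℕ × ℕ) :
    H q c f g p ≤ S 1 (H q c f g) (H q c f g) p :=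
  (h.high_one hq hc le_rfl (by linarith [hc.tot, hc.l1]) (by linarith [hc.l0]) le_rfl).le hq
    (h.low_one hq hc (by linarith) le_rfl) (h.low_one hq hc le_rfl (by linarith)) p

theorem Inv.step_one (h : Inv False f g) (hq : 0 < q) (hc : c.Ok q) (hc' : c'.Ok q)
    (d : c.N0 ≤ c.P0) (d' : c'.N0 ≤ c'.P0) (a1 : c'.L0 + 2 * c'.N0 ≤ c.L0 + 2 * c.N0)
    (a2 : 2 * c.N0 ≤ c'.L0 + 2 * c'.P0) (a3 : c'.L0 + 2 * c'.P0 ≤ c.L0 + 2 * c.P0)
    (a4 : c.L0 + 2 * c.N0 ≤ q - 2 * c'.P1) : Inv False (H q c' f g) (H q c f g) := by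
  refine ⟨h.cone_H hq hc' (Or.inr d'), h.cone_H hq hc (Or.inr d), h.le_self hq hc d,
    h.le_self hq hc' d', ?_, ?_, False.elim, False.elim, False.elim, False.elim⟩
  · exact (h.high_one hq hc (z := min (c.L0 + 2 * c.N0) (c'.L0 + 2 * c'.P0)) le_rfl
      (by linarith [hc.tot, hc.l1]) (le_min (by linarith [hc.l0]) a2) (min_le_left _ _)).le hq
      (h.low_one hq hc (by linarith) le_rfl)
      (h.low_one hq hc' (le_min a1 (by linarith)) (min_le_right _ _))
  · exact (h.high_one hq hc' (y := max (c'.L0 + 2 * c'.P0) (c.L0 + 2 * c.N0)) (le_max_left _ _)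
      (max_le (by linarith [hc'.tot, hc'.l1]) a4) (by linarith [hc'.l0]) le_rfl).le hq
      (h.low_one hq hc (le_max_right _ _) (max_le a3 (by linarith)))
      (h.low_one hq hc' le_rfl (by linarith))

theorem Lam_H (hq : q ≠ 0) (ψ : ℤ → ℝ) (x : ℤ) (c : Co) (f g : W) :
    q * Lam 1 ψ x (H q c f g) = c.L0 * Lam 1 ψ x g + c.L1 * Lam 1 ψ x f +
      2 * (c.P0 + c.P1) * Lap 1 ψ x + c.P0 * Lam 1 ψ (x + 1) g + c.P1 * Lam 1 ψ (x + 1) f +
        c.N0 * Lam 1 ψ (x - 1) g + c.N1 * Lam 1 ψ (x - 1) f := by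
  have h : Lam 1 ψ x dl = Lap 1 ψ x := by
    simp [Lam, dl]
  simp only [H, Mv, S, map_add, map_smul, Lam_up, Lam_dn, h, smul_eq_mul]
  field_simp
  ring

end Pool.Agent.MP_23af5d_nt.DC
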