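import Pool.Agent.MP_23af5d_nt.CountStrict

/-! From one period of the last `k` digits to natural densities. -/

namespace Pool.Agent.MP_23af5d_nt.DC

open Finset Filter Topology

theorem avg_add {f g : ℕ → ℝ} {a b : ℝ} (hf : Avg f a) (hg : Avg g b) :
    Avg (fun n => f n + g n) (a + b) := by
  refine (Tendsto.add hf hg).congr fun N => ?_
  rw [sum_add_distrib, add_div]

theorem avg_init (M : ℕ) : Avg (fun n => if n < M then 1 else 0) 0 := by
  refine squeeze_zero (fun N => ?_) (fun N => ?_) (tendsto_const_div_atTop_nhds_zero_nat (M : ℝ))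
  · exact div_nonneg (sum_nonneg fun n _ => by split_ifs <;> norm_num) (Nat.cast_nonneg _)
  · refine div_le_div_of_nonneg_right ?_ (Nat.cast_nonneg _)
    rw [sum_boole, Nat.cast_le]
    refine (card_le_card (t := range M) fun n hn => ?_).trans (card_range M).le
    exact mem_range.2 (mem_filter.1 hn).2

theorem avg_period {f : ℕ → ℝ} {p : ℕ} (hp : 0 < p) (hf : ∀ n, |f n| ≤ 1)
    (h : ∀ m a, a < p → f (p * m + a) = f a) : Avg f ((∑ a ∈ range p, f a) / p) := by
  refine Avg.split hp hf fun a ha => ?_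
  simp only [fun m => h m a (mem_range.1 ha)]
  exact avg_const _

theorem avg_approx {f : ℕ → ℝ} {c : ℝ} (h : ∀ ε : ℝ, 0 < ε → ∃ (g e : ℕ → ℝ) (δ η : ℝ),
    Avg g δ ∧ Avg e η ∧ η < ε ∧ c ≤ δ ∧ ∀ n, |f n - g n| ≤ e n) : ∃ δ, Avg f δ ∧ c ≤ δ := by
  have key : ∀ ε : ℝ, 0 < ε → ∃ δ, c ≤ δ ∧
      ∀ᶠ N : ℕ in atTop, |(∑ n ∈ range N, f n) / N - δ| < ε := by
    intro ε hε
    obtain ⟨g, e, δ, η, hg, he, hη, hc, hb⟩ := h (ε / 2) (by positivity)
    refine ⟨δ, hc, ?_⟩
    filter_upwards [Metric.tendsto_nhds.1 hg (ε / 2) (by positivity),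
      (Tendsto.eventually_lt_const hη he)] with N h1 h2
    rw [Real.dist_eq] at h1
    have h3 : |(∑ n ∈ range N, f n) / N - (∑ n ∈ range N, g n) / N| ≤ (∑ n ∈ range N, e n) / N := by
      rw [← sub_div, ← sum_sub_distrib, abs_div, Nat.abs_cast]
      exact div_le_div_of_nonneg_right
        ((abs_sum_le_sum_abs _ _).trans (sum_le_sum fun n _ => hb n)) (Nat.cast_nonneg _)
    have := abs_sub_le ((∑ n ∈ range N, f n) / N) ((∑ n ∈ range N, g n) / N) δ
    linarith
  have hc : CauchySeq fun N : ℕ => (∑ n ∈ range N, f n) / N := by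
    refine Metric.cauchySeq_iff.2 fun ε hε => ?_
    obtain ⟨δ, -, hδ⟩ := key (ε / 2) (by positivity)
    obtain ⟨M, hM⟩ := eventually_atTop.1 hδ
    refine ⟨M, fun m hm n hn => ?_⟩
    have h1 := abs_lt.1 (hM m hm)
    have h2 := abs_lt.1 (hM n hn)
    rw [Real.dist_eq, abs_lt]
    constructor <;> linarith [h1.1, h1.2, h2.1, h2.2]
  obtain ⟨δ, hδ⟩ := cauchySeq_tendsto_of_complete hc
  refine ⟨δ, hδ, le_of_forall_pos_le_add fun ε hε => ?_⟩
  obtain ⟨δ', h1, h2⟩ := key ε hε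
  have : δ' - ε ≤ δ := ge_of_tendsto hδ (h2.mono fun N hN => by linarith [(abs_lt.1 hN).1])
  linarith

theorem Wt_period (v : ℕ → ℤ) {q : ℕ} (hq : 0 < q) (k : ℕ) :
    ∀ m a, Wt v q k (q ^ k * m + a) = Wt v q k a := by
  induction k with
  | zero => intro m a; rfl
  | succ k ih =>
    intro m a
    rw [Wt, Wt, pow_succ', mul_assoc, Nat.mul_add_mod, Nat.mul_add_div hq, ih]

theorem split {v : ℕ → ℤ} {s : ℕ → ℤ} {q : ℕ} (hq : 0 < q)
    (hs : ∀ n, 0 < n → s n = v (n % q) + s (n / q)) (k : ℕ) :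
    ∀ n, q ^ k ≤ n → s n = Wt v q k n + s (n / q ^ k) := by
  induction k with
  | zero => intro n _; simp [Wt]
  | succ k ih =>
    intro n hn
    have h1 : q ^ k ≤ n / q := by
      rw [Nat.le_div_iff_mul_le hq, ← pow_succ]
      exact hn
    rw [hs n (lt_of_lt_of_le (by positivity) hn), ih _ h1, Wt, Nat.div_div_eq_div_mul, ← pow_succ',
      add_assoc]

theorem dens {v : ℕ → ℤ} {s : ℕ → ℤ} {q : ℕ} (hq : 1 < q)
    (hs : ∀ n, 0 < n → s n = v (n % q) + s (n / q)) (t : ℕ) {ψ : ℤ → ℝ}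
    (hψ : ∀ x, 0 ≤ ψ x ∧ ψ x ≤ 1) {c : ℝ} {k₀ : ℕ}
    (h : ∀ k, k₀ ≤ k → c * (q : ℝ) ^ k ≤ E v q k t ψ 0) :
    ∃ δ, Avg (fun n => ψ (s (n + t) - s n)) δ ∧ c ≤ δ := by
  refine avg_approx fun ε hε => ?_
  have hq' : (1 : ℝ) < q := by exact_mod_cast hq
  obtain ⟨k, hk, hk₀⟩ := (((tendsto_pow_atTop_atTop_of_one_lt hq').eventually_gt_atTop (t / ε)).and
    (eventually_ge_atTop k₀)).exists
  have hp : 0 < q ^ k := by positivity
  have hp' : (0 : ℝ) < (q : ℝ) ^ k := by positivity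
  have h1 := avg_period (f := fun n => ψ (0 + (Wt v q k (n + t) - Wt v q k n))) hp
    (fun n => abs_le.2 ⟨by linarith [(hψ (0 + (Wt v q k (n + t) - Wt v q k n))).1], (hψ _).2⟩)
    (fun m a _ => by rw [add_assoc, Wt_period v (by omega), Wt_period v (by omega)])
  have h2 := avg_period (f := fun n => if q ^ k ≤ n % q ^ k + t then 1 else 0) hp
    (fun n => by split_ifs <;> simp) (fun m a _ => by rw [Nat.mul_add_mod])
  refine ⟨_, _, _, _, h1, avg_add h2 (avg_init (q ^ k)), ?_, ?_, fun n => ?_⟩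
  · rw [add_zero, sum_boole, Nat.cast_pow, div_lt_iff₀ hp']
    rw [div_lt_iff₀ hε, mul_comm] at hk
    refine lt_of_le_of_lt (Nat.cast_le.2 ?_) hk
    refine (card_le_card (t := Ico (q ^ k - t) (q ^ k)) fun n hn => ?_).trans ?_
    · obtain ⟨a, b⟩ := mem_filter.1 hn
      have a' := mem_range.1 a
      rw [Nat.mod_eq_of_lt a'] at b
      exact mem_Ico.2 ⟨by omega, a'⟩
    · rw [Nat.card_Ico]
      omega
  · rw [Nat.cast_pow, le_div_iff₀ hp']
    exact h k hk₀
  · have hb : |ψ (s (n + t) - s n) - ψ (0 + (Wt v q k (n + t) - Wt v q k n))| ≤ 1 := by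
      have a := hψ (s (n + t) - s n)
      have b := hψ (0 + (Wt v q k (n + t) - Wt v q k n))
      exact abs_le.2 ⟨by linarith [a.1, b.2], by linarith [a.2, b.1]⟩
    split_ifs with c1 c2 c2
    · linarith
    · linarith
    · linarith
    · have e : (n + t) / q ^ k = n / q ^ k := by
        conv_lhs => rw [← Nat.div_add_mod n (q ^ k), add_assoc, Nat.mul_add_div hp,
          Nat.div_eq_of_lt (show n % q ^ k + t < q ^ k by omega), add_zero]
      rw [split (by omega) hs k (n + t) (by omega), split (by omega) hs k n (by omega), e,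
        add_sub_add_right_eq_sub]
      simp

theorem psiP_mem (x : ℤ) : 0 ≤ psiP (-1) x ∧ psiP (-1) x ≤ 1 := by
  unfold psiP
  split_ifs <;> norm_num

theorem psiM_mem (x : ℤ) : 0 ≤ psiM 1 x ∧ psiM 1 x ≤ 1 := by
  unfold psiM
  split_ifs <;> norm_num

theorem C_card (A : Finset ℕ) (j : ℕ) :
    C (fun b => (((if b ∈ A then 1 else 0 : ℤ)) : ℝ)) j = (A ∩ range j).card := by
  simp only [C, Int.cast_ite, Int.cast_one, Int.cast_zero, sum_boole, filter_mem_eq_inter,
    inter_comm]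

theorem card_top (A : Finset ℕ) {i j q : ℕ} (h : i + j = q) :
    ((A ∩ range q).card : ℝ) = (A ∩ range i).card + (A ∩ Ico (q - j) q).card := by
  rw [show q - j = i by omega, range_eq_Ico, range_eq_Ico,
    ← Ico_union_Ico_eq_Ico (Nat.zero_le i) (show i ≤ q by omega), inter_union_distrib_left,
    card_union_of_disjoint, Nat.cast_add]
  exact (Ico_disjoint_Ico_consecutive 0 i q).mono inter_subset_right inter_subset_right

theorem count_step (A : Finset ℕ) {q : ℕ} (hq : 1 < q) (n : ℕ) (hn : 0 < n) :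
    (((Nat.digits q n).countP (· ∈ A) : ℕ) : ℤ) =
      (if n % q ∈ A then 1 else 0) + ((Nat.digits q (n / q)).countP (· ∈ A) : ℕ) := by
  rw [Nat.digits_def' hq hn, List.countP_cons]
  split_ifs <;> simp_all [add_comm]

theorem avg_ge {a b : ℕ → ℕ} {δ : ℝ} (h : Avg (fun n => psiP (-1) ((a n : ℤ) - b n)) δ) :
    Tendsto (fun N : ℕ => (((range N).filter fun n => b n ≤ a n).card : ℝ) / N) atTop (𝓝 δ) := by
  refine h.congr fun N => ?_
  rw [card_filter, Nat.cast_sum]
  refine congrArg (· / (N : ℝ)) (sum_congr rfl fun n _ => ?_)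
  simp only [psiP, Nat.cast_ite, Nat.cast_one, Nat.cast_zero]
  exact if_congr (by omega) rfl rfl

theorem avg_le {a b : ℕ → ℕ} {δ : ℝ} (h : Avg (fun n => psiM 1 ((a n : ℤ) - b n)) δ) :
    Tendsto (fun N : ℕ => (((range N).filter fun n => a n ≤ b n).card : ℝ) / N) atTop (𝓝 δ) := by
  refine h.congr fun N => ?_
  rw [card_filter, Nat.cast_sum]
  refine congrArg (· / (N : ℝ)) (sum_congr rfl fun n _ => ?_)
  simp only [psiM, Nat.cast_ite, Nat.cast_one, Nat.cast_zero]
  exact if_congr (by omega) rfl rfl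

end Pool.Agent.MP_23af5d_nt.DC
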