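import Pool.Agent.MP_23af5d_nt.CountCone

/-! The digit-count walk over the last `k` digits has median zero. -/

namespace Pool.Agent.MP_23af5d_nt.DC

open Finset

/-- number of `b < j` with `w b = 0` and `w (b + i) = 1` -/
noncomputable def P (w : ℕ → ℝ) (i j : ℕ) : ℝ := ∑ b ∈ range j, w (b + i) * (1 - w b)

/-- number of `b < j` with `w b = 1` and `w (b + i) = 0` -/
noncomputable def N (w : ℕ → ℝ) (i j : ℕ) : ℝ := ∑ b ∈ range j, w b * (1 - w (b + i))

/-- number of `b < j` with `w b = 1` -/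
noncomputable def C (w : ℕ → ℝ) (j : ℕ) : ℝ := ∑ b ∈ range j, w b

/-- the counts when `i` is added to a digit in base `i + j` -/
noncomputable def co (w : ℕ → ℝ) (i j : ℕ) : Co :=
  ⟨j - P w i j - N w i j, i - P w j i - N w j i, P w i j, N w j i, N w i j, P w j i⟩

variable {w : ℕ → ℝ}

theorem P_sub (w : ℕ → ℝ) (i j : ℕ) : P w i j - N w i j = C w (i + j) - C w i - C w j := by
  have e : C w (i + j) = C w i + ∑ b ∈ range j, w (b + i) := by
    rw [C, sum_range_add]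
    simp only [C, add_comm]
  rw [e, P, N, C, C, ← sum_sub_distrib, add_sub_cancel_left, ← sum_sub_distrib]
  exact sum_congr rfl fun b _ => by ring

theorem C_succ (w : ℕ → ℝ) (j : ℕ) : C w (j + 1) = C w j + w j := sum_range_succ _ _

theorem t_nonneg (hw : ∀ b, w b = 0 ∨ w b = 1) (a b : ℕ) : 0 ≤ w a * (1 - w b) := by
  rcases hw a with h | h <;> rcases hw b with h' | h' <;> simp [h, h']

theorem t_le (hw : ∀ b, w b = 0 ∨ w b = 1) (a b : ℕ) :
    w a * (1 - w b) + w b * (1 - w a) ≤ 1 := by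
  rcases hw a with h | h <;> rcases hw b with h' | h' <;> simp [h, h']

theorem P_nonneg (hw : ∀ b, w b = 0 ∨ w b = 1) (i j : ℕ) : 0 ≤ P w i j :=
  sum_nonneg fun _ _ => t_nonneg hw _ _

theorem N_nonneg (hw : ∀ b, w b = 0 ∨ w b = 1) (i j : ℕ) : 0 ≤ N w i j :=
  sum_nonneg fun _ _ => t_nonneg hw _ _

theorem le_P (hw : ∀ b, w b = 0 ∨ w b = 1) (i : ℕ) {j b : ℕ} (hb : b < j) :
    w (b + i) * (1 - w b) ≤ P w i j :=
  single_le_sum (f := fun b => w (b + i) * (1 - w b)) (fun _ _ => t_nonneg hw _ _)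
    (mem_range.2 hb)

theorem le_N (hw : ∀ b, w b = 0 ∨ w b = 1) (i : ℕ) {j b : ℕ} (hb : b < j) :
    w b * (1 - w (b + i)) ≤ N w i j :=
  single_le_sum (f := fun b => w b * (1 - w (b + i))) (fun _ _ => t_nonneg hw _ _)
    (mem_range.2 hb)

theorem lazy_le (hw : ∀ b, w b = 0 ∨ w b = 1) (i : ℕ) {j b : ℕ} (hb : b < j) :
    1 - (w (b + i) * (1 - w b) + w b * (1 - w (b + i))) ≤ j - P w i j - N w i j := by
  have := single_le_sum (f := fun b => 1 - (w (b + i) * (1 - w b) + w b * (1 - w (b + i))))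
    (fun a _ => sub_nonneg.2 (t_le hw _ _)) (mem_range.2 hb)
  rw [sum_sub_distrib, sum_add_distrib] at this
  simp only [sum_const, card_range, nsmul_eq_mul, mul_one] at this
  rw [P, N]
  linarith

theorem lazy_nonneg (hw : ∀ b, w b = 0 ∨ w b = 1) (i j : ℕ) : 0 ≤ j - P w i j - N w i j := by
  have := sum_nonneg (s := range j)
    (f := fun b => 1 - (w (b + i) * (1 - w b) + w b * (1 - w (b + i))))
    (fun a _ => sub_nonneg.2 (t_le hw _ _))
  rw [sum_sub_distrib, sum_add_distrib] at this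
  simp only [sum_const, card_range, nsmul_eq_mul, mul_one] at this
  rw [P, N]
  linarith

theorem co_ok (hw : ∀ b, w b = 0 ∨ w b = 1) (i j : ℕ) : (co w i j).Ok ((i + j : ℕ) : ℝ) := by
  have h1 := P_sub w i j
  have h2 := P_sub w j i
  rw [add_comm j i] at h2
  refine ⟨lazy_nonneg hw i j, lazy_nonneg hw j i, P_nonneg hw _ _, N_nonneg hw _ _,
    N_nonneg hw _ _, P_nonneg hw _ _, ?_, ?_⟩
  · simp only [co]
    linarith
  · simp only [co]
    push_cast
    linarith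

theorem long (hw : ∀ b, w b = 0 ∨ w b = 1) (r j : ℕ) :
    2 * P w (r + 1) j ≤ j + 1 + P w (j + 1) r + N w (j + 1) r ∧
      2 * N w (r + 1) j ≤ j + 1 + P w (j + 1) r + N w (j + 1) r := by
  have h1 := P_sub w (r + 1) j
  have h2 := P_sub w (j + 1) r
  rw [show r + 1 + j = j + 1 + r by ring] at h1
  rw [C_succ] at h1 h2
  have h3 := lazy_nonneg hw (r + 1) j
  have h4 := P_nonneg hw (j + 1) r
  have h5 := N_nonneg hw (j + 1) r
  rcases hw r with a | a <;> rcases hw j with b | b <;> constructor <;> linarith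

theorem short (hw : ∀ b, w b = 0 ∨ w b = 1) {r j : ℕ} (h0 : w 0 = w (r + j)) :
    2 * P w r (j + 1) ≤ j + P w j (r + 1) + N w j (r + 1) ∧
      2 * N w r (j + 1) ≤ j + P w j (r + 1) + N w j (r + 1) := by
  have h1 := P_sub w r (j + 1)
  have h2 := P_sub w j (r + 1)
  rw [show j + (r + 1) = r + (j + 1) by ring] at h2
  rw [C_succ w j] at h1
  rw [C_succ w r] at h2
  have l1 := lazy_le hw r (Nat.succ_pos j)
  have l2 := lazy_le hw r (Nat.lt_succ_self j)
  have p1 := le_P hw j (Nat.succ_pos r)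
  have p2 := le_P hw j (Nat.lt_succ_self r)
  have n1 := le_N hw j (Nat.succ_pos r)
  have n2 := le_N hw j (Nat.lt_succ_self r)
  have h4 := P_nonneg hw j (r + 1)
  have h5 := N_nonneg hw j (r + 1)
  rw [add_comm j r] at l2
  rw [← h0] at l2 p2 n2
  simp only [zero_add, Nat.succ_eq_add_one] at l1 l2 p1 p2 n1 n2
  push_cast at l1 l2
  rcases hw r with a | a <;> rcases hw j with b | b <;> rcases hw 0 with c | c <;>
    rw [c] at l1 l2 p1 p2 n1 n2 <;> constructor <;> linarith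

theorem heavy (hw : ∀ b, w b = 0 ∨ w b = 1) {r j : ℕ} (h0 : w 0 = 0) (h1 : w (r + j) = 1)
    (d : N w r (j + 1) ≤ P w r (j + 1)) (d' : N w (r + 1) j ≤ P w (r + 1) j) :
    2 * N w r (j + 1) + N w (r + 1) j ≤ j + P w (r + 1) j := by
  have e1 := P_sub w r (j + 1)
  have e2 := P_sub w (r + 1) j
  rw [show r + 1 + j = r + (j + 1) by ring, C_succ w r] at e2
  rw [C_succ w j] at e1
  have l0 := lazy_nonneg hw r (j + 1)
  have l1 := lazy_le hw r (Nat.succ_pos j)
  have l2 := lazy_le hw r (Nat.lt_succ_self j)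
  rw [add_comm j r, h1] at l2
  simp only [zero_add, Nat.succ_eq_add_one, h0] at l1 l2
  push_cast at l0 l1 l2
  rcases hw r with a | a <;> rcases hw j with b | b <;> linarith

/-- the hypothesis on the digit set in the two modes -/
def Hyp (two : Prop) (w : ℕ → ℝ) (q : ℕ) : Prop :=
  (two ∧ w 0 = w (q - 1)) ∨
    (two = False ∧ w 0 = 0 ∧ w (q - 1) = 1 ∧ ∀ i j, i + j = q → C w i + C w j ≤ C w q)

theorem Inv.step {two : Prop} {f g : W} (h : Inv two f g) (hw : ∀ b, w b = 0 ∨ w b = 1) {r j : ℕ}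
    (hy : Hyp two w (r + j + 1)) :
    Inv two (H ((r + j + 1 : ℕ) : ℝ) (co w (r + 1) j) f g)
      (H ((r + j + 1 : ℕ) : ℝ) (co w r (j + 1)) f g) := by
  have hq : (0 : ℝ) < ((r + j + 1 : ℕ) : ℝ) := by positivity
  have hc : (co w r (j + 1)).Ok ((r + j + 1 : ℕ) : ℝ) := co_ok hw r (j + 1)
  have hc' : (co w (r + 1) j).Ok ((r + j + 1 : ℕ) : ℝ) := by
    have := co_ok hw (r + 1) j
    rwa [show r + 1 + j = r + j + 1 by ring] at this
  rcases hy with ⟨ht, h0⟩ | ⟨rfl, h0, h1, hd⟩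
  · rw [Nat.add_sub_cancel] at h0
    have a1 := short hw h0
    have a2 := short hw (r := j) (j := r) (by rwa [add_comm])
    have a3 := long hw r j
    have a4 := long hw j r
    refine h.step_two ht hq hc hc' ⟨?_, ?_, ?_, ?_⟩ ⟨?_, ?_, ?_, ?_⟩ <;> simp only [co] <;>
      push_cast <;> linarith [a1.1, a1.2, a2.1, a2.2, a3.1, a3.2, a4.1, a4.2]
  · rw [Nat.add_sub_cancel] at h1
    have e1 := P_sub w r (j + 1)
    have e2 := P_sub w (r + 1) j
    have e3 := P_sub w j (r + 1)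
    have e4 := P_sub w (j + 1) r
    have d1 := hd r (j + 1) rfl
    have d2 := hd (r + 1) j (by ring)
    rw [show r + 1 + j = r + j + 1 by ring] at e2
    rw [show j + (r + 1) = r + j + 1 by ring] at e3
    rw [show j + 1 + r = r + j + 1 by ring] at e4
    rw [← add_assoc] at e1
    have a1 := heavy hw h0 h1 (by linarith) (by linarith)
    have a2 := heavy hw (r := j) (j := r) h0 (by rwa [add_comm]) (by linarith) (by linarith)
    have c1 := C_succ w r
    have c2 := C_succ w j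
    refine h.step_one hq hc hc' ?_ ?_ ?_ ?_ ?_ ?_ <;> simp only [co] <;> push_cast <;>
      rcases hw r with a | a <;> rcases hw j with b | b <;> linarith

/-- the sum of `v` over the last `k` digits in base `q` -/
def Wt (v : ℕ → ℤ) (q : ℕ) : ℕ → ℕ → ℤ
  | 0, _ => 0
  | k + 1, n => v (n % q) + Wt v q k (n / q)

theorem Wt_step (v : ℕ → ℤ) {q : ℕ} (k m : ℕ) {a : ℕ} (ha : a < q) :
    Wt v q (k + 1) (q * m + a) = v a + Wt v q k m := by
  rw [Wt, Nat.mul_add_mod, Nat.mod_eq_of_lt ha, Nat.mul_add_div (by omega), Nat.div_eq_of_lt ha,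
    add_zero]

/-- sum of `ψ` at the increment of the count, over one period -/
noncomputable def E (v : ℕ → ℤ) (q k t : ℕ) (ψ : ℤ → ℝ) (x : ℤ) : ℝ :=
  ∑ n ∈ range (q ^ k), ψ (x + (Wt v q k (n + t) - Wt v q k n))

theorem E_step (v : ℕ → ℤ) (i j k u : ℕ) (ψ : ℤ → ℝ) (x : ℤ) :
    E v (i + j) (k + 1) ((i + j) * u + i) ψ x =
      ∑ b ∈ range j, E v (i + j) k u ψ (x + (v (b + i) - v b)) +
        ∑ b ∈ range i, E v (i + j) k (u + 1) ψ (x + (v b - v (b + j))) := by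
  rw [E, pow_succ', sum_blocks, add_comm i j, sum_range_add]
  congr 1
  · refine sum_congr rfl fun b hb => sum_congr rfl fun m _ => ?_
    have hb' := mem_range.1 hb
    rw [show (j + i) * m + b + ((j + i) * u + i) = (j + i) * (m + u) + (b + i) by ring,
      Wt_step v k _ (by omega), Wt_step v k _ (by omega)]
    congr 1
    ring
  · refine sum_congr rfl fun b hb => sum_congr rfl fun m _ => ?_
    have hb' := mem_range.1 hb
    rw [show (j + i) * m + (j + b) + ((j + i) * u + i) = (j + i) * (m + (u + 1)) + b by ring,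
      Wt_step v k _ (by omega), Wt_step v k _ (by omega), add_comm j b]
    congr 1
    ring

theorem three {v : ℕ → ℤ} (hv : ∀ b, v b = 0 ∨ v b = 1) (φ : ℤ → ℝ) (x : ℤ) (a b : ℕ) :
    φ (x + (v a - v b)) = φ x + (v a : ℝ) * (1 - v b) * (φ (x + 1) - φ x) +
      (v b : ℝ) * (1 - v a) * (φ (x - 1) - φ x) := by
  rcases hv a with h | h <;> rcases hv b with h' | h' <;> simp [h, h', sub_eq_add_neg]

theorem sum_up {v : ℕ → ℤ} (hv : ∀ b, v b = 0 ∨ v b = 1) (φ : ℤ → ℝ) (x : ℤ) (i j : ℕ) :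
    ∑ b ∈ range j, φ (x + (v (b + i) - v b)) = j * φ x +
      P (fun b => v b) i j * (φ (x + 1) - φ x) + N (fun b => v b) i j * (φ (x - 1) - φ x) := by
  simp only [three hv φ x, sum_add_distrib, P, N, sum_mul, sum_const, card_range, nsmul_eq_mul]

theorem sum_dn {v : ℕ → ℤ} (hv : ∀ b, v b = 0 ∨ v b = 1) (φ : ℤ → ℝ) (x : ℤ) (i j : ℕ) :
    ∑ b ∈ range j, φ (x + (v b - v (b + i))) = j * φ x +
      N (fun b => v b) i j * (φ (x + 1) - φ x) + P (fun b => v b) i j * (φ (x - 1) - φ x) := by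
  simp only [three hv φ x, sum_add_distrib, P, N, sum_mul, sum_const, card_range, nsmul_eq_mul]

theorem cast01 {v : ℕ → ℤ} (hv : ∀ b, v b = 0 ∨ v b = 1) (b : ℕ) :
    (v b : ℝ) = 0 ∨ (v b : ℝ) = 1 := by
  rcases hv b with h | h <;> simp [h]

theorem E_H {v : ℕ → ℤ} (hv : ∀ b, v b = 0 ∨ v b = 1) {i j k u : ℕ} (hq : 0 < i + j) {ψ : ℤ → ℝ}
    {f g : W} (hf : ∀ x, E v (i + j) k (u + 1) ψ x = ((i + j : ℕ) : ℝ) ^ k * (ψ x + Lam 1 ψ x f))
    (hg : ∀ x, E v (i + j) k u ψ x = ((i + j : ℕ) : ℝ) ^ k * (ψ x + Lam 1 ψ x g)) (x : ℤ) :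
    E v (i + j) (k + 1) ((i + j) * u + i) ψ x = ((i + j : ℕ) : ℝ) ^ (k + 1) *
      (ψ x + Lam 1 ψ x (H ((i + j : ℕ) : ℝ) (co (fun b => v b) i j) f g)) := by
  have hq' : ((i + j : ℕ) : ℝ) ≠ 0 := by positivity
  have h1 := Lam_H hq' ψ x (co (fun b => v b) i j) f g
  have h2 := (co_ok (w := fun b => (v b : ℝ)) (cast01 hv) i j).fair
  rw [E_step, sum_up hv (E v (i + j) k u ψ), sum_dn hv (E v (i + j) k (u + 1) ψ), pow_succ,
    mul_assoc, mul_add ((i + j : ℕ) : ℝ), h1]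
  simp only [hf, hg, co, Lap] at h2 ⊢
  have h3 : P (fun b => (v b : ℝ)) j i =
      P (fun b => (v b : ℝ)) i j + N (fun b => (v b : ℝ)) j i - N (fun b => (v b : ℝ)) i j := by
    linarith
  rw [h3]
  push_cast
  ring

theorem exists_inv {v : ℕ → ℤ} (hv : ∀ b, v b = 0 ∨ v b = 1) {q : ℕ} (hq : 0 < q) {two : Prop}
    (hy : Hyp two (fun b => v b) q) (ψ : ℤ → ℝ) (k : ℕ) : ∀ t, ∃ f g : W, Inv two f g ∧
      (∀ x, E v q k (t + 1) ψ x = (q : ℝ) ^ k * (ψ x + Lam 1 ψ x f)) ∧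
        ∀ x, E v q k t ψ x = (q : ℝ) ^ k * (ψ x + Lam 1 ψ x g) := by
  induction k with
  | zero => exact fun t => ⟨0, 0, Inv.zero two, fun x => by simp [E, Wt], fun x => by simp [E, Wt]⟩
  | succ k ih =>
    intro t
    obtain ⟨u, r, j, rfl, rfl⟩ : ∃ u r j, q = r + j + 1 ∧ t = q * u + r :=
      ⟨t / q, t % q, q - 1 - t % q, by have := Nat.mod_lt t hq; omega, (Nat.div_add_mod _ _).symm⟩
    obtain ⟨f, g, hI, hf, hg⟩ := ih u
    refine ⟨_, _, hI.step (cast01 hv) hy, fun x => ?_, fun x => ?_⟩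
    · have e : r + j + 1 = r + 1 + j := by ring
      rw [add_assoc _ r 1]
      rw [e] at hf hg ⊢
      exact E_H hv (by omega) hf hg x
    · exact E_H (i := r) (j := j + 1) hv (by omega) hf hg x

theorem half {v : ℕ → ℤ} (hv : ∀ b, v b = 0 ∨ v b = 1) {q : ℕ} (hq : 0 < q) {two : Prop}
    (hy : Hyp two (fun b => v b) q) (k t : ℕ) :
    (q : ℝ) ^ k / 2 ≤ E v q k t (psiP (-1)) 0 ∧ (q : ℝ) ^ k / 2 ≤ E v q k t (psiM 1) 0 := by
  have hp : (0 : ℝ) ≤ (q : ℝ) ^ k := by positivity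
  constructor
  · obtain ⟨f, g, hI, -, hg⟩ := exists_inv hv hq hy (psiP (-1)) k t
    have := Lam_psiP (k := 1) (θ := -1) le_rfl (by norm_num) hI.cg
      ((hI.gg _).trans (S_zz _ _ _).le)
    have h0 : psiP (-1) 0 = 1 := by simp [psiP]
    rw [hg, h0]
    nlinarith
  · obtain ⟨f, g, hI, -, hg⟩ := exists_inv hv hq hy (psiM 1) k t
    have := Lam_psiM (k := 1) (θ := 1) le_rfl (by norm_num) hI.cg
      ((hI.gg _).trans (S_zz _ _ _).le)
    have h0 : psiM 1 0 = 1 := by simp [psiM]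
    rw [hg, h0]
    nlinarith

end Pool.Agent.MP_23af5d_nt.DC
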