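import Pool.Agent.MP_23af5d_nt.CountMain

/-! A uniform gain over one half when every top block of digits is strictly heavier. -/

namespace Pool.Agent.MP_23af5d_nt.DC

open Finset

/-- after a further down step the walk goes on with a definite chance -/
def Cont (q : ℝ) (j : ℕ) (f : W) : Prop := ∀ a b, b < j → f (a, b) ≤ q ^ 2 * f (a, b + 1)

/-- at most `l` up steps are followed by another step -/
def Supp (l : ℕ) (f : W) : Prop := ∀ a b, l < a → f (a, b) = 0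

variable {f g : W} {q : ℝ} {c : Co} {j l : ℕ}

theorem dl_nonneg (p : ℕ × ℕ) : 0 ≤ dl p := by
  rw [dl, Finsupp.single_apply]
  split_ifs <;> norm_num

theorem dl_zs (a b : ℕ) : dl (a, b + 1) = 0 := by simp [dl]

theorem dl_sz (a b : ℕ) : dl (a + 1, b) = 0 := by simp [dl]

theorem Cont.up (h : Cont q j f) : Cont q j (f.mapDomain up) := by
  rintro (_ | a) b hb
  · simp [up_zero]
  · rw [up_succ, up_succ]
    exact h a b hb

theorem Cont.dn (h : Cont q j f) (hf : Cone f) : Cont q (j + 1) (f.mapDomain dn) := by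
  rintro a (_ | b) hb
  · rw [dn_zero, dn_succ]
    exact mul_nonneg (sq_nonneg _) (hf.nonneg _)
  · rw [dn_succ, dn_succ]
    exact h a b (by omega)

theorem Cont.key (h : Cont q j f) (hf : Cone f) (hq : 0 < q) (hz : 1 ≤ q * f (0, 0)) (a b : ℕ)
    (hb : b < j + 1) :
    q * dl (a, b) + f.mapDomain Pool.Agent.MP_23af5d_nt.dn (a, b) ≤
      q ^ 2 * f.mapDomain Pool.Agent.MP_23af5d_nt.dn (a, b + 1) := by
  have := h.dn hf a b hb
  rcases b with _ | b
  · rcases a with _ | a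
    · have e : dl (0, 0) = 1 := by simp [dl]
      rw [dn_zero, dn_succ, e]
      nlinarith
    · rwa [dl_sz, mul_zero, zero_add]
  · rwa [dl_zs, mul_zero, zero_add]

theorem cont_H (hf : Cone f) (hg : Cone g) (cf : Cont q j f) (cg : Cont q j g) (hq : 0 < q)
    (hz : 1 ≤ q * f (0, 0)) (hc : c.Ok q) (hm : c.P0 + c.P1 = 0 ∨ 1 ≤ c.N1) :
    Cont q j (H q c f g) := by
  intro a b hb
  have k1 := mul_le_mul_of_nonneg_left (cg a b hb) hc.l0
  have k2 := mul_le_mul_of_nonneg_left (cf a b hb) hc.l1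
  have k3 := mul_le_mul_of_nonneg_left (cg.up a b hb) hc.p0
  have k4 := mul_le_mul_of_nonneg_left (cf.up a b hb) hc.p1
  have k5 := mul_le_mul_of_nonneg_left (cg.dn hg a b (by omega)) hc.n0
  have k6 := mul_le_mul_of_nonneg_left (cf.key hf hq hz a b (by omega)) hc.n1
  have k7 : 2 * (c.P0 + c.P1) * dl (a, b) ≤ c.N1 * (q * dl (a, b)) := by
    rw [← mul_assoc]
    refine mul_le_mul_of_nonneg_right ?_ (dl_nonneg _)
    rcases hm with hm | hm
    · rw [hm, mul_zero]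
      exact mul_nonneg hc.n1 hq.le
    · nlinarith [hc.tot, hc.l0, hc.l1]
  apply le_of_mul_le_mul_left _ hq
  rw [mul_left_comm, H_apply hq.ne', H_apply hq.ne', Mv_apply, Mv_apply, dl_zs]
  linarith

theorem supp_H (sf : Supp l f) (sg : Supp l g) (hq : 0 < q) : Supp (l + 1) (H q c f g) := by
  rintro (_ | a) b ha
  · omega
  have e : ∀ x : W, Supp l x → x.mapDomain dn (a + 1, b) = 0 := fun x hx => by
    rcases b with _ | b
    · exact dn_zero _ _
    · rw [dn_succ]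
      exact hx _ _ (by omega)
  apply mul_left_cancel₀ hq.ne'
  rw [H_apply hq.ne', Mv_apply, dl_sz, up_succ, up_succ, e f sf, e g sg, sf _ _ (by omega),
    sg _ _ (by omega), sf _ _ (by omega), sg _ _ (by omega)]
  ring

theorem zz_H (hf : Cone f) (hg : Cone g) (hq : 0 < q) (hc : c.Ok q)
    (hm : (c.L1 = q ∧ 1 ≤ q * f (0, 0)) ∨ 1 ≤ c.N1) : 1 ≤ q * H q c f g (0, 0) := by
  have k1 := mul_nonneg hc.l0 (hg.nonneg (0, 0))
  have k2 := mul_nonneg hc.l1 (hf.nonneg (0, 0))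
  rw [H_apply hq.ne', Mv, S_zz]
  rcases hm with ⟨h1, h2⟩ | h
  · rw [h1]
    linarith [hc.p0, hc.p1]
  · linarith [hc.fair, hc.n0]

theorem gain {u v : ℕ → ℝ} {K : ℝ} (hK : 1 ≤ K) (h : ∀ a, u (a + 1) ≤ v a) (h0 : ∀ a, 0 ≤ u a)
    (h1 : u 0 ≤ 1) (h2 : ∀ a, a < l + 1 → u a ≤ K * v a) (h3 : u (l + 1) = 0) {M : ℕ}
    (hM : l + 1 ≤ M) :
    1 / K ^ (l + 1) / 2 - 1 / 2 ≤ ∑ a ∈ range M, (v a * (1 / 2) - u a * (1 / 2)) := by
  have e : ∀ M, ∑ a ∈ range M, (v a * (1 / 2) - u a * (1 / 2)) =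
      (u M - u 0 + ∑ a ∈ range M, (v a - u (a + 1))) / 2 := by
    intro M
    induction M with
    | zero => simp
    | succ n ih =>
      rw [sum_range_succ, sum_range_succ, ih]
      ring
  have k : ∀ n, n ≤ l + 1 → u 0 ≤ K ^ n * (u n + ∑ a ∈ range n, (v a - u (a + 1))) := by
    intro n
    induction n with
    | zero => simp
    | succ n ih =>
      intro hn
      have s0 : 0 ≤ ∑ a ∈ range n, (v a - u (a + 1)) := sum_nonneg fun a _ => sub_nonneg.2 (h a)
      refine (ih (by omega)).trans ?_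
      rw [pow_succ, mul_assoc, sum_range_succ]
      refine mul_le_mul_of_nonneg_left ?_ (by positivity)
      nlinarith [h2 n (by omega)]
  have k1 := k (l + 1) le_rfl
  have k2 : ∑ a ∈ range (l + 1), (v a - u (a + 1)) ≤ ∑ a ∈ range M, (v a - u (a + 1)) :=
    sum_le_sum_of_subset_of_nonneg (range_mono hM) fun a _ _ => sub_nonneg.2 (h a)
  have hp : 1 ≤ K ^ (l + 1) := one_le_pow₀ hK
  have k3 : 1 / K ^ (l + 1) ≤ 1 - u 0 + ∑ a ∈ range (l + 1), (v a - u (a + 1)) := by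
    rw [div_le_iff₀ (by linarith)]
    rw [h3, zero_add] at k1
    nlinarith
  rw [e]
  linarith [h0 M]

theorem Lam_gain (hq : 1 ≤ q) (hg : Cone g) (h1 : g (0, 0) ≤ 1) (cg : Cont q (l + 1) g)
    (sg : Supp l g) : 1 / (q ^ 2) ^ (l + 1) / 2 - 1 / 2 ≤ Lam 1 (psiP (-1)) 0 g := by
  obtain ⟨M, hM⟩ := Lam_rect 1 (psiP (-1)) g
  rw [hM (M + (l + 1)) (M + (l + 1) + 1) (by omega) (by omega)]
  refine (gain (u := fun a => g (a, a)) (v := fun a => g (a, a + 1)) (one_le_pow₀ hq)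
    (fun a => ?_) (fun a => hg.nonneg _) h1 (fun a ha => cg a a ha) (sg _ _ (by omega))
    (M := M + (l + 1)) (by omega)).trans (le_of_eq (sum_congr rfl fun a ha => ?_))
  · have := hg.ma a (a + 1)
    push_cast at this
    have hp : (0 : ℝ) < 2 * ((a : ℝ) + 1) := by positivity
    apply le_of_mul_le_mul_left _ hp
    linarith
  · have ha' := mem_range.1 ha
    simp only [Lap_psiP (k := 1) (θ := -1) le_rfl (by norm_num)]
    simp only [mul_sub, sum_sub_distrib, mul_ite, mul_zero, sum_ite_eq', mem_range]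
    rw [if_pos (by omega), if_pos (by omega)]

variable {w : ℕ → ℝ}

theorem P_zero (hw : ∀ b, w b = 0 ∨ w b = 1) (j : ℕ) : P w 0 j = 0 :=
  sum_eq_zero fun b _ => by rcases hw b with h | h <;> simp [h]

theorem N_zero (hw : ∀ b, w b = 0 ∨ w b = 1) (j : ℕ) : N w 0 j = 0 :=
  sum_eq_zero fun b _ => by rcases hw b with h | h <;> simp [h]

/-- every top block of digits is strictly heavier than the bottom block of the same size -/
def Str (w : ℕ → ℝ) (q : ℕ) : Prop :=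
  ∀ i j, 0 < i → 0 < j → i + j = q → C w i + C w j + 1 ≤ C w q

theorem Str.n1 {q : ℕ} (hs : Str w q) (hw : ∀ b, w b = 0 ∨ w b = 1) {i j : ℕ} (hi : 0 < i)
    (hj : 0 < j) (e : i + j = q) : 1 ≤ (co w i j).N1 := by
  have h1 := hs i j hi hj e
  have h2 := P_sub w j i
  rw [add_comm j i, e] at h2
  simp only [co]
  linarith [N_nonneg hw j i]

theorem Str.mv {q : ℕ} (hs : Str w q) (hw : ∀ b, w b = 0 ∨ w b = 1) {i j : ℕ} (e : i + j = q) :
    (co w i j).P0 + (co w i j).P1 = 0 ∨ 1 ≤ (co w i j).N1 := by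
  rcases Nat.eq_zero_or_pos i with rfl | hi
  · left
    simp [co, P_zero hw, N]
  rcases Nat.eq_zero_or_pos j with rfl | hj
  · left
    simp [co, N_zero hw, P]
  exact Or.inr (hs.n1 hw hi hj e)

theorem top {v : ℕ → ℤ} (hv : ∀ b, v b = 0 ∨ v b = 1) {m : ℕ} (hm : 0 < m)
    (hy : Hyp False (fun b => v b) (m + 1)) (hs : Str (fun b => v b) (m + 1)) (ψ : ℤ → ℝ) (j : ℕ) :
    ∃ f : W, Inv False f 0 ∧ Cont ((m + 1 : ℕ) : ℝ) (j - 1) f ∧ Supp 0 f ∧
      (0 < j → 1 ≤ ((m + 1 : ℕ) : ℝ) * f (0, 0)) ∧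
        ∀ x, E v (m + 1) j 1 ψ x = ((m + 1 : ℕ) : ℝ) ^ j * (ψ x + Lam 1 ψ x f) := by
  have hw := cast01 hv
  have hq : (0 : ℝ) < ((m + 1 : ℕ) : ℝ) := by positivity
  obtain ⟨h0, h1⟩ : (v 0 : ℝ) = 0 ∧ (v m : ℝ) = 1 := by
    rcases hy with h | h
    · exact h.1.elim
    · exact ⟨h.2.1, h.2.2.1⟩
  induction j with
  | zero =>
    exact ⟨0, Inv.zero _, fun a b hb => by omega, fun a b _ => rfl, fun h => by omega,
      fun x => by simp [E, Wt]⟩
  | succ j ih =>
    obtain ⟨f, hI, cf, sf, hz, hf⟩ := ih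
    have e : 1 + m = m + 1 := add_comm _ _
    have hc : (co (fun b => (v b : ℝ)) 1 m).Ok ((m + 1 : ℕ) : ℝ) := e ▸ co_ok hw 1 m
    have hI' := hI.step hw (r := 0) (j := m) (by rwa [zero_add])
    have g0 : H ((0 + m + 1 : ℕ) : ℝ) (co (fun b => (v b : ℝ)) 0 (m + 1)) f 0 = 0 := by
      ext p
      apply mul_left_cancel₀ (show ((0 + m + 1 : ℕ) : ℝ) ≠ 0 by positivity)
      rw [H_apply (by positivity), Mv_apply]
      simp only [co, P_zero hw, N_zero hw]
      simp [P, N]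
    rw [g0, zero_add, zero_add] at hI'
    have ev : ∀ p, ((m + 1 : ℕ) : ℝ) * H ((m + 1 : ℕ) : ℝ) (co (fun b => (v b : ℝ)) 1 m) f 0 p =
        2 * P (fun b => (v b : ℝ)) 1 m * dl p + f.mapDomain dn p := by
      intro p
      rw [H_apply hq.ne', Mv_apply]
      have a1 : P (fun b => (v b : ℝ)) m 1 = 1 := by simp [P, h0, h1]
      have a2 : N (fun b => (v b : ℝ)) m 1 = 0 := by simp [N, h0]
      simp [co, a1, a2]
    refine ⟨_, hI', fun a b hb => ?_, fun a b ha => ?_,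
      fun _ => zz_H hI.cf Cone.zero hq hc (Or.inr (hs.n1 hw one_pos hm e)), fun x => ?_⟩
    · have k := cf.key hI.cf hq (hz (by omega)) a b (by omega)
      have k2 : 2 * P (fun b => (v b : ℝ)) 1 m ≤ ((m + 1 : ℕ) : ℝ) := by
        have := hc.fit.p0
        have := hc.l1
        simp only [co] at *
        linarith
      have k3 := mul_le_mul_of_nonneg_right k2 (dl_nonneg (a, b))
      apply le_of_mul_le_mul_left _ hq
      rw [mul_left_comm, ev, ev, dl_zs]
      linarith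
    · obtain ⟨a, rfl⟩ : ∃ a', a = a' + 1 := ⟨a - 1, by omega⟩
      apply mul_left_cancel₀ hq.ne'
      rw [ev, dl_sz]
      rcases b with _ | b
      · simp [dn_zero]
      · simp [dn_succ, sf _ _ ha]
    · have := E_H hv (i := 1) (j := m) (k := j) (u := 0) (ψ := ψ) (f := f) (g := 0) (by omega)
        (by rw [e]; exact hf) (fun x => by simp [E]) x
      rwa [e] at this

theorem exists_ext {v : ℕ → ℤ} (hv : ∀ b, v b = 0 ∨ v b = 1) {q : ℕ} (hq : 1 < q)
    (hy : Hyp False (fun b => v b) q) (hs : Str (fun b => v b) q) (ψ : ℤ → ℝ) (j l : ℕ) :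
    ∀ t, t < q ^ l → ∃ f g : W, Inv False f g ∧ Cont q j f ∧ Cont q j g ∧ Supp l f ∧ Supp l g ∧
      1 ≤ (q : ℝ) * f (0, 0) ∧
      (∀ x, E v q (j + 1 + l) (t + 1) ψ x = (q : ℝ) ^ (j + 1 + l) * (ψ x + Lam 1 ψ x f)) ∧
        ∀ x, E v q (j + 1 + l) t ψ x = (q : ℝ) ^ (j + 1 + l) * (ψ x + Lam 1 ψ x g) := by
  have hw := cast01 hv
  induction l with
  | zero =>
    intro t ht
    obtain rfl : t = 0 := by simpa using ht
    obtain ⟨m, rfl⟩ : ∃ m, q = m + 1 := ⟨q - 1, by omega⟩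
    obtain ⟨f, hI, cf, sf, hz, hf⟩ := top hv (by omega) hy hs ψ (j + 1)
    exact ⟨f, 0, hI, cf, fun a b _ => by simp, sf, fun a b _ => rfl, hz (by omega), hf,
      fun x => by simp [E]⟩
  | succ l ih =>
    intro t ht
    have hq' : (0 : ℝ) < q := by positivity
    obtain ⟨u, r, i, rfl, rfl⟩ : ∃ u r i, q = r + i + 1 ∧ t = q * u + r :=
      ⟨t / q, t % q, q - 1 - t % q, by have := Nat.mod_lt t (show 0 < q by omega); omega,
        (Nat.div_add_mod _ _).symm⟩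
    have hu : u < (r + i + 1) ^ l := by
      rw [pow_succ'] at ht
      exact Nat.lt_of_mul_lt_mul_left (lt_of_le_of_lt (Nat.le_add_right _ _) ht)
    obtain ⟨f, g, hI, cf, cg, sf, sg, hz, hf, hg⟩ := ih u hu
    have e : r + i + 1 = r + 1 + i := by ring
    have hc : (co (fun b => (v b : ℝ)) r (i + 1)).Ok ((r + i + 1 : ℕ) : ℝ) := co_ok hw r (i + 1)
    have hc' : (co (fun b => (v b : ℝ)) (r + 1) i).Ok ((r + i + 1 : ℕ) : ℝ) := e ▸ co_ok hw (r + 1) i
    refine ⟨_, _, hI.step hw hy, cont_H hI.cf hI.cg cf cg hq' hz hc' (hs.mv hw e.symm),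
      cont_H hI.cf hI.cg cf cg hq' hz hc (hs.mv hw rfl), supp_H sf sg hq', supp_H sf sg hq',
      zz_H hI.cf hI.cg hq' hc' ?_, fun x => ?_, fun x => ?_⟩
    · rcases Nat.eq_zero_or_pos i with rfl | hi
      · exact Or.inl ⟨by simp [co, P_zero hw, N_zero hw], hz⟩
      · exact Or.inr (hs.n1 hw (by omega) hi e.symm)
    · rw [add_assoc _ r 1, ← add_assoc (j + 1)]
      rw [e] at hf hg ⊢
      exact E_H hv (by omega) hf hg x
    · exact E_H (i := r) (j := i + 1) hv (by omega) hf hg x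

theorem more {v : ℕ → ℤ} (hv : ∀ b, v b = 0 ∨ v b = 1) {q : ℕ} (hq : 1 < q)
    (hy : Hyp False (fun b => v b) q) (hs : Str (fun b => v b) q) {t l : ℕ} (ht : t < q ^ l)
    (k : ℕ) (hk : 2 * l + 2 ≤ k) :
    (1 / 2 + 1 / (2 * (q : ℝ) ^ (2 * l + 2))) * (q : ℝ) ^ k ≤ E v q k t (psiP (-1)) 0 := by
  have hq' : (1 : ℝ) ≤ q := by exact_mod_cast hq.le
  obtain ⟨j, rfl⟩ : ∃ j, k = j + 1 + l := ⟨k - 1 - l, by omega⟩
  obtain ⟨f, g, hI, -, cg, -, sg, -, -, hg⟩ := exists_ext hv hq hy hs (psiP (-1)) j l t ht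
  have := Lam_gain hq' hI.cg ((hI.gg _).trans (S_zz _ _ _).le)
    (fun a b hb => cg a b (by omega)) sg
  have h0 : psiP (-1) 0 = 1 := by simp [psiP]
  rw [← pow_mul, mul_add 2 l 1, mul_one, div_div, mul_comm _ (2 : ℝ)] at this
  rw [hg, h0, mul_comm]
  exact mul_le_mul_of_nonneg_left (by linarith) (by positivity)

theorem Wt_flip (v : ℕ → ℤ) (q k : ℕ) : ∀ n, Wt (fun b => 1 - v b) q k n = k - Wt v q k n := by
  induction k with
  | zero => intro n; simp [Wt]
  | succ k ih =>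
    intro n
    rw [Wt, Wt, ih]
    push_cast
    ring

theorem E_flip (v : ℕ → ℤ) (q k t : ℕ) :
    E (fun b => 1 - v b) q k t (psiP (-1)) 0 = E v q k t (psiM 1) 0 ∧
      E (fun b => 1 - v b) q k t (psiM 1) 0 = E v q k t (psiP (-1)) 0 := by
  constructor <;> refine sum_congr rfl fun n _ => ?_ <;> rw [Wt_flip, Wt_flip] <;>
    exact if_congr (by omega) rfl rfl

theorem C_flip (v : ℕ → ℤ) (j : ℕ) :
    C (fun b => ((1 - v b : ℤ) : ℝ)) j = j - C (fun b => v b) j := by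
  simp [C]

theorem flip01 {v : ℕ → ℤ} (hv : ∀ b, v b = 0 ∨ v b = 1) (b : ℕ) : 1 - v b = 0 ∨ 1 - v b = 1 := by
  rcases hv b with h | h <;> simp [h]

theorem hyp_top {w : ℕ → ℝ} (hw : ∀ b, w b = 0 ∨ w b = 1) {q : ℕ} (hq : 0 < q)
    (h0 : w 0 ≠ w (q - 1)) (h : ∀ i j, i + j = q → C w i + C w j ≤ C w q) : Hyp False w q := by
  obtain ⟨m, rfl⟩ : ∃ m, q = m + 1 := ⟨q - 1, by omega⟩
  have h1 := h m 1 rfl
  rw [C_succ w m, C_succ w 0] at h1
  have e : C w 0 = 0 := by simp [C]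
  rw [Nat.add_sub_cancel] at h0
  refine Or.inr ⟨rfl, ?_, ?_, h⟩
  · rcases hw 0 with a | a
    · exact a
    · rcases hw m with b | b
      · linarith
      · exact absurd (a.trans b.symm) h0
  · rcases hw m with b | b
    · rcases hw 0 with a | a
      · exact absurd (a.trans b.symm) h0
      · linarith
    · exact b

theorem half_top {v : ℕ → ℤ} (hv : ∀ b, v b = 0 ∨ v b = 1) {q : ℕ} (hq : 0 < q)
    (h : v 0 = v (q - 1) ∨ ∀ i j, i + j = q →
      C (fun b => v b) i + C (fun b => v b) j ≤ C (fun b => v b) q) (k t : ℕ) :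
    (q : ℝ) ^ k / 2 ≤ E v q k t (psiP (-1)) 0 ∧ (q : ℝ) ^ k / 2 ≤ E v q k t (psiM 1) 0 := by
  by_cases h0 : v 0 = v (q - 1)
  · exact half (two := True) hv hq (Or.inl ⟨trivial, by simp only [h0]⟩) k t
  · exact half hv hq (hyp_top (cast01 hv) hq (by exact_mod_cast h0) (h.resolve_left h0)) k t

theorem half_all {v : ℕ → ℤ} (hv : ∀ b, v b = 0 ∨ v b = 1) {q : ℕ} (hq : 0 < q)
    (h : v 0 = v (q - 1) ∨
      (∀ i j, i + j = q → C (fun b => v b) i + C (fun b => v b) j ≤ C (fun b => v b) q) ∨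
        ∀ i j, i + j = q → C (fun b => v b) q ≤ C (fun b => v b) i + C (fun b => v b) j)
    (k t : ℕ) :
    (q : ℝ) ^ k / 2 ≤ E v q k t (psiP (-1)) 0 ∧ (q : ℝ) ^ k / 2 ≤ E v q k t (psiM 1) 0 := by
  rcases h with h | h | h
  · exact half_top hv hq (Or.inl h) k t
  · exact half_top hv hq (Or.inr h) k t
  · have := half_top (flip01 hv) hq (Or.inr fun i j e => by
      have e' : (i : ℝ) + j = q := by exact_mod_cast e
      rw [C_flip, C_flip, C_flip]
      linarith [h i j e]) k t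
    rw [(E_flip v q k t).1, (E_flip v q k t).2] at this
    exact this.symm

theorem Str.hyp {w : ℕ → ℝ} {q : ℕ} (hs : Str w q) (hw : ∀ b, w b = 0 ∨ w b = 1) (hq : 1 < q) :
    Hyp False w q := by
  have e : C w 0 = 0 := by simp [C]
  refine hyp_top hw (by omega) ?_ fun i j h => ?_
  · obtain ⟨m, rfl⟩ : ∃ m, q = m + 1 := ⟨q - 1, by omega⟩
    have h1 := hs m 1 (by omega) one_pos rfl
    rw [C_succ w m, C_succ w 0] at h1
    rw [Nat.add_sub_cancel]
    intro h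
    linarith
  · rcases Nat.eq_zero_or_pos i with rfl | hi
    · rw [← h, zero_add, e, zero_add]
    rcases Nat.eq_zero_or_pos j with rfl | hj
    · rw [← h, add_zero, e, add_zero]
    linarith [hs i j hi hj h]

end Pool.Agent.MP_23af5d_nt.DC
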