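import Pool.Agent.MP_23af5d_nt.Main

/-! The measures defined by the digit recursion are the deconvolved digit-sum densities. -/

namespace Pool.Agent.MP_23af5d_nt

open Filter Topology

/-- Cesàro mean -/
def Avg (f : ℕ → ℝ) (δ : ℝ) : Prop :=
  Tendsto (fun N : ℕ => (∑ n ∈ Finset.range N, f n) / N) atTop (𝓝 δ)

theorem sum_blocks (f : ℕ → ℝ) (q M : ℕ) :
    ∑ n ∈ Finset.range (q * M), f n =
      ∑ a ∈ Finset.range q, ∑ m ∈ Finset.range M, f (q * m + a) := by
  induction M with
  | zero => simp
  | succ M ih =>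
    rw [mul_add_one, Finset.sum_range_add, ih, ← Finset.sum_add_distrib]
    exact Finset.sum_congr rfl fun a _ => (Finset.sum_range_succ _ _).symm

theorem Avg.split {f : ℕ → ℝ} {q : ℕ} (hq : 0 < q) (hf : ∀ n, |f n| ≤ 1) {δ : ℕ → ℝ}
    (h : ∀ a ∈ Finset.range q, Avg (fun m => f (q * m + a)) (δ a)) :
    Avg f ((∑ a ∈ Finset.range q, δ a) / q) := by
  have hq' : (q : ℝ) ≠ 0 := by positivity
  have hM : Tendsto (fun N : ℕ => N / q) atTop atTop := Nat.tendsto_div_const_atTop hq.ne'
  have hr : Tendsto (fun N : ℕ => ((N % q : ℕ) : ℝ) / N) atTop (𝓝 0) :=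
    tendsto_mod_div_atTop_nhds_zero_nat hq
  have h1 : Tendsto (fun N : ℕ => ∑ a ∈ Finset.range q,
      (∑ m ∈ Finset.range (N / q), f (q * m + a)) / (N / q : ℕ)) atTop
      (𝓝 (∑ a ∈ Finset.range q, δ a)) :=
    tendsto_finsetSum _ fun a ha => (h a ha).comp hM
  have h2 : Tendsto (fun N : ℕ => (1 - ((N % q : ℕ) : ℝ) / N) / q) atTop (𝓝 ((1 - 0) / q)) :=
    (tendsto_const_nhds.sub hr).div_const _
  have h3 : Tendsto (fun N : ℕ =>
      (∑ a ∈ Finset.range (N % q), f (q * (N / q) + a)) / N) atTop (𝓝 0) := by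
    refine squeeze_zero_norm (fun N => ?_) hr
    rw [norm_div, Real.norm_natCast]
    refine div_le_div_of_nonneg_right ?_ (Nat.cast_nonneg _)
    refine (norm_sum_le _ _).trans ((Finset.sum_le_sum fun a _ => hf _).trans ?_)
    simp
  have h4 := (h1.mul h2).add h3
  rw [show (∑ a ∈ Finset.range q, δ a) * ((1 - 0) / q) + 0 =
    (∑ a ∈ Finset.range q, δ a) / q by ring] at h4
  refine h4.congr' ?_
  filter_upwards [eventually_ge_atTop q] with N hN
  have hN0 : (N : ℝ) ≠ 0 := by
    have : 0 < N := by omega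
    positivity
  have hM0 : ((N / q : ℕ) : ℝ) ≠ 0 := by
    have : 0 < N / q := Nat.div_pos hN hq
    positivity
  have e : (N : ℝ) = q * (N / q : ℕ) + (N % q : ℕ) := by exact_mod_cast (Nat.div_add_mod N q).symm
  have e2 : ∑ n ∈ Finset.range N, f n =
      ∑ a ∈ Finset.range q, ∑ m ∈ Finset.range (N / q), f (q * m + a) +
        ∑ a ∈ Finset.range (N % q), f (q * (N / q) + a) := by
    rw [← sum_blocks, ← Finset.sum_range_add, Nat.div_add_mod]
  have e3 : (1 - ((N % q : ℕ) : ℝ) / N) / q = (N / q : ℕ) / N := by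
    field_simp
    linarith
  rw [e2, e3, ← Finset.sum_div]
  field_simp

/-- digit sum -/
def ds (q n : ℕ) : ℤ := ((Nat.digits q n).sum : ℕ)

theorem ds_step {q : ℕ} (hq : 1 < q) (m : ℕ) {b : ℕ} (hb : b < q) :
    ds q (q * m + b) = b + ds q m := by
  by_cases h : b ≠ 0 ∨ m ≠ 0
  · rw [ds, add_comm, Nat.digits_add q hq b m hb h]
    simp [ds]
  · push Not at h
    simp [ds, h.1, h.2]

/-- indicator of `s (n + t) - s n = d` -/
noncomputable def ind (q t : ℕ) (d : ℤ) (n : ℕ) : ℝ := if ds q (n + t) - ds q n = d then 1 else 0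

theorem ind_abs (q t : ℕ) (d : ℤ) (n : ℕ) : |ind q t d n| ≤ 1 := by
  unfold ind
  split_ifs <;> simp

theorem avg_step {q : ℕ} (hq : 1 < q) (u : ℕ) {r : ℕ} (hr : r < q) {d : ℤ} {A B : ℝ}
    (hA : Avg (ind q u (d - r)) A) (hB : 0 < r → Avg (ind q (u + 1) (d - r + q)) B) :
    Avg (ind q (q * u + r) d) (((q : ℝ) - r) / q * A + r / q * B) := by
  have h := Avg.split (f := ind q (q * u + r) d) (q := q) (by omega) (ind_abs _ _ _)
    (δ := fun a => if a < q - r then A else B) (by
      intro a ha
      have ha' := Finset.mem_range.1 ha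
      split_ifs with hc
      · have : (fun m => ind q (q * u + r) d (q * m + a)) = ind q u (d - r) := by
          funext m
          unfold ind
          rw [show q * m + a + (q * u + r) = q * (m + u) + (a + r) by ring,
            ds_step hq _ (by omega), ds_step hq _ ha']
          refine if_congr ?_ rfl rfl
          push_cast
          omega
        rw [this]
        exact hA
      · have : (fun m => ind q (q * u + r) d (q * m + a)) = ind q (u + 1) (d - r + q) := by
          funext m
          unfold ind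
          have e : q * m + a + (q * u + r) = q * (m + (u + 1)) + (a + r - q) := by
            have : q * (m + (u + 1)) = q * m + q * u + q := by ring
            omega
          rw [e, ds_step hq _ (by omega), ds_step hq _ ha']
          refine if_congr ?_ rfl rfl
          omega
        rw [this]
        exact hB (by omega))
  have e : ∑ a ∈ Finset.range q, (if a < q - r then A else B) = ((q : ℝ) - r) * A + r * B := by
    have e1 : Finset.range q = Finset.range (q - r + r) := by rw [Nat.sub_add_cancel hr.le]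
    rw [e1, Finset.sum_range_add, Finset.sum_congr rfl (g := fun _ => A),
      Finset.sum_congr rfl (f := fun x => if q - r + x < q - r then A else B) (g := fun _ => B)]
    · simp [Nat.cast_sub hr.le]
    · intro x _
      rw [if_neg (by omega)]
    · intro x hx
      rw [if_pos (Finset.mem_range.1 hx)]
  rw [e] at h
  rwa [show ((q : ℝ) - r) / q * A + r / q * B = (((q : ℝ) - r) * A + r * B) / q by ring]

theorem avg_const (c : ℝ) : Avg (fun _ => c) c := by
  refine tendsto_const_nhds.congr' ?_
  filter_upwards [eventually_gt_atTop 0] with N hN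
  have : (N : ℝ) ≠ 0 := by positivity
  simp [this]

theorem avg_zero (q : ℕ) (d : ℤ) : Avg (ind q 0 d) (if d = 0 then 1 else 0) := by
  have : ind q 0 d = fun _ => if d = 0 then 1 else 0 := by
    funext n
    simp [ind, eq_comm]
  rw [this]
  exact avg_const _

theorem ds_succ_le {q : ℕ} (hq : 1 < q) (n : ℕ) : ds q (n + 1) ≤ ds q n + 1 := by
  induction n using Nat.strong_induction_on with
  | _ n ih =>
    obtain ⟨m, a, ha, rfl⟩ : ∃ m a, a < q ∧ n = q * m + a :=
      ⟨n / q, n % q, Nat.mod_lt _ (by omega), (Nat.div_add_mod _ _).symm⟩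
    by_cases hc : a + 1 < q
    · rw [add_assoc, ds_step hq _ hc, ds_step hq _ ha]
      push_cast
      omega
    · have e : q * m + a + 1 = q * (m + 1) + 0 := by
        have : q * (m + 1) = q * m + q := by ring
        omega
      have hm : m ≤ q * m := Nat.le_mul_of_pos_left _ (by omega)
      have := ih m (by omega)
      rw [e, ds_step hq _ (by omega), ds_step hq _ ha]
      omega

theorem avg_one {q : ℕ} (hq : 1 < q) (d : ℤ) : ∃ δ, Avg (ind q 1 d) δ := by
  have key : ∀ (m : ℕ) (d : ℤ), 2 - m ≤ d → ∃ δ, Avg (ind q 1 d) δ := by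
    intro m
    induction m with
    | zero =>
      intro d hd
      have : ind q 1 d = fun _ => 0 := by
        funext n
        have := ds_succ_le hq n
        rw [ind, if_neg (by omega)]
      exact ⟨0, this ▸ avg_const 0⟩
    | succ m ih =>
      intro d hd
      obtain ⟨δ, hδ⟩ := ih (d - (1 : ℕ) + q) (by omega)
      have := avg_step hq 0 hq (avg_zero q (d - (1 : ℕ))) fun _ => hδ
      exact ⟨_, by simpa using this⟩
  exact key (2 - d).toNat d (by omega)

theorem hasSum_comb {ν ν₀ ν₁ μ : ℤ → ℝ} {d r q : ℤ} {α β S₀ S₁ : ℝ}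
    (hν : ∀ x, ν x = α * ν₀ (x - r) + β * ν₁ (x - r + q))
    (h₀ : HasSum (fun e => ν₀ e * μ (d - r - e)) S₀)
    (h₁ : HasSum (fun e => ν₁ e * μ (d - r + q - e)) S₁) :
    HasSum (fun e => ν e * μ (d - e)) (α * S₀ + β * S₁) := by
  have a₀ : HasSum (fun x => ν₀ (x - r) * μ (d - x)) S₀ := by
    rw [← (Equiv.addRight r).hasSum_iff]
    refine h₀.congr_fun ?_
    intro x
    simp only [Function.comp, Equiv.coe_addRight, add_sub_cancel_right]
    congr 2
    ring
  have a₁ : HasSum (fun x => ν₁ (x - r + q) * μ (d - x)) S₁ := by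
    rw [← (Equiv.addRight (r - q)).hasSum_iff]
    refine h₁.congr_fun ?_
    intro x
    simp only [Function.comp, Equiv.coe_addRight]
    congr 2 <;> ring
  refine ((a₀.mul_left α).add (a₁.mul_left β)).congr_fun ?_
  intro x
  rw [hν]
  ring

theorem Rec.link {k : ℕ} {P : ℕ → ℤ → ℝ} (h : Rec k P) (hk : 1 ≤ k) {μ : ℤ → ℝ}
    (hμ : ∀ d, Avg (ind (k + 1) 1 d) (μ d)) (t : ℕ) (ht : 1 ≤ t) (d : ℤ) :
    ∃ S, HasSum (fun e => P t e * μ (d - e)) S ∧ Avg (ind (k + 1) t d) S := by
  have hq : 1 < k + 1 := by omega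
  have hk' : (k : ℝ) ≠ 0 := by positivity
  have hq' : (k : ℝ) + 1 ≠ 0 := by positivity
  induction t using Nat.strong_induction_on generalizing d with
  | _ t ih =>
    by_cases htk : t ≤ k
    · have e1 := avg_step hq 0 (show t < k + 1 by omega) (avg_zero _ (d - t)) fun _ => hμ _
      have e2 := avg_step hq 0 hq (avg_zero _ (d - t + 1 - (1 : ℕ))) fun _ => hμ _
      simp only [mul_zero, zero_add] at e1 e2
      have e3 := tendsto_nhds_unique (hμ (d - t + 1)) e2
      refine ⟨((k : ℝ) + 1 - t) / k * μ (d - t + 1) + ((t : ℝ) - 1) / k * μ (d - t + (k + 1)),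
        ?_, ?_⟩
      · refine ((hasSum_ite_eq ((t : ℤ) - 1) (((k : ℝ) + 1 - t) / k * μ (d - t + 1))).add
          (hasSum_ite_eq ((t : ℤ) - (k + 1))
            (((t : ℝ) - 1) / k * μ (d - t + (k + 1))))).congr_fun ?_
        intro x
        rw [h.base t ht htk, add_mul]
        congr 1
        · split_ifs with hx
          · rw [hx, show d - ((t : ℤ) - 1) = d - t + 1 by ring]
          · simp
        · split_ifs with hx
          · rw [hx, show d - ((t : ℤ) - (k + 1)) = d - t + (k + 1) by ring]
          · simp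
      · push_cast at e1 e3
        simp only [add_sub_cancel_right] at e3
        have e4 : ((k : ℝ) + 1 - t) / k * μ (d - t + 1) +
            ((t : ℝ) - 1) / k * μ (d - t + (k + 1)) =
            (((k : ℝ) + 1 - t) / (k + 1) * if d - t = 0 then 1 else 0) +
              t / (k + 1) * μ (d - t + (k + 1)) := by
          rw [e3]
          field_simp
          ring
        rw [e4]
        exact e1
    · obtain ⟨u, r, hr, rfl⟩ : ∃ u r, r ≤ k ∧ t = (k + 1) * u + r :=
        ⟨t / (k + 1), t % (k + 1), Nat.lt_succ_iff.1 (Nat.mod_lt _ (by omega)),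
          (Nat.div_add_mod _ _).symm⟩
      have hu : 1 ≤ u := by
        rcases Nat.eq_zero_or_pos u with rfl | hu
        · omega
        · exact hu
      have hku : u ≤ k * u := Nat.le_mul_of_pos_left _ hk
      have hmul : (k + 1) * u = k * u + u := by ring
      obtain ⟨S₀, a₀, b₀⟩ := ih u (by omega) hu (d - r)
      rcases Nat.eq_zero_or_pos r with rfl | hr0
      · have := avg_step hq u (show 0 < k + 1 by omega) (B := 0) b₀ (by omega)
        refine ⟨S₀, ?_, by simpa [hq'] using this⟩
        simpa [h.mul hu] using a₀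
      · obtain ⟨S₁, a₁, b₁⟩ := ih (u + 1) (by omega) (by omega) (d - r + (k + 1))
        refine ⟨_, hasSum_comb (h.step u r hu hr) a₀ a₁, ?_⟩
        have := avg_step hq u (show r < k + 1 by omega) b₀ fun _ => by push_cast; exact b₁
        push_cast at this
        exact this

/-- the solution of the digit recursion -/
noncomputable def sol (k : ℕ) (t : ℕ) (x : ℤ) : ℝ :=
  if _h : k = 0 ∨ t ≤ k then
    (if x = t - 1 then ((k : ℝ) + 1 - t) / k else 0) +
      if x = t - (k + 1) then ((t : ℝ) - 1) / k else 0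
  else if _h' : t % (k + 1) = 0 then sol k (t / (k + 1)) x
  else ((k : ℝ) + 1 - (t % (k + 1) : ℕ)) / (k + 1) * sol k (t / (k + 1)) (x - (t % (k + 1) : ℕ)) +
    (t % (k + 1) : ℕ) / (k + 1) * sol k (t / (k + 1) + 1) (x - (t % (k + 1) : ℕ) + (k + 1))
termination_by t
decreasing_by
  · exact Nat.div_lt_self (by omega) (by omega)
  · exact Nat.div_lt_self (by omega) (by omega)
  · have h1 := Nat.div_add_mod t (k + 1)
    have h2 : 0 < t / (k + 1) := Nat.div_pos (by omega) (by omega)
    have h3 : t / (k + 1) ≤ k * (t / (k + 1)) := Nat.le_mul_of_pos_left _ (by omega)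
    have h4 : (k + 1) * (t / (k + 1)) = k * (t / (k + 1)) + t / (k + 1) := by ring
    omega

theorem sol_rec {k : ℕ} (hk : 1 ≤ k) : Rec k (sol k) := by
  refine ⟨fun r _ hr x => ?_, fun t r ht hr x => ?_⟩
  · rw [sol, dif_pos (Or.inr hr)]
  · have h1 : ((k + 1) * t + r) % (k + 1) = r := by
      rw [Nat.mul_add_mod, Nat.mod_eq_of_lt (by omega)]
    have h2 : ((k + 1) * t + r) / (k + 1) = t := by
      rw [Nat.mul_add_div (by omega), Nat.div_eq_of_lt (by omega), add_zero]
    have h3 : k + 1 ≤ (k + 1) * t := Nat.le_mul_of_pos_right _ ht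
    have hq : (k : ℝ) + 1 ≠ 0 := by positivity
    rw [sol, dif_neg (by omega), h1, h2]
    split_ifs with h
    · subst h
      simp [hq]
    · rfl

end Pool.Agent.MP_23af5d_nt
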