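import Pool.Agent.MP_23af5d_nt.Cone

/-! The rounded martingale: Dynkin functional, the digit recursion and the median bound. -/

namespace Pool.Agent.MP_23af5d_nt

/-- discrete Laplacian with step `k` -/
noncomputable def Lap (k : ℤ) (ψ : ℤ → ℝ) (x : ℤ) : ℝ := ψ (x + k) / 2 + ψ (x - k) / 2 - ψ x

/-- the Dynkin functional started at `x` -/
noncomputable def Lam (k : ℤ) (ψ : ℤ → ℝ) (x : ℤ) : W →ₗ[ℝ] ℝ :=
  Finsupp.linearCombination ℝ fun p : ℕ × ℕ => Lap k ψ (x + k * p.1 - k * p.2)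

theorem Lam_up (k : ℤ) (ψ : ℤ → ℝ) (x : ℤ) (g : W) :
    Lam k ψ x (g.mapDomain up) = Lam k ψ (x + k) g := by
  unfold Lam
  rw [Finsupp.linearCombination_mapDomain]
  congr 2
  funext p
  simp only [Function.comp, up]
  congr 1
  push_cast
  ring

theorem Lam_dn (k : ℤ) (ψ : ℤ → ℝ) (x : ℤ) (g : W) :
    Lam k ψ x (g.mapDomain dn) = Lam k ψ (x - k) g := by
  unfold Lam
  rw [Finsupp.linearCombination_mapDomain]
  congr 2
  funext p
  simp only [Function.comp, dn]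
  congr 1
  push_cast
  ring

theorem Lam_T (k : ℤ) (ψ : ℤ → ℝ) (x : ℤ) (f g : W) :
    Lam k ψ x (T f g) = Lap k ψ x + Lam k ψ (x + k) g / 2 + Lam k ψ (x - k) f / 2 := by
  have h : Lam k ψ x (Finsupp.single (0, 0) 1) = Lap k ψ x := by
    simp [Lam]
  simp only [T, map_add, map_smul, Lam_up, Lam_dn, h, smul_eq_mul]
  ring

theorem Lam_mid (k : ℤ) (ψ : ℤ → ℝ) (x : ℤ) {q : ℝ} (hq : q ≠ 0) (c α β : ℝ) (f g U V : W) :
    q * Lam k ψ x (mid q c α β (T f g) U V) =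
      c * (Lap k ψ x + Lam k ψ (x + k) g / 2 + Lam k ψ (x - k) f / 2) + α * Lam k ψ x U +
        β * Lam k ψ x V := by
  simp only [mid, map_add, map_smul, Lam_T, smul_eq_mul]
  field_simp

/-- `k` times the mean of `ψ` when the rounded value is `x` with weight `α` and survival function
`A`, and `x - k` with weight `β` and survival function `B`. -/
noncomputable def R (k : ℤ) (ψ : ℤ → ℝ) (x : ℤ) (α β : ℝ) (A B : W) : ℝ :=
  α * ψ x + β * ψ (x - k) + Lam k ψ x A + Lam k ψ (x - k) B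

theorem keyA (k : ℤ) (ψ : ℤ → ℝ) (m : ℤ) {j s r q : ℝ} (hq : q = j + s + 2) (hq0 : q ≠ 0)
    (f g U V : W) :
    (q - r) * R k ψ (m + k) (s + 1) j ((s + 1) • g) V + r * R k ψ m s (j + 1) U ((j + 1) • f) =
      q * R k ψ (m + k) (s + 1 - r) (j + r) ((s + 1 - r) • g)
        (mid q (2 * r * (j + 1)) r (q - r) (T f g) U V) := by
  have h := Lam_mid k ψ m hq0 (2 * r * (j + 1)) r (q - r) f g U V
  simp only [R, add_sub_cancel_right, map_smul, smul_eq_mul]
  simp only [Lap] at h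
  subst hq
  linear_combination (-1 : ℝ) * h

theorem keyB (k : ℤ) (ψ : ℤ → ℝ) (m : ℤ) {j s r q : ℝ} (hq : q = j + s + 2) (hq0 : q ≠ 0)
    (f g U V : W) :
    (q - r) * R k ψ (m + k) (s + 1) j ((s + 1) • g) V + r * R k ψ m s (j + 1) U ((j + 1) • f) =
      q * R k ψ m (s + q - r) (j + 1 - (q - r))
        (mid q (2 * (q - r) * (s + 1)) r (q - r) (T f g) U V) ((j + 1 - (q - r)) • f) := by
  have h := Lam_mid k ψ m hq0 (2 * (q - r) * (s + 1)) r (q - r) f g U V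
  simp only [R, add_sub_cancel_right, map_smul, smul_eq_mul]
  simp only [Lap] at h
  subst hq
  linear_combination (-1 : ℝ) * h

/-- `k` times the mean of `ψ (x + z)` under `ν` is at least `c` -/
def Dom (k : ℤ) (ψ ν : ℤ → ℝ) (z : ℤ) (c : ℝ) : Prop :=
  ∃ S, HasSum (fun x => ν x * ψ (x + z)) S ∧ c ≤ k * S

theorem Dom.comb {k : ℤ} {ψ ν ν₀ ν₁ : ℤ → ℝ} {z r : ℤ} {c c₀ c₁ : ℝ} (hk : 0 < k) (hr : 0 ≤ r)
    (hr' : r ≤ k + 1)
    (hν : ∀ x, ν x = ((k : ℝ) + 1 - r) / (k + 1) * ν₀ (x - r) + r / (k + 1) * ν₁ (x - r + (k + 1)))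
    (h₀ : Dom k ψ ν₀ (z + r) c₀) (h₁ : Dom k ψ ν₁ (z + r - (k + 1)) c₁)
    (hc : ((k : ℝ) + 1 - r) * c₀ + r * c₁ = (k + 1) * c) : Dom k ψ ν z c := by
  obtain ⟨S₀, hS₀, e₀⟩ := h₀
  obtain ⟨S₁, hS₁, e₁⟩ := h₁
  have hk' : (0 : ℝ) < k := by exact_mod_cast hk
  have hr0 : (0 : ℝ) ≤ r := by exact_mod_cast hr
  have hr1 : (r : ℝ) ≤ k + 1 := by exact_mod_cast hr'
  have a₀ : HasSum (fun x => ν₀ (x - r) * ψ (x + z)) S₀ := by
    rw [← (Equiv.addRight r).hasSum_iff]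
    refine hS₀.congr_fun ?_
    intro x
    simp only [Function.comp, Equiv.coe_addRight, add_sub_cancel_right]
    congr 2
    ring
  have a₁ : HasSum (fun x => ν₁ (x - r + (k + 1)) * ψ (x + z)) S₁ := by
    rw [← (Equiv.addRight (r - (k + 1))).hasSum_iff]
    refine hS₁.congr_fun ?_
    intro x
    simp only [Function.comp, Equiv.coe_addRight]
    congr 2 <;> ring
  refine ⟨((k : ℝ) + 1 - r) / (k + 1) * S₀ + r / (k + 1) * S₁, ?_, ?_⟩
  · refine ((a₀.mul_left (((k : ℝ) + 1 - r) / (k + 1))).add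
      (a₁.mul_left ((r : ℝ) / (k + 1)))).congr_fun ?_
    intro x
    rw [hν]
    ring
  · have hq : (0 : ℝ) < k + 1 := by linarith
    apply le_of_mul_le_mul_left _ hq
    have e : ((k : ℝ) + 1) * (k * (((k : ℝ) + 1 - r) / (k + 1) * S₀ + r / (k + 1) * S₁)) =
        (k + 1 - r) * (k * S₀) + r * (k * S₁) := by
      field_simp
    rw [e, ← hc]
    exact add_le_add (mul_le_mul_of_nonneg_left e₀ (by linarith))
      (mul_le_mul_of_nonneg_left e₁ hr0)

/-- the state reached for the pair `(ν₀, ν₁)` of laws (no carry, carry) -/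
def Good (k : ℤ) (ψ ν₀ ν₁ : ℤ → ℝ) (σ j : ℤ) : Prop :=
  ∃ f g U V : W, Inv (j : ℝ) ((k : ℝ) - 1 - j) f g U V ∧ ∀ y : ℤ,
    Dom k ψ ν₀ (σ + y) (R k ψ (j + y) ((k : ℝ) - 1 - j + 1) j (((k : ℝ) - 1 - j + 1) • g) V) ∧
    Dom k ψ ν₁ (σ + y)
      (R k ψ (j + 1 + y) ((k : ℝ) - 1 - j) ((j : ℝ) + 1) U (((j : ℝ) + 1) • f))

theorem Good.step {k σ j d : ℤ} {ψ ν₀ ν₁ ξ₀ ξ₁ : ℤ → ℝ} (h : Good k ψ ν₀ ν₁ σ j) (hj : 0 ≤ j)
    (hjk : j < k) (hd : 0 ≤ d) (hdk : d ≤ k)
    (h₀ : ∀ x, ξ₀ x = ((k : ℝ) + 1 - d) / (k + 1) * ν₀ (x - d) +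
      d / (k + 1) * ν₁ (x - d + (k + 1)))
    (h₁ : ∀ x, ξ₁ x = ((k : ℝ) + 1 - (d + 1 : ℤ)) / (k + 1) * ν₀ (x - (d + 1)) +
      (d + 1 : ℤ) / (k + 1) * ν₁ (x - (d + 1) + (k + 1))) :
    Good k ψ ξ₀ ξ₁ σ (if j + d < k then j + d else j + d - k) := by
  obtain ⟨f, g, U, V, hI, hD⟩ := h
  have hk : 0 < k := by omega
  have hq : (k : ℝ) + 1 = j + (k - 1 - j) + 2 := by ring
  have hq0 : (k : ℝ) + 1 ≠ 0 := by positivity
  have hj' : (0 : ℝ) ≤ j := by exact_mod_cast hj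
  have hd' : (0 : ℝ) ≤ d := by exact_mod_cast hd
  have hdk' : (d : ℝ) ≤ k := by exact_mod_cast hdk
  have hs' : (0 : ℝ) ≤ k - 1 - j := by
    have : (j : ℝ) + 1 ≤ k := by exact_mod_cast hjk
    linarith
  have comb : ∀ (r y : ℤ) (ξ : ℤ → ℝ) (c : ℝ), 0 ≤ r → r ≤ k + 1 →
      (∀ x, ξ x = ((k : ℝ) + 1 - r) / (k + 1) * ν₀ (x - r) +
        r / (k + 1) * ν₁ (x - r + (k + 1))) →
      ((k : ℝ) + 1 - r) * R k ψ (j + r + y - k + k) ((k : ℝ) - 1 - j + 1) j
          (((k : ℝ) - 1 - j + 1) • g) V +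
        r * R k ψ (j + r + y - k) ((k : ℝ) - 1 - j) ((j : ℝ) + 1) U (((j : ℝ) + 1) • f) =
        (k + 1) * c → Dom k ψ ξ (σ + y) c := by
    intro r y ξ c hr hr' hξ hc
    have e₀ := (hD (y + r)).1
    have e₁ := (hD (y + r - (k + 1))).2
    rw [show σ + (y + r) = σ + y + r by ring, show j + (y + r) = j + r + y - k + k by ring] at e₀
    rw [show σ + (y + r - (k + 1)) = σ + y + r - (k + 1) by ring,
      show j + 1 + (y + r - (k + 1)) = j + r + y - k by ring] at e₁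
    exact Dom.comb hk hr hr' hξ e₀ e₁ hc
  split_ifs with hc
  · have hc' : (d : ℝ) ≤ k - 1 - j := by
      have : (j : ℝ) + d + 1 ≤ k := by exact_mod_cast hc
      linarith
    have hp : (j : ℝ) + d + 1 ≠ 0 := by positivity
    have hS := hI.stepA hq hj' hd' hc'
    rw [show (k : ℝ) - 1 - j - d = k - 1 - (j + d) by ring] at hS
    refine ⟨_, _, _, _, by push_cast; exact hS, fun y => ⟨?_, ?_⟩⟩
    · refine comb d y _ _ hd (by omega) h₀ ?_
      rw [keyA k ψ _ hq hq0, show j + d + y - k + k = j + d + y by ring]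
      push_cast
      rw [show (k : ℝ) - 1 - j + 1 - d = k - 1 - (j + d) + 1 by ring]
    · refine comb (d + 1) y _ _ (by omega) (by omega) h₁ ?_
      rw [keyA k ψ _ hq hq0, show j + (d + 1) + y - k + k = j + d + 1 + y by ring]
      push_cast
      rw [smul_inv_smul₀ hp, show (k : ℝ) - 1 - j + 1 - (d + 1) = k - 1 - (j + d) by ring,
        add_assoc (j : ℝ)]
  · have hc' : (k : ℝ) - d ≤ j := by
      have : (k : ℝ) ≤ j + d := by exact_mod_cast not_lt.1 hc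
      linarith
    have hp : (k : ℝ) - 1 - j + (k - d) + 1 ≠ 0 := by
      have : (0 : ℝ) < k - 1 - j + (k - d) + 1 := by linarith
      exact this.ne'
    have hS := hI.stepB hq hs' (by linarith : (0 : ℝ) ≤ k - d) hc'
    refine ⟨_, _, _, _, by
      push_cast
      rw [show (j : ℝ) + d - k = j - (k - d) by ring,
        show (k : ℝ) - 1 - (j - (k - d)) = k - 1 - j + (k - d) by ring]
      exact hS, fun y => ⟨?_, ?_⟩⟩
    · refine comb d y _ _ hd (by omega) h₀ ?_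
      rw [keyB k ψ _ hq hq0, show j + d + y - k = j + d - k + y by ring]
      push_cast
      rw [show (k : ℝ) - 1 - (j + d - k) + 1 = k - 1 - j + (k - d) + 1 by ring,
        smul_inv_smul₀ hp, show (k : ℝ) - 1 - j + (k + 1) - d = k - 1 - j + (k - d) + 1 by ring,
        show (k : ℝ) + 1 - (k - d + 1) = d by ring, show (k : ℝ) + 1 - d = k - d + 1 by ring,
        show (j : ℝ) + 1 - (k - d + 1) = j - (k - d) by ring,
        show (j : ℝ) + d - k = j - (k - d) by ring]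
    · refine comb (d + 1) y _ _ (by omega) (by omega) h₁ ?_
      rw [keyB k ψ _ hq hq0, show j + (d + 1) + y - k = j + d - k + 1 + y by ring]
      push_cast
      rw [show (k : ℝ) - 1 - j + (k + 1) - (d + 1) = k - 1 - (j + d - k) by ring,
        show (k : ℝ) + 1 - (k - d) = d + 1 by ring, show (k : ℝ) + 1 - (d + 1) = k - d by ring,
        show (j : ℝ) + 1 - (k - d) = j + d - k + 1 by ring]

theorem Dom.two {k r z : ℤ} {ψ ν : ℤ → ℝ} {c : ℝ} (hk : 0 < k)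
    (hν : ∀ x, ν x = (if x = r - 1 then ((k : ℝ) + 1 - r) / k else 0) +
      if x = r - (k + 1) then ((r : ℝ) - 1) / k else 0)
    (hc : c ≤ ((k : ℝ) + 1 - r) * ψ (r - 1 + z) + ((r : ℝ) - 1) * ψ (r - 1 + z - k)) :
    Dom k ψ ν z c := by
  have hk' : (k : ℝ) ≠ 0 := by positivity
  refine ⟨((k : ℝ) + 1 - r) / k * ψ (r - 1 + z) + ((r : ℝ) - 1) / k * ψ (r - 1 + z - k), ?_, ?_⟩
  · refine ((hasSum_ite_eq (r - 1) (((k : ℝ) + 1 - r) / k * ψ (r - 1 + z))).add
      (hasSum_ite_eq (r - (k + 1)) (((r : ℝ) - 1) / k * ψ (r - 1 + z - k)))).congr_fun ?_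
    intro x
    rw [hν, add_mul]
    congr 1
    · split_ifs with h
      · rw [h]
      · simp
    · split_ifs with h
      · rw [h, show r - (k + 1) + z = r - 1 + z - k by ring]
      · simp
  · refine hc.trans (le_of_eq ?_)
    field_simp

theorem R_zero (k : ℤ) (ψ : ℤ → ℝ) (x : ℤ) (α β : ℝ) :
    R k ψ x α β 0 0 = α * ψ x + β * ψ (x - k) := by
  simp [R]

/-- comparison of two-point laws on one lattice -/
theorem two_point {k σ n i z : ℤ} {ψ : ℤ → ℝ} (hn : 0 ≤ n) (hnk : n ≤ k) (hi : 0 ≤ i)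
    (hik : i ≤ k)
    (h : (Monotone ψ ∧ 0 ≤ σ ∧ (i = n + σ ∨ i = n + σ - k)) ∨
      (Antitone ψ ∧ σ ≤ 0 ∧ (i = n + σ ∨ i = n + σ + k))) :
    ((k : ℝ) - i) * ψ (i + z) + (i : ℝ) * ψ (i + z - k) ≤
      ((k : ℝ) - n) * ψ (n + (σ + z)) + (n : ℝ) * ψ (n + (σ + z) - k) := by
  have hn' : (0 : ℝ) ≤ n := by exact_mod_cast hn
  have hnk' : (0 : ℝ) ≤ k - n := by
    have : (n : ℝ) ≤ k := by exact_mod_cast hnk
    linarith
  have hi' : (0 : ℝ) ≤ i := by exact_mod_cast hi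
  have hik' : (0 : ℝ) ≤ k - i := by
    have : (i : ℝ) ≤ k := by exact_mod_cast hik
    linarith
  rcases h with ⟨hψ, hσ, h | h⟩ | ⟨hψ, hσ, h | h⟩
  · have hσ' : (0 : ℝ) ≤ σ := by exact_mod_cast hσ
    have h1 := mul_le_mul_of_nonneg_left (hψ (show i + z - k ≤ i + z by omega)) hσ'
    rw [show n + (σ + z) = i + z by omega, show (n : ℝ) = i - σ by rw [h]; push_cast; ring]
    linarith
  · have h1 := mul_le_mul_of_nonneg_left (hψ (show i + z - k ≤ i + z by omega)) hi'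
    have h2 := mul_le_mul_of_nonneg_left (hψ (show i + z ≤ n + (σ + z) by omega)) hnk'
    rw [show n + (σ + z) - k = i + z by omega]
    linarith
  · have hσ' : (0 : ℝ) ≤ -σ := by
      have : (σ : ℝ) ≤ 0 := by exact_mod_cast hσ
      linarith
    have h1 := mul_le_mul_of_nonneg_left (hψ (show i + z - k ≤ i + z by omega)) hσ'
    rw [show n + (σ + z) = i + z by omega, show (n : ℝ) = i - σ by rw [h]; push_cast; ring]
    linarith
  · have h1 := mul_le_mul_of_nonneg_left (hψ (show i + z - k ≤ i + z by omega)) hik'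
    have h2 := mul_le_mul_of_nonneg_left (hψ (show n + (σ + z) - k ≤ i + z - k by omega)) hn'
    rw [show n + (σ + z) = i + z - k by omega] at h2 ⊢
    linarith

theorem Good.base {k σ r j : ℤ} {ψ ν₀ ν₁ : ℤ → ℝ} (hr : 1 ≤ r) (hrk : r ≤ k) (hj : 0 ≤ j)
    (hjk : j < k)
    (h : (Monotone ψ ∧ 0 ≤ σ ∧ (j = r - 1 + σ ∨ j = r - 1 + σ - k)) ∨
      (Antitone ψ ∧ σ ≤ 0 ∧ (j = r - 1 + σ ∨ j = r - 1 + σ + k)))
    (h₀ : ∀ x, ν₀ x = (if x = r - 1 then ((k : ℝ) + 1 - r) / k else 0) +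
      if x = r - (k + 1) then ((r : ℝ) - 1) / k else 0)
    (h₁ : ∀ x, ν₁ x = (if x = r + 1 - 1 then ((k : ℝ) + 1 - (r + 1 : ℤ)) / k else 0) +
      if x = r + 1 - (k + 1) then (((r + 1 : ℤ) : ℝ) - 1) / k else 0) :
    Good k ψ ν₀ ν₁ σ j := by
  have hk : 0 < k := by omega
  have hs' : (0 : ℝ) ≤ k - 1 - j := by
    have : (j : ℝ) + 1 ≤ k := by exact_mod_cast hjk
    linarith
  refine ⟨0, 0, 0, 0, Inv.zero (by exact_mod_cast hj) hs', fun y => ⟨?_, ?_⟩⟩
  · refine Dom.two hk h₀ ?_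
    have := two_point (k := k) (σ := σ) (n := r - 1) (i := j) (z := y) (ψ := ψ) (by omega)
      (by omega) hj hjk.le h
    rw [smul_zero, R_zero]
    push_cast at this
    linarith
  · refine Dom.two hk h₁ ?_
    have := two_point (k := k) (σ := σ) (n := r + 1 - 1) (i := j + 1) (z := y) (ψ := ψ) (by omega)
      (by omega) (by omega) (by omega) (by
        rcases h with ⟨h1, h2, h3⟩ | ⟨h1, h2, h3⟩
        · exact Or.inl ⟨h1, h2, by omega⟩
        · exact Or.inr ⟨h1, h2, by omega⟩)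
    rw [smul_zero, R_zero]
    push_cast at this ⊢
    linarith

theorem Lam_rect (k : ℤ) (ψ : ℤ → ℝ) (g : W) :
    ∃ N : ℕ, ∀ A B : ℕ, N ≤ A → N ≤ B → Lam k ψ 0 g =
      ∑ a ∈ Finset.range A, ∑ b ∈ Finset.range B, g (a, b) * Lap k ψ (k * ((a : ℤ) - b)) := by
  refine ⟨g.support.sup (fun p => p.1 + p.2) + 1, fun A B hA hB => ?_⟩
  rw [Lam, Finsupp.linearCombination_apply,
    Finsupp.sum_of_support_subset g (s := Finset.range A ×ˢ Finset.range B), Finset.sum_product]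
  · refine Finset.sum_congr rfl fun a _ => Finset.sum_congr rfl fun b _ => ?_
    rw [smul_eq_mul]
    congr 2
    ring
  · intro p hp
    have := Finset.le_sup (f := fun p : ℕ × ℕ => p.1 + p.2) hp
    simp only [Finset.mem_product, Finset.mem_range]
    omega
  · intro p _
    simp

/-- indicator of the integers above `θ` -/
noncomputable def psiP (θ x : ℤ) : ℝ := if θ < x then 1 else 0

/-- indicator of the integers below `θ` -/
noncomputable def psiM (θ x : ℤ) : ℝ := if x < θ then 1 else 0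

theorem psiP_mono (θ : ℤ) : Monotone (psiP θ) := by
  intro x y h
  unfold psiP
  split_ifs <;> first | omega | norm_num

theorem psiM_anti (θ : ℤ) : Antitone (psiM θ) := by
  intro x y h
  unfold psiM
  split_ifs <;> first | omega | norm_num

theorem Lap_psiP {k θ : ℤ} (h1 : -k ≤ θ) (h2 : θ < 0) (a b : ℕ) :
    Lap k (psiP θ) (k * ((a : ℤ) - b)) =
      (if b = a + 1 then 1 / 2 else 0) - if b = a then 1 / 2 else 0 := by
  have h : ∀ m : ℤ, psiP θ (k * m) = if 0 ≤ m then 1 else 0 := fun m => by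
    have : θ < k * m ↔ 0 ≤ m := by
      refine ⟨fun h => ?_, fun h => by nlinarith⟩
      by_contra hm
      have : m ≤ -1 := by omega
      nlinarith
    simp only [psiP, this]
  rw [Lap, show k * ((a : ℤ) - b) + k = k * (a - b + 1) by ring,
    show k * ((a : ℤ) - b) - k = k * (a - b - 1) by ring, h, h, h]
  split_ifs <;> first | omega | norm_num

theorem Lap_psiM {k θ : ℤ} (h1 : θ ≤ k) (h2 : 0 < θ) (a b : ℕ) :
    Lap k (psiM θ) (k * ((a : ℤ) - b)) =
      (if a = b + 1 then 1 / 2 else 0) - if a = b then 1 / 2 else 0 := by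
  have h : ∀ m : ℤ, psiM θ (k * m) = if m ≤ 0 then 1 else 0 := fun m => by
    have : k * m < θ ↔ m ≤ 0 := by
      refine ⟨fun h => ?_, fun h => by nlinarith⟩
      by_contra hm
      have : 1 ≤ m := by omega
      nlinarith
    simp only [psiM, this]
  rw [Lap, show k * ((a : ℤ) - b) + k = k * (a - b + 1) by ring,
    show k * ((a : ℤ) - b) - k = k * (a - b - 1) by ring, h, h, h]
  split_ifs <;> first | omega | norm_num

theorem tele {u v : ℕ → ℝ} (h : ∀ a, u (a + 1) ≤ v a) (h0 : ∀ a, 0 ≤ u a) (h1 : u 0 ≤ 1)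
    (N : ℕ) : -(1 / 2) ≤ ∑ a ∈ Finset.range N, (v a * (1 / 2) - u a * (1 / 2)) := by
  have : ∀ N, u N / 2 - u 0 / 2 ≤ ∑ a ∈ Finset.range N, (v a * (1 / 2) - u a * (1 / 2)) := by
    intro N
    induction N with
    | zero => simp
    | succ n ih =>
      rw [Finset.sum_range_succ]
      linarith [h n]
  linarith [this N, h0 N]

theorem Lam_psiP {k θ : ℤ} (hθ : -k ≤ θ) (hθ' : θ < 0) {g : W} (hg : Cone g)
    (h1 : g (0, 0) ≤ 1) : -(1 / 2) ≤ Lam k (psiP θ) 0 g := by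
  obtain ⟨N, hN⟩ := Lam_rect k (psiP θ) g
  rw [hN N (N + 1) le_rfl (by omega)]
  refine (tele (u := fun a => g (a, a)) (v := fun a => g (a, a + 1)) (fun a => ?_)
    (fun a => hg.nonneg _) h1 N).trans (le_of_eq (Finset.sum_congr rfl fun a ha => ?_))
  · have := hg.ma a (a + 1)
    push_cast at this
    have hp : (0 : ℝ) < 2 * ((a : ℝ) + 1) := by positivity
    apply le_of_mul_le_mul_left _ hp
    linarith
  · have ha' := Finset.mem_range.1 ha
    simp only [Lap_psiP hθ hθ']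
    simp only [mul_sub, Finset.sum_sub_distrib, mul_ite, mul_zero,
      Finset.sum_ite_eq', Finset.mem_range]
    rw [if_pos (by omega), if_pos (by omega)]

theorem Lam_psiM {k θ : ℤ} (hθ : θ ≤ k) (hθ' : 0 < θ) {g : W} (hg : Cone g)
    (h1 : g (0, 0) ≤ 1) : -(1 / 2) ≤ Lam k (psiM θ) 0 g := by
  obtain ⟨N, hN⟩ := Lam_rect k (psiM θ) g
  rw [hN (N + 1) N (by omega) le_rfl, Finset.sum_comm]
  refine (tele (u := fun a => g (a, a)) (v := fun a => g (a + 1, a)) (fun a => ?_)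
    (fun a => hg.nonneg _) h1 N).trans (le_of_eq (Finset.sum_congr rfl fun a ha => ?_))
  · have := hg.mb (a + 1) a
    push_cast at this
    have hp : (0 : ℝ) < 2 * ((a : ℝ) + 1) := by positivity
    apply le_of_mul_le_mul_left _ hp
    linarith
  · have ha' := Finset.mem_range.1 ha
    simp only [Lap_psiM hθ hθ']
    simp only [mul_sub, Finset.sum_sub_distrib, mul_ite, mul_zero,
      Finset.sum_ite_eq', Finset.mem_range]
    rw [if_pos (by omega), if_pos (by omega)]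

theorem Good.half {k σ : ℤ} {ψ ν₀ ν₁ : ℤ → ℝ} (hk : 0 < k) (h : Good k ψ ν₀ ν₁ σ 0)
    (h0 : ψ 0 = 1) (hψ : ∀ g : W, Cone g → g (0, 0) ≤ 1 → -(1 / 2) ≤ Lam k ψ 0 g) :
    ∃ S, HasSum (fun x => ν₀ x * ψ (x + σ)) S ∧ 1 / 2 ≤ S := by
  obtain ⟨f, g, U, V, hI, hD⟩ := h
  obtain ⟨S, hS, e⟩ := (hD 0).1
  have hk' : (0 : ℝ) < k := by exact_mod_cast hk
  have hV : V = 0 := by
    ext p
    have h1 := (hI.pt p).oV
    have h2 := hI.cV.nonneg p
    simp only [Int.cast_zero, zero_mul] at h1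
    exact le_antisymm h1 h2
  have hg := hψ g hI.cg ((hI.pt (0, 0)).dg.trans (T_zz f g).le)
  refine ⟨S, by simpa using hS, ?_⟩
  apply le_of_mul_le_mul_left _ hk'
  simp only [R, hV, add_zero, h0, map_smul, map_zero, smul_eq_mul, Int.cast_zero] at e
  have := mul_le_mul_of_nonneg_left hg hk'.le
  linarith

section Digits

variable {k : ℕ} {P : ℕ → ℤ → ℝ}

/-- the digit recursion in base `k + 1` -/
structure Rec (k : ℕ) (P : ℕ → ℤ → ℝ) : Prop where
  base : ∀ r : ℕ, 1 ≤ r → r ≤ k → ∀ x : ℤ,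
    P r x = (if x = r - 1 then ((k : ℝ) + 1 - r) / k else 0) +
      if x = r - (k + 1) then ((r : ℝ) - 1) / k else 0
  step : ∀ t r : ℕ, 1 ≤ t → r ≤ k → ∀ x : ℤ,
    P ((k + 1) * t + r) x = ((k : ℝ) + 1 - r) / (k + 1) * P t (x - r) +
      r / (k + 1) * P (t + 1) (x - r + (k + 1))

theorem Rec.mul (h : Rec k P) {t : ℕ} (ht : 1 ≤ t) (x : ℤ) : P ((k + 1) * t) x = P t x := by
  have := h.step t 0 ht (Nat.zero_le _) x
  have hq : (k : ℝ) + 1 ≠ 0 := by positivity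
  simpa [hq] using this

theorem Rec.base' (h : Rec k P) (hk : 1 ≤ k) (r : ℕ) (hr : 1 ≤ r) (hrk : r ≤ k + 1) (x : ℤ) :
    P r x = (if x = r - 1 then ((k : ℝ) + 1 - r) / k else 0) +
      if x = r - (k + 1) then ((r : ℝ) - 1) / k else 0 := by
  rcases hrk.lt_or_eq with hlt | rfl
  · exact h.base r hr (by omega) x
  · have h1 := h.mul le_rfl x
    rw [mul_one] at h1
    rw [h1, h.base 1 le_rfl hk x]
    have hk' : (k : ℝ) ≠ 0 := by positivity
    simp [hk']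

theorem Rec.step' (h : Rec k P) (t r : ℕ) (ht : 1 ≤ t) (hrk : r ≤ k + 1) (x : ℤ) :
    P ((k + 1) * t + r) x = ((k : ℝ) + 1 - r) / (k + 1) * P t (x - r) +
      r / (k + 1) * P (t + 1) (x - r + (k + 1)) := by
  rcases hrk.lt_or_eq with hlt | rfl
  · exact h.step t r ht (by omega) x
  · rw [← mul_add_one, h.mul (by omega)]
    have hq : (k : ℝ) + 1 ≠ 0 := by positivity
    simp [hq]

theorem Rec.good (h : Rec k P) (hk : 1 ≤ k) {ψ : ℤ → ℝ} {σ : ℤ}
    (hσ : (Monotone ψ ∧ 0 ≤ σ ∧ σ < k) ∨ (Antitone ψ ∧ σ ≤ 0 ∧ -σ < k)) (t : ℕ) (ht : 1 ≤ t) :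
    ∃ j : ℤ, 0 ≤ j ∧ j < k ∧ (k : ℤ) ∣ t - 1 + σ - j ∧ Good k ψ (P t) (P (t + 1)) σ j := by
  induction t using Nat.strong_induction_on with
  | _ t ih =>
    by_cases htk : t ≤ k
    · have h₀ := h.base' hk t ht (by omega)
      have h₁ := h.base' hk (t + 1) (by omega) (by omega)
      have key : ∀ j : ℤ, 0 ≤ j → j < k →
          ((Monotone ψ ∧ 0 ≤ σ ∧ (j = t - 1 + σ ∨ j = t - 1 + σ - k)) ∨
            (Antitone ψ ∧ σ ≤ 0 ∧ (j = t - 1 + σ ∨ j = t - 1 + σ + k))) →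
          Good k ψ (P t) (P (t + 1)) σ j := fun j hj hjk hh =>
        Good.base (r := t) (by omega) (by omega) hj hjk hh 
          (by have := h₀; push_cast at this ⊢; exact this)
          (by have := h₁; push_cast at this ⊢; exact this)
      rcases hσ with ⟨h1, h2, h3⟩ | ⟨h1, h2, h3⟩
      · by_cases hc : (t : ℤ) - 1 + σ < k
        · exact ⟨_, by omega, hc, by simp, key _ (by omega) hc (Or.inl ⟨h1, h2, Or.inl rfl⟩)⟩
        · exact ⟨t - 1 + σ - k, by omega, by omega, by simp,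
            key _ (by omega) (by omega) (Or.inl ⟨h1, h2, Or.inr rfl⟩)⟩
      · by_cases hc : 0 ≤ (t : ℤ) - 1 + σ
        · exact ⟨_, hc, by omega, by simp, key _ hc (by omega) (Or.inr ⟨h1, h2, Or.inl rfl⟩)⟩
        · exact ⟨t - 1 + σ + k, by omega, by omega, by simp,
            key _ (by omega) (by omega) (Or.inr ⟨h1, h2, Or.inr rfl⟩)⟩
    · obtain ⟨u, d, hd, rfl⟩ : ∃ u d, d ≤ k ∧ t = (k + 1) * u + d :=
        ⟨t / (k + 1), t % (k + 1), Nat.lt_succ_iff.1 (Nat.mod_lt _ (by omega)),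
          (Nat.div_add_mod _ _).symm⟩
      have hu : 1 ≤ u := by
        rcases Nat.eq_zero_or_pos u with rfl | hu
        · omega
        · exact hu
      have hlt : u < (k + 1) * u + d := by nlinarith
      obtain ⟨j, hj, hjk, hdvd, hG⟩ := ih u hlt hu
      have h₀ := h.step' u d hu (by omega)
      have h₁ := h.step' u (d + 1) hu (by omega)
      refine ⟨_, ?_, ?_, ?_, hG.step (d := d) hj hjk (by omega) (by omega)
        (by have := h₀; push_cast at this ⊢; exact this)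
        (by have := h₁; push_cast at this ⊢; exact this)⟩
      · split_ifs <;> omega
      · split_ifs <;> omega
      · obtain ⟨c, hc⟩ := hdvd
        split_ifs
        · exact ⟨c + u, by push_cast; linear_combination hc⟩
        · exact ⟨c + u + 1, by push_cast; linear_combination hc⟩

theorem Rec.upper (h : Rec k P) (hk : 1 ≤ k) (t : ℕ) (ht : 1 ≤ t) :
    ∃ S, HasSum (fun x : ℤ => if -(k : ℤ) < x then P t x else 0) S ∧ 1 / 2 ≤ S := by
  have hk' : (0 : ℤ) < k := by exact_mod_cast hk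
  obtain ⟨σ, hσ⟩ : ∃ σ : ℤ, σ = (1 - t) % k := ⟨_, rfl⟩
  have h1 : 0 ≤ σ := hσ ▸ Int.emod_nonneg _ hk'.ne'
  have h2 : σ < k := hσ ▸ Int.emod_lt_of_pos _ hk'
  obtain ⟨j, hj, hjk, hdvd, hG⟩ :=
    h.good hk (ψ := psiP (σ - k)) (σ := σ) (Or.inl ⟨psiP_mono _, h1, h2⟩) t ht
  have hj0 : j = 0 := by
    have h3 : (k : ℤ) ∣ t - 1 + σ := ⟨-((1 - t) / k), by rw [hσ, Int.emod_def]; ring⟩
    have h4 : (k : ℤ) ∣ j := by simpa using dvd_sub h3 hdvd
    exact Int.eq_zero_of_dvd_of_nonneg_of_lt hj hjk h4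
  subst hj0
  obtain ⟨S, hS, e⟩ := hG.half hk' (by simp only [psiP]; rw [if_pos (by omega)])
    fun g hg hg1 => Lam_psiP (by omega) (by omega) hg hg1
  refine ⟨S, hS.congr_fun fun x => ?_, e⟩
  simp only [psiP]
  split_ifs <;> first | omega | simp

theorem Rec.lower (h : Rec k P) (hk : 1 ≤ k) (t : ℕ) (ht : 1 ≤ t) :
    ∃ S, HasSum (fun x : ℤ => if x < (k : ℤ) then P t x else 0) S ∧ 1 / 2 ≤ S := by
  have hk' : (0 : ℤ) < k := by exact_mod_cast hk
  obtain ⟨σ, hσ⟩ : ∃ σ : ℤ, σ = -((t - 1) % k) := ⟨_, rfl⟩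
  have h1 : σ ≤ 0 := by
    have := Int.emod_nonneg ((t : ℤ) - 1) hk'.ne'
    omega
  have h2 : -σ < k := by
    have := Int.emod_lt_of_pos ((t : ℤ) - 1) hk'
    omega
  obtain ⟨j, hj, hjk, hdvd, hG⟩ :=
    h.good hk (ψ := psiM (σ + k)) (σ := σ) (Or.inr ⟨psiM_anti _, h1, h2⟩) t ht
  have hj0 : j = 0 := by
    have h3 : (k : ℤ) ∣ t - 1 + σ := ⟨(t - 1) / k, by rw [hσ, Int.emod_def]; ring⟩
    have h4 : (k : ℤ) ∣ j := by simpa using dvd_sub h3 hdvd
    exact Int.eq_zero_of_dvd_of_nonneg_of_lt hj hjk h4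
  subst hj0
  obtain ⟨S, hS, e⟩ := hG.half hk' (by simp only [psiM]; rw [if_pos (by omega)])
    fun g hg hg1 => Lam_psiM (by omega) (by omega) hg hg1
  refine ⟨S, hS.congr_fun fun x => ?_, e⟩
  simp only [psiM]
  split_ifs <;> first | omega | simp

end Digits

end Pool.Agent.MP_23af5d_nt
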