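import Pool.Agent.MP_23af5d_nt.TdHalf

/-! Base `q` digits as mixtures of letters, and the count of closed carry paths. -/

namespace Pool.Agent.MP_23af5d_nt.TD

open Finset Pool.Agent.MP_23af5d_nt.DC

/-- one row of a digit matrix: `i` is added in base `i + j` -/
noncomputable def row (w : ℕ → ℝ) (i j : ℕ) (y : Bool) : RR :=
  (((if y then j else i : ℕ) - P w i j) / (i + j : ℕ)) • (1 : RR) +
    (2 * P w i j / (i + j : ℕ)) • st y

/-- the matrix of the digit `r` in base `r + j + 1`; `true` means no carry -/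
noncomputable def Dm (w : ℕ → ℝ) (r j : ℕ) : Matrix Bool Bool RR :=
  fun x y => if x then row w r (j + 1) y else row w (r + 1) j y

variable {w : ℕ → ℝ}

theorem N_mono (hw : ∀ b, w b = 0 ∨ w b = 1) (hm : Monotone w) (i j : ℕ) : N w i j = 0 :=
  sum_eq_zero fun b _ => by
    have := hm (Nat.le_add_right b i)
    rcases hw b with h | h
    · simp [h]
    · rcases hw (b + i) with h' | h'
      · linarith
      · simp [h']

theorem P_comm (hw : ∀ b, w b = 0 ∨ w b = 1) (hm : Monotone w) (i j : ℕ) : P w j i = P w i j := by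
  have h1 := P_sub w i j
  have h2 := P_sub w j i
  rw [N_mono hw hm] at h1 h2
  rw [add_comm j i] at h2
  linarith

theorem mix_Dm (hw : ∀ b, w b = 0 ∨ w b = 1) (hm : Monotone w) {r j : ℕ} (h0 : w 0 = 0)
    (h1 : w (r + j) = 1) : Mix (Dm w r j) := by
  have hq : (0 : ℝ) < r + j + 1 := by positivity
  have e1 := P_sub w r (j + 1)
  have e2 := P_sub w (r + 1) j
  rw [show r + 1 + j = r + (j + 1) by ring, C_succ w r, N_mono hw hm] at e2
  rw [C_succ w j, N_mono hw hm] at e1
  have l1 := lazy_nonneg hw (r + 1) j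
  have l2 := lazy_nonneg hw (j + 1) r
  rw [N_mono hw hm] at l1 l2
  rw [P_comm hw hm] at l2
  have p1 := le_P hw r (Nat.succ_pos j)
  have p2 := le_P hw r (Nat.lt_succ_self j)
  rw [add_comm j r, h1] at p2
  simp only [zero_add, h0, Nat.succ_eq_add_one] at p1 p2
  have p3 := P_nonneg hw r (j + 1)
  have p4 := P_nonneg hw (r + 1) j
  refine ⟨fun l => (match l with
    | .inl false => 1 + P w (r + 1) j - P w r (j + 1)
    | .inl true => 1 - P w (r + 1) j + P w r (j + 1)
    | .inr (some true) => j - P w (r + 1) j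
    | .inr (some false) => r - P w r (j + 1)
    | .inr none => P w r (j + 1) + P w (r + 1) j - 1) / (r + j + 1), ?_, ?_, ?_⟩
  · rintro ((_ | _) | _ | _ | _) <;> refine div_nonneg ?_ hq.le <;> dsimp only <;>
      rcases hw r with a | a <;> rcases hw j with b | b <;> linarith
  · simp only [Fintype.sum_sum_type, Fintype.sum_option, Fintype.sum_bool]
    field_simp
    ring
  · refine Matrix.ext fun x y => ?_
    simp only [Fintype.sum_sum_type, Fintype.sum_option, Fintype.sum_bool, Matrix.add_apply,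
      Matrix.smul_apply]
    cases x <;> cases y <;>
      simp only [Q, Mx, Dm, row, if_true, if_false, Bool.false_eq_true, Bool.true_eq_false,
        smul_zero] <;>
      push_cast <;> match_scalars <;> ring

/-- the matrices of the last `k` digits of `t` -/
noncomputable def Ld (w : ℕ → ℝ) (q : ℕ) : ℕ → ℕ → List (Matrix Bool Bool RR)
  | 0, _ => []
  | k + 1, t => Dm w (t % q) (q - 1 - t % q) :: Ld w q k (t / q)

theorem mix_Ld (hw : ∀ b, w b = 0 ∨ w b = 1) (hm : Monotone w) {q : ℕ} (hq : 0 < q) (h0 : w 0 = 0)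
    (h1 : w (q - 1) = 1) (k : ℕ) : ∀ t, ∀ B ∈ Ld w q k t, Mix B := by
  induction k with
  | zero => intro t B hB; simp [Ld] at hB
  | succ k ih =>
    intro t B hB
    rcases List.mem_cons.1 hB with rfl | hB
    · refine mix_Dm hw hm h0 ?_
      rwa [show t % q + (q - 1 - t % q) = q - 1 by have := Nat.mod_lt t hq; omega]
    · exact ih _ B hB

/-- sum of `ψ` at the increment of the count, over the `n` with outgoing carry `e` -/
noncomputable def F (v : ℕ → ℤ) (q k t e : ℕ) (ψ : ℤ → ℝ) (x : ℤ) : ℝ :=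
  ∑ n ∈ range (q ^ k), if (n + t) / q ^ k = e then ψ (x + (Wt v q k (n + t) - Wt v q k n)) else 0

theorem div_step {q : ℕ} (k m : ℕ) {a : ℕ} (ha : a < q) : (q * m + a) / (q * q ^ k) = m / q ^ k := by
  rw [← Nat.div_div_eq_div_mul, Nat.mul_add_div (by omega), Nat.div_eq_of_lt ha, add_zero]

theorem F_step (v : ℕ → ℤ) (i j k u e : ℕ) (ψ : ℤ → ℝ) (x : ℤ) :
    F v (i + j) (k + 1) ((i + j) * u + i) e ψ x =
      ∑ b ∈ range j, F v (i + j) k u e ψ (x + (v (b + i) - v b)) +
        ∑ b ∈ range i, F v (i + j) k (u + 1) e ψ (x + (v b - v (b + j))) := by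
  rw [F, pow_succ', sum_blocks, add_comm i j, sum_range_add]
  congr 1
  · refine sum_congr rfl fun b hb => sum_congr rfl fun m _ => ?_
    have hb' := mem_range.1 hb
    rw [show (j + i) * m + b + ((j + i) * u + i) = (j + i) * (m + u) + (b + i) by ring,
      Wt_step v k _ (by omega), Wt_step v k _ (by omega), div_step k _ (by omega)]
    congr 2
    ring
  · refine sum_congr rfl fun b hb => sum_congr rfl fun m _ => ?_
    have hb' := mem_range.1 hb
    rw [show (j + i) * m + (j + b) + ((j + i) * u + i) = (j + i) * (m + (u + 1)) + b by ring,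
      Wt_step v k _ (by omega), Wt_step v k _ (by omega), div_step k _ (by omega), add_comm j b]
    congr 2
    ring

theorem F_row {v : ℕ → ℤ} (hv : ∀ b, v b = 0 ∨ v b = 1) (hm : Monotone fun b => (v b : ℝ))
    {i j k u e : ℕ} (hq : 0 < i + j) {ψ : ℤ → ℝ} {f g : RR}
    (hf : ∀ x, F v (i + j) k (u + 1) e ψ x = ((i + j : ℕ) : ℝ) ^ k * Ev ψ x f)
    (hg : ∀ x, F v (i + j) k u e ψ x = ((i + j : ℕ) : ℝ) ^ k * Ev ψ x g) (x : ℤ) :
    F v (i + j) (k + 1) ((i + j) * u + i) e ψ x = ((i + j : ℕ) : ℝ) ^ (k + 1) *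
      Ev ψ x (row (fun b => v b) i j true * g + row (fun b => v b) i j false * f) := by
  have hq' : ((i + j : ℕ) : ℝ) ≠ 0 := by positivity
  rw [F_step, sum_up hv (F v (i + j) k u e ψ), sum_dn hv (F v (i + j) k (u + 1) e ψ),
    N_mono (cast01 hv) hm, N_mono (cast01 hv) hm, P_comm (cast01 hv) hm i j]
  simp only [hf, hg, row, add_mul, smul_mul_assoc, one_mul, map_add, map_smul, Ev_u, Ev_d,
    smul_eq_mul, if_true, Bool.false_eq_true, if_false]
  field_simp
  ring

theorem F_eq {v : ℕ → ℤ} (hv : ∀ b, v b = 0 ∨ v b = 1) (hm : Monotone fun b => (v b : ℝ)) {q : ℕ}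
    (hq : 0 < q) (ψ : ℤ → ℝ) (y : Bool) (k : ℕ) : ∀ t, t < q ^ k →
      (∀ x, F v q k (t + 1) (if y then 0 else 1) ψ x =
        (q : ℝ) ^ k * Ev ψ x ((Ld (fun b => v b) q k t).prod false y)) ∧
      ∀ x, F v q k t (if y then 0 else 1) ψ x =
        (q : ℝ) ^ k * Ev ψ x ((Ld (fun b => v b) q k t).prod true y) := by
  induction k with
  | zero =>
    intro t ht
    obtain rfl : t = 0 := by simpa using ht
    cases y <;> simp [F, Ld, Wt, Ev_one]
  | succ k ih =>
    intro t ht
    obtain ⟨u, r, j, rfl, rfl⟩ : ∃ u r j, q = r + j + 1 ∧ t = q * u + r :=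
      ⟨t / q, t % q, q - 1 - t % q, by have := Nat.mod_lt t hq; omega, (Nat.div_add_mod _ _).symm⟩
    have hu : u < (r + j + 1) ^ k := by
      rw [pow_succ'] at ht
      exact Nat.lt_of_mul_lt_mul_left (lt_of_le_of_lt (Nat.le_add_right _ _) ht)
    obtain ⟨hf, hg⟩ := ih u hu
    rw [Ld, Nat.mul_add_mod, Nat.mod_eq_of_lt (show r < r + j + 1 by omega),
      Nat.mul_add_div hq, Nat.div_eq_of_lt (show r < r + j + 1 by omega), add_zero,
      show r + j + 1 - 1 - r = j by omega, List.prod_cons]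
    simp only [Matrix.mul_apply, Fintype.sum_bool, Dm, if_true, Bool.false_eq_true, if_false]
    refine ⟨fun x => ?_, F_row (i := r) (j := j + 1) hv hm (by omega) hf hg⟩
    have e : r + j + 1 = r + 1 + j := by ring
    rw [add_assoc _ r 1]
    rw [e] at hf hg ⊢
    exact F_row hv hm (by omega) hf hg x

theorem closed_half {v : ℕ → ℤ} (hv : ∀ b, v b = 0 ∨ v b = 1) (hm : Monotone fun b => (v b : ℝ))
    {q : ℕ} (hq : 0 < q) (h0 : v 0 = 0) (h1 : v (q - 1) = 1) {k t : ℕ} (ht : t < q ^ k) :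
    F v q k t 0 ng 0 + F v q k (t + 1) 1 ng 0 ≤ (q : ℝ) ^ k / 2 := by
  have a := (F_eq hv hm hq ng true k t ht).2 0
  have b := (F_eq hv hm hq ng false k t ht).1 0
  have c := mix_half _ (mix_Ld (cast01 hv) hm hq (by simp [h0]) (by simp [h1]) k t) []
  simp only [if_true, Bool.false_eq_true, if_false] at a b
  rw [List.map_nil, List.prod_nil, one_mul, trace_eq, map_add] at c
  have hp : (0 : ℝ) ≤ (q : ℝ) ^ k := by positivity
  rw [a, b, ← mul_add]
  nlinarith

theorem Wt_compl {a b : ℕ} (k : ℕ) : ∀ x y, x + y + 1 = (a + b) ^ k →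
    Wt (fun d => if a ≤ d then 1 else 0) (a + b) k x +
      Wt (fun d => if b ≤ d then 1 else 0) (a + b) k y = k := by
  induction k with
  | zero => intro x y _; simp [Wt]
  | succ k ih =>
    intro x y h
    have hq : 0 < a + b := by
      rcases Nat.eq_zero_or_pos (a + b) with h0 | h0
      · simp [h0] at h
      · exact h0
    obtain ⟨m, d, hd, rfl⟩ : ∃ m d, d < a + b ∧ x = (a + b) * m + d :=
      ⟨x / (a + b), x % (a + b), Nat.mod_lt _ hq, (Nat.div_add_mod _ _).symm⟩
    rw [pow_succ'] at h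
    obtain ⟨m', hm'⟩ : ∃ m', (a + b) ^ k = m + m' + 1 := by
      have : m < (a + b) ^ k := Nat.lt_of_mul_lt_mul_left (a := a + b) (by omega)
      exact ⟨(a + b) ^ k - 1 - m, by omega⟩
    obtain rfl : y = (a + b) * m' + (a + b - 1 - d) := by
      rw [hm', mul_add, mul_add] at h
      omega
    rw [Wt_step _ k _ hd, Wt_step _ k _ (by omega)]
    have := ih m m' hm'.symm
    push_cast
    split_ifs <;> omega

theorem count_Wt {a q : ℕ} (ha : 0 < a) (hq : 1 < q) (k : ℕ) : ∀ n, n < q ^ k →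
    (((Nat.digits q n).countP (a ≤ ·) : ℕ) : ℤ) = Wt (fun d => if a ≤ d then 1 else 0) q k n := by
  induction k with
  | zero =>
    intro n hn
    obtain rfl : n = 0 := by simpa using hn
    simp [Wt]
  | succ k ih =>
    intro n hn
    rw [Wt, ← ih (n / q) (by rwa [Nat.div_lt_iff_lt_mul (by omega), ← pow_succ])]
    rcases Nat.eq_zero_or_pos n with rfl | h
    · simp
      omega
    · rw [Nat.digits_def' hq h, List.countP_cons]
      split_ifs <;> simp_all [add_comm]

end Pool.Agent.MP_23af5d_nt.TD
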