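import Pool.Agent.MP_23af5d_nt.TdWord

/-! The closed carry paths with a negative increment have weight at most one half. -/

namespace Pool.Agent.MP_23af5d_nt.TD

open Finset Pool.Agent.MP_23af5d_nt.DC

/-- total weight of `ψ` at the end point, the start being `x` -/
noncomputable def Ev (ψ : ℤ → ℝ) (x : ℤ) : RR →ₗ[ℝ] ℝ :=
  (Finsupp.linearCombination ℝ fun p : ℕ × ℕ => ψ (x + p.1 - p.2)) ∘ₗ
    (AddMonoidAlgebra.coeffLinearEquiv ℝ).toLinearMap

theorem Ev_single (ψ : ℤ → ℝ) (x : ℤ) (p : ℕ × ℕ) (r : ℝ) :
    Ev ψ x (AddMonoidAlgebra.single p r) = r * ψ (x + p.1 - p.2) := by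
  simp [Ev]

theorem Ev_one (ψ : ℤ → ℝ) (x : ℤ) : Ev ψ x 1 = ψ x := by
  rw [AddMonoidAlgebra.one_def, Ev_single]
  simp

theorem Ev_u (ψ : ℤ → ℝ) (x : ℤ) (h : RR) : Ev ψ x (st true * h) = Ev ψ (x + 1) h / 2 := by
  induction h using AddMonoidAlgebra.induction_linear with
  | zero => simp
  | add a b ha hb => rw [mul_add, map_add, map_add, ha, hb, add_div]
  | single m r =>
    rw [st, AddMonoidAlgebra.single_mul_single, Ev_single, Ev_single]
    simp only [if_true, Prod.fst_add, Prod.snd_add, zero_add, Nat.cast_add, Nat.cast_one,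
      add_assoc]
    ring

theorem Ev_d (ψ : ℤ → ℝ) (x : ℤ) (h : RR) : Ev ψ x (st false * h) = Ev ψ (x - 1) h / 2 := by
  induction h using AddMonoidAlgebra.induction_linear with
  | zero => simp
  | add a b ha hb => rw [mul_add, map_add, map_add, ha, hb, add_div]
  | single m r =>
    rw [st, AddMonoidAlgebra.single_mul_single, Ev_single, Ev_single]
    simp only [Bool.false_eq_true, if_false, Prod.fst_add, Prod.snd_add, zero_add, Nat.cast_add,
      Nat.cast_one]
    rw [show x + (m.1 : ℤ) - (1 + m.2) = x - 1 + m.1 - m.2 by ring]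
    ring

theorem Ev_lam (ψ : ℤ → ℝ) (x : ℤ) (h : RR) : Ev ψ x (lam * h) = Lam 1 ψ x h.coeff := by
  rw [lam, sub_mul, add_mul, one_mul, map_sub, map_add, Ev_u, Ev_d]
  induction h using AddMonoidAlgebra.induction_linear with
  | zero => simp
  | add a b ha hb =>
    simp only [map_add, AddMonoidAlgebra.coeff_add]
    linarith
  | single m r =>
    simp only [Ev_single, Lam, AddMonoidAlgebra.coeff_single, Finsupp.linearCombination_single,
      Lap, one_mul, smul_eq_mul]
    rw [show x + 1 + (m.1 : ℤ) - m.2 = x + m.1 - m.2 + 1 by ring,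
      show x - 1 + (m.1 : ℤ) - m.2 = x + m.1 - m.2 - 1 by ring]
    ring

theorem Ev_prod (ψ : ℤ → ℝ) (V : List Bool) : ∀ x, Ev ψ x (V.map st).prod =
    (1 / 2) ^ V.length * ψ (x + V.count true - V.count false) := by
  induction V with
  | nil => intro x; simp [Ev_one]
  | cons z R ih =>
    intro x
    rw [List.map_cons, List.prod_cons, List.length_cons, pow_succ]
    cases z
    · rw [Ev_d, ih, List.count_cons_self, List.count_cons_of_ne (by simp)]
      push_cast
      rw [show x - 1 + (R.count true : ℤ) - R.count false =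
        x + R.count true - (R.count false + 1) by ring]
      ring
    · rw [Ev_u, ih, List.count_cons_self, List.count_cons_of_ne (by simp)]
      push_cast
      rw [show x + 1 + (R.count true : ℤ) - R.count false =
        x + (R.count true + 1) - R.count false by ring]
      ring

/-- indicator of the negative integers -/
noncomputable def ng (x : ℤ) : ℝ := 1 - psiP (-1) x

theorem ng_eq (x : ℤ) : ng x = if x < 0 then 1 else 0 := by
  unfold ng psiP
  split_ifs <;> first | omega | norm_num

theorem Lam_ng (g : W) : Lam 1 ng 0 g = -Lam 1 (psiP (-1)) 0 g := by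
  induction g using Finsupp.induction_linear with
  | zero => simp
  | add a b ha hb => rw [map_add, map_add, ha, hb, neg_add]
  | single m r =>
    simp only [Lam, Finsupp.linearCombination_single, Lap, ng, smul_eq_mul]
    ring

theorem Lam_one_gain {g : W} (hg : Cone g) (h1 : g (0, 0) ≤ 1) (a : ℕ) :
    (g (a, a + 1) - g (a + 1, a + 1)) / 2 - 1 / 2 ≤ Lam 1 (psiP (-1)) 0 g := by
  obtain ⟨M, hM⟩ := Lam_rect 1 (psiP (-1)) g
  have h : ∀ a : ℕ, 0 ≤ g (a, a + 1) - g (a + 1, a + 1) := fun a => by
    have := hg.ma a (a + 1)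
    push_cast at this
    have hp : (0 : ℝ) < 2 * ((a : ℝ) + 1) := by positivity
    apply le_of_mul_le_mul_left _ hp
    linarith
  have e : ∀ M, ∑ a ∈ range M, (g (a, a + 1) * (1 / 2) - g (a, a) * (1 / 2)) =
      (g (M, M) - g (0, 0) + ∑ a ∈ range M, (g (a, a + 1) - g (a + 1, a + 1))) / 2 := by
    intro M
    induction M with
    | zero => simp
    | succ n ih =>
      rw [sum_range_succ, sum_range_succ, ih]
      ring
  have k := single_le_sum (f := fun a => g (a, a + 1) - g (a + 1, a + 1)) (fun a _ => h a)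
    (mem_range.2 (show a < M + (a + 1) by omega))
  rw [hM (M + (a + 1)) (M + (a + 1) + 1) (by omega) (by omega)]
  refine le_trans ?_ ((e (M + (a + 1))).symm.le.trans (le_of_eq (sum_congr rfl fun a ha => ?_)))
  · linarith [hg.nonneg (M + (a + 1), M + (a + 1))]
  · have ha' := mem_range.1 ha
    simp only [Lap_psiP (k := 1) (θ := -1) le_rfl (by norm_num)]
    simp only [mul_sub, sum_sub_distrib, mul_ite, mul_zero, sum_ite_eq', mem_range]
    rw [if_pos (by omega), if_pos (by omega)]

theorem T_zz (x : Bool) (X Y : RR) : (T x X Y).coeff (0, 0) = 1 := by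
  cases x
  · rw [show T false X Y = T true Y X from T_swap true X Y, T, Bool.not_true, coeff_S, S_zz]
  · rw [T, Bool.not_true, coeff_S, S_zz]

theorem st_le (x : Bool) (X : RR) {Y : RR} (h : Le 0 Y) : Le (st x * X) (T x X Y) := by
  have h1 : Le 0 1 := fun p => dl_nonneg p
  have := (h1.add (Le.refl (st x * X))).add (h.st (!x))
  simpa only [mul_zero, add_zero, zero_add, T] using this

/-- `i` steps of type `x` and `j` steps of the other type -/
def pt (x : Bool) (i j : ℕ) : ℕ × ℕ := if x then (i, j) else (j, i)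

theorem pt_not (x : Bool) (i j : ℕ) : pt (!x) i j = pt x j i := by cases x <;> rfl

theorem st_pt (x : Bool) (X : RR) (i j : ℕ) :
    (st x * X).coeff (pt x (i + 1) j) = X.coeff (pt x i j) / 2 := by
  cases x
  · simp [coeff_d, pt, dn_succ]
    ring
  · simp [coeff_u, pt, up_succ]
    ring

theorem I_low (V : List Bool) : ∀ x i j, i ≤ V.count x → j ≤ V.count (!x) →
    (1 / 2 : ℝ) ^ (i + j) ≤ (I V).coeff (pt x i j) := by
  induction V with
  | nil =>
    intro x i j hi hj
    obtain rfl : i = 0 := by simpa using hi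
    obtain rfl : j = 0 := by simpa using hj
    cases x <;> simp [pt, I, T_zz]
  | cons y R ih =>
    have key : ∀ i j, i ≤ R.count y + 1 → j ≤ R.count (!y) →
        (1 / 2 : ℝ) ^ (i + j) ≤ (I (y :: R)).coeff (pt y i j) := by
      rintro (_ | i) j hi hj
      · exact (ih y 0 j (by omega) hj).trans ((Hh_same y R ▸ Hh_le_I (y :: R) y) _)
      · have h1 := st_le y (I R) (Hh_nonneg R (!y)) (pt y (i + 1) j)
        have h2 := ih y i j (by omega) hj
        rw [st_pt, ← I_cons] at h1
        rw [add_right_comm, pow_succ]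
        linarith
    intro x i j hi hj
    by_cases e : x = y
    · subst e
      exact key i j (by simpa using hi) (by simpa using hj)
    · obtain rfl : x = !y := by cases x <;> cases y <;> simp_all
      rw [pt_not, add_comm]
      exact key j i (by simpa using hj) (by simpa using hi)

theorem cc_low (V : List Bool) : ∀ x i j, i < V.count x → j < V.count (!x) →
    (1 / 2 : ℝ) ^ (i + j) ≤ (cc V).coeff (pt x i j) := by
  induction V with
  | nil => intro x i j hi; simp at hi
  | cons y R ih =>
    have key : ∀ i j, i < R.count y + 1 → j < R.count (!y) →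
        (1 / 2 : ℝ) ^ (i + j) ≤ (cc (y :: R)).coeff (pt y i j) := by
      rintro (_ | i) j hi hj
      · rcases Nat.eq_zero_or_pos (R.count y) with h | h
        · rcases R with _ | ⟨z, R⟩
          · simp at hj
          obtain rfl : z = !y := by cases z <;> cases y <;> simp_all
          have h1 := Hh_le_cc y ((!y) :: R) (pt y 0 j)
          rw [Hh_same] at h1
          exact (I_low R y 0 j (by omega) (by simpa [Nat.lt_succ_iff] using hj)).trans h1
        · exact (ih y 0 j h hj).trans (cc_ins _ R y rfl _)
      · have h1 := st_le y (cc R) (Hh_nonneg (cut (!y) R) (!y)) (pt y (i + 1) j)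
        have h2 := ih y i j (by omega) hj
        rw [st_pt] at h1
        rw [add_right_comm, pow_succ, cc, if_pos (List.count_pos_iff.1 (by omega))]
        linarith
    intro x i j hi hj
    by_cases e : x = y
    · subst e
      exact key i j (by simpa using hi) (by simpa using hj)
    · obtain rfl : x = !y := by cases x <;> cases y <;> simp_all
      rw [pt_not, add_comm]
      exact key j i (by simpa using hj) (by simpa using hi)

theorem T_supp {X Y : RR} {a : ℕ} (hX : ∀ b, X.coeff (a, b) = 0)
    (hY : ∀ b, Y.coeff (a + 1, b) = 0) (b : ℕ) : (T true X Y).coeff (a + 1, b) = 0 := by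
  rw [T, Bool.not_true, coeff_S]
  rcases b with _ | b
  · simp [S_sz, hX]
  · simp [S_ss, hX, hY]

theorem Hh_supp (R : List Bool) : ∀ a, (R.count true ≤ a → ∀ b, (Hh true R).coeff (a, b) = 0) ∧
    (R.count true < a → ∀ b, (Hh false R).coeff (a, b) = 0) := by
  induction R with
  | nil => exact fun a => ⟨fun _ _ => rfl, fun _ _ => rfl⟩
  | cons y R ih =>
    have key : ∀ a, R.count true < a → ∀ b, (I R).coeff (a, b) = 0 := by
      rintro (_ | a) ha
      · omega
      · exact T_supp ((ih a).1 (by omega)) ((ih _).2 ha)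
    intro a
    cases y
    · rw [Hh_same, Hh_ne (by simp), List.count_cons_of_ne (by simp)]
      exact ⟨(ih a).1, key a⟩
    · rw [Hh_same, Hh_ne (by simp), List.count_cons_self]
      exact ⟨fun h => key a (by omega), fun h => (ih a).2 (by omega)⟩

theorem cc_supp {V : List Bool} (h : true ∈ V) (b : ℕ) : (cc V).coeff (V.count true, b) ≤ 0 := by
  obtain ⟨V₁, V₂, rfl⟩ := List.append_of_mem h
  have h1 := cc_le_I true (V₂ ++ V₁) ((V₂ ++ V₁).count true + 1, b)
  have h2 := Hh_supp (true :: (V₂ ++ V₁)) ((V₂ ++ V₁).count true + 1)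
  rw [Hh_same, List.count_cons_self] at h2
  rw [h2.1 le_rfl, cc_snoc, ← List.cons_append, cc_rot] at h1
  rwa [show (V₁ ++ true :: V₂).count true = (V₂ ++ V₁).count true + 1 by simp; omega]

theorem cc_zz (V : List Bool) : (cc V).coeff (0, 0) ≤ 1 := by
  rcases V with _ | ⟨x, R⟩
  · simp [cc]
  · exact (cc_le x R _).trans (T_zz _ _ _).le

theorem bin_half (V : List Bool) : Ev ng 0 (Pm V).trace ≤ 1 / 2 := by
  have hl : V.length = V.count true + V.count false := (List.count_true_add_count_false V).symm
  rw [Pm_trace, map_add, map_add, Ev_one, Ev_prod, Ev_lam, Lam_ng, ng_eq, ng_eq, if_neg (by omega)]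
  split_ifs with h
  · by_cases ht : true ∈ V
    · obtain ⟨s, hs⟩ : ∃ s, V.count true = s + 1 :=
        ⟨V.count true - 1, by have := List.count_pos_iff.2 ht; omega⟩
      have h1 := Lam_one_gain (cone_cc V) (cc_zz V) s
      have h2 := cc_supp ht (s + 1)
      have h3 : (1 / 2 : ℝ) ^ (s + (s + 1)) ≤ (cc V).coeff (s, s + 1) :=
        cc_low V true s (s + 1) (by omega) (by simp only [Bool.not_true]; omega)
      have h4 : (1 / 2 : ℝ) ^ V.length ≤ (1 / 2) ^ (s + (s + 1) + 1) :=
        pow_le_pow_of_le_one (by norm_num) (by norm_num) (by omega)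
      rw [hs] at h2
      rw [pow_succ] at h4
      linarith
    · have h4 : (1 / 2 : ℝ) ^ V.length ≤ (1 / 2) ^ 1 :=
        pow_le_pow_of_le_one (by norm_num) (by norm_num) (by omega)
      rw [cc_const ht, AddMonoidAlgebra.coeff_zero, map_zero]
      linarith
  · linarith [Lam_psiP (k := 1) (θ := -1) le_rfl (by norm_num) (cone_cc V) (cc_zz V)]

/-- binary letters, and letters that forget the carry -/
noncomputable def Q : Bool ⊕ Option Bool → Matrix Bool Bool RR
  | .inl z => Mx z
  | .inr (some z) => fun _ y => if y = z then 1 else 0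
  | .inr none => fun _ y => st y

theorem pure_row (w : List (Bool ⊕ Option Bool)) : ∃ h : Bool → RR, ∀ x,
    (w.map Q).prod x true + (w.map Q).prod x false = 1 + lam * h x ∧ Cone (h x).coeff ∧
      Le (h x) (T true (h true) (h false)) ∧ Le (h x) (T true (h x) (h x)) := by
  induction w with
  | nil =>
    refine ⟨fun _ => 0, fun x => ⟨by cases x <;> simp, Cone.zero, ?_, ?_⟩⟩ <;>
      exact T_nonneg _ (Le.refl _) (Le.refl _)
  | cons l w ih =>
    obtain ⟨h, H⟩ := ih
    have cT := cone_T true (H true).2.1 (H false).2.1 (H true).2.2.1 (H false).2.2.1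
    have sT := T_mono true (H true).2.2.1 (H false).2.2.1
    have eT : st true * ((w.map Q).prod true true + (w.map Q).prod true false) +
        st false * ((w.map Q).prod false true + (w.map Q).prod false false) =
          1 + lam * T true (h true) (h false) := by
      rw [(H true).1, (H false).1, T, Bool.not_true, lam]
      ring
    rw [List.map_cons, List.prod_cons]
    rcases l with z | _ | z
    · refine ⟨fun x => if x = z then T true (h true) (h false) else h x, fun x => ?_⟩
      have m : Le (T true (h true) (h false))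
          (T true (if true = z then T true (h true) (h false) else h true)
            (if false = z then T true (h true) (h false) else h false)) := by
        refine T_mono _ ?_ ?_ <;> split_ifs
        exacts [(H true).2.2.1, Le.refl _, (H false).2.2.1, Le.refl _]
      by_cases e : x = z
      · simp only [if_pos e]
        refine ⟨?_, cT, m, sT⟩
        rw [Q, e, Mx_same, Mx_same, ← eT]
        ring
      · simp only [if_neg e]
        exact ⟨by rw [Q, Mx_ne e, Mx_ne e, (H x).1], (H x).2.1, (H x).2.2.1.trans m, (H x).2.2.2⟩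
    · refine ⟨fun _ => T true (h true) (h false), fun x => ⟨?_, cT, sT, sT⟩⟩
      rw [← eT]
      simp only [Q, Matrix.mul_apply, Fintype.sum_bool]
      ring
    · refine ⟨fun _ => h z, fun x => ⟨?_, (H z).2.1, (H z).2.2.2, (H z).2.2.2⟩⟩
      rw [← (H z).1]
      cases z <;> simp [Q, Matrix.mul_apply]

theorem pure_half (w : List (Bool ⊕ Option Bool)) : Ev ng 0 (w.map Q).prod.trace ≤ 1 / 2 := by
  have : (∃ V : List Bool, w = V.map .inl) ∨ ∃ w₁ o w₂, w = w₁ ++ .inr o :: w₂ := by
    induction w with
    | nil => exact Or.inl ⟨[], rfl⟩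
    | cons l w ih =>
      rcases l with z | o
      · rcases ih with ⟨V, rfl⟩ | ⟨w₁, o, w₂, rfl⟩
        · exact Or.inl ⟨z :: V, rfl⟩
        · exact Or.inr ⟨.inl z :: w₁, o, w₂, rfl⟩
      · exact Or.inr ⟨[], o, w, rfl⟩
  rcases this with ⟨V, rfl⟩ | ⟨w₁, o, w₂, rfl⟩
  · rw [List.map_map]
    exact bin_half V
  · obtain ⟨h, H⟩ := pure_row (.inr o :: w₂ ++ w₁)
    obtain ⟨h1, h2, h3, -⟩ := H true
    have e : ((.inr o :: w₂ ++ w₁).map Q).prod false false =
        ((.inr o :: w₂ ++ w₁).map Q).prod true false := by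
      rw [List.cons_append, List.map_cons, List.prod_cons]
      rcases o with _ | z <;> simp only [Q, Matrix.mul_apply]
    rw [List.map_append, List.prod_append, Matrix.trace_mul_comm, ← List.prod_append,
      ← List.map_append, trace_eq, e, h1, map_add, Ev_one, Ev_lam, Lam_ng, ng_eq, if_neg (by omega)]
    linarith [Lam_psiP (k := 1) (θ := -1) le_rfl (by norm_num) h2 ((h3 _).trans (T_zz _ _ _).le)]

/-- convex combinations of the five letters -/
def Mix (B : Matrix Bool Bool RR) : Prop :=
  ∃ c : Bool ⊕ Option Bool → ℝ, (∀ l, 0 ≤ c l) ∧ ∑ l, c l = 1 ∧ B = ∑ l, c l • Q l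

theorem mix_half (L : List (Matrix Bool Bool RR)) (hL : ∀ B ∈ L, Mix B) :
    ∀ w : List (Bool ⊕ Option Bool), Ev ng 0 ((w.map Q).prod * L.prod).trace ≤ 1 / 2 := by
  induction L with
  | nil => intro w; simpa using pure_half w
  | cons B L ih =>
    intro w
    obtain ⟨c, h0, h1, rfl⟩ := hL _ List.mem_cons_self
    have := fun l => ih (fun B hB => hL B (List.mem_cons_of_mem _ hB)) (w ++ [l])
    simp only [List.map_append, List.prod_append, List.map_cons, List.map_nil, List.prod_cons,
      List.prod_nil, mul_one, mul_assoc] at this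
    rw [List.prod_cons, sum_mul, mul_sum, Matrix.trace_sum, map_sum]
    calc _ ≤ ∑ l, c l * (1 / 2) := sum_le_sum fun l _ => by
            rw [smul_mul_assoc, mul_smul_comm, Matrix.trace_smul, map_smul, smul_eq_mul]
            exact mul_le_mul_of_nonneg_left (this l) (h0 l)
      _ = 1 / 2 := by rw [← sum_mul, h1, one_mul]

end Pool.Agent.MP_23af5d_nt.TD
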