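import Pool.Agent.MP_23af5d_nt.CountDens

/-! Cyclic binary words: the trace of the carry matrices and its survival function. -/

namespace Pool.Agent.MP_23af5d_nt.TD

open Pool.Agent.MP_23af5d_nt.DC

/-- polynomials in an up step and a down step -/
abbrev RR : Type := AddMonoidAlgebra ℝ (ℕ × ℕ)

/-- half of an up step (`true`) or of a down step (`false`) -/
noncomputable def st (x : Bool) : RR :=
  AddMonoidAlgebra.single (if x then (1, 0) else (0, 1)) (1 / 2)

theorem coeff_u (x : RR) : (st true * x).coeff = (1 / 2 : ℝ) • x.coeff.mapDomain up := by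
  induction x using AddMonoidAlgebra.induction_linear with
  | zero => simp
  | add x y hx hy => simp [mul_add, hx, hy, Finsupp.mapDomain_add]
  | single m r =>
    simp [st, AddMonoidAlgebra.single_mul_single, up, add_comm, Prod.add_def]

theorem coeff_d (x : RR) : (st false * x).coeff = (1 / 2 : ℝ) • x.coeff.mapDomain dn := by
  induction x using AddMonoidAlgebra.induction_linear with
  | zero => simp
  | add x y hx hy => simp [mul_add, hx, hy, Finsupp.mapDomain_add]
  | single m r =>
    simp [st, AddMonoidAlgebra.single_mul_single, dn, add_comm, Prod.add_def]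

theorem coeff_one : (1 : RR).coeff = dl := rfl

theorem coeff_S (X Y : RR) : (1 + st true * X + st false * Y).coeff = S 1 X.coeff Y.coeff := by
  rw [AddMonoidAlgebra.coeff_add, AddMonoidAlgebra.coeff_add, coeff_u, coeff_d, coeff_one, S,
    one_smul]

/-- coefficientwise order -/
def Le (x y : RR) : Prop := ∀ p, x.coeff p ≤ y.coeff p

theorem Le.refl (x : RR) : Le x x := fun _ => le_rfl

theorem Le.trans {x y z : RR} (h : Le x y) (h' : Le y z) : Le x z := fun p => (h p).trans (h' p)

theorem Le.add {x y z w : RR} (h : Le x y) (h' : Le z w) : Le (x + z) (y + w) := fun p => by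
  simpa using add_le_add (h p) (h' p)

theorem Le.st {x y : RR} (h : Le x y) (b : Bool) : Le (st b * x) (st b * y) := by
  rintro ⟨i, j⟩
  cases b
  · rw [coeff_d, coeff_d]
    rcases j with _ | j
    · simp [dn_zero]
    · simpa [dn_succ] using h (i, j)
  · rw [coeff_u, coeff_u]
    rcases i with _ | i
    · simp [up_zero]
    · simpa [up_succ] using h (i, j)

/-- a fair step, then `X` after a step of type `x` and `Y` after a step of the other type -/
noncomputable def T (x : Bool) (X Y : RR) : RR := 1 + st x * X + st (!x) * Y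

theorem T_swap (x : Bool) (X Y : RR) : T (!x) X Y = T x Y X := by
  simp only [T, Bool.not_not]
  ring

theorem T_mono (x : Bool) {X X' Y Y' : RR} (h : Le X X') (h' : Le Y Y') :
    Le (T x X Y) (T x X' Y') := ((Le.refl 1).add (h.st x)).add (h'.st _)

theorem T_nonneg (x : Bool) {X Y : RR} (h : Le 0 X) (h' : Le 0 Y) : Le 0 (T x X Y) := by
  have h1 : Le 0 1 := fun p => dl_nonneg p
  have := (h1.add (h.st x)).add (h'.st (!x))
  simpa only [mul_zero, add_zero, T] using this

theorem cone_T (x : Bool) {X Y : RR} (hX : Cone X.coeff) (hY : Cone Y.coeff)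
    (h : Le X (T x X Y)) (h' : Le Y (T x X Y)) : Cone (T x X Y).coeff := by
  cases x
  · rw [show T false X Y = T true Y X from T_swap true X Y] at h h' ⊢
    unfold Le at h h'
    rw [T, Bool.not_true, coeff_S] at h h' ⊢
    exact cone_S hY hX h' h
  · unfold Le at h h'
    rw [T, Bool.not_true, coeff_S] at h h' ⊢
    exact cone_S hX hY h h'

/-- the words `v` such that `x v` is a subsequence -/
noncomputable def Hh : Bool → List Bool → RR
  | _, [] => 0
  | x, y :: R => if x = y then T true (Hh true R) (Hh false R) else Hh x R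

/-- all subsequences -/
noncomputable def I (R : List Bool) : RR := T true (Hh true R) (Hh false R)

theorem I_eq (x : Bool) (R : List Bool) : I R = T x (Hh x R) (Hh (!x) R) := by
  cases x
  · exact (T_swap true _ _).symm
  · rfl

theorem Hh_same (x : Bool) (R : List Bool) : Hh x (x :: R) = I R := by simp [Hh, I]

theorem Hh_ne {x y : Bool} (h : x ≠ y) (R : List Bool) : Hh x (y :: R) = Hh x R := by simp [Hh, h]

theorem Hh_not (x : Bool) (R : List Bool) : Hh (!x) (x :: R) = Hh (!x) R := Hh_ne (by simp) R

theorem I_cons (x : Bool) (R : List Bool) : I (x :: R) = T x (I R) (Hh (!x) R) := by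
  rw [I_eq x, Hh_same, Hh_not]

theorem Hh_nonneg (R : List Bool) : ∀ x, Le 0 (Hh x R) := by
  induction R with
  | nil => exact fun _ => Le.refl _
  | cons y R ih =>
    intro x
    rw [Hh]
    split_ifs
    · exact T_nonneg _ (ih _) (ih _)
    · exact ih x

theorem Hh_le_I (R : List Bool) : ∀ x, Le (Hh x R) (I R) := by
  induction R with
  | nil => exact fun _ => T_nonneg _ (Le.refl _) (Le.refl _)
  | cons y R ih =>
    have h : Le (I R) (I (y :: R)) := by
      rw [I_cons, I_eq y R]
      exact T_mono y (I_eq y R ▸ ih y) (Le.refl _)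
    intro x
    by_cases e : x = y
    · rwa [e, Hh_same]
    · rw [Hh_ne e]
      exact (ih x).trans h

theorem cone_Hh (R : List Bool) : ∀ x, Cone (Hh x R).coeff := by
  induction R with
  | nil => exact fun _ => Cone.zero
  | cons y R ih =>
    intro x
    rw [Hh]
    split_ifs
    · exact cone_T _ (ih _) (ih _) (Hh_le_I R true) (Hh_le_I R false)
    · exact ih x

theorem Hh_append (R V : List Bool) : ∀ x, Le (Hh x R) (Hh x (R ++ V)) := by
  induction R with
  | nil => exact fun x => Hh_nonneg _ x
  | cons y R ih =>
    intro x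
    rw [List.cons_append, Hh, Hh]
    split_ifs
    · exact T_mono _ (ih _) (ih _)
    · exact ih x

/-- the part of the word before the last `x` -/
def cut (x : Bool) : List Bool → List Bool
  | [] => []
  | y :: R => if x ∈ R then y :: cut x R else []

theorem cut_not_mem {x : Bool} {R : List Bool} (h : x ∉ R) : cut x R = [] := by
  rcases R with _ | ⟨y, R⟩
  · rfl
  · rw [cut, if_neg fun h' => h (List.mem_cons_of_mem _ h')]

theorem cut_snoc (x : Bool) (R : List Bool) : cut x (R ++ [x]) = R := by
  induction R with
  | nil => simp [cut]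
  | cons y R ih => simp [cut, ih]

theorem cut_le (x y : Bool) (R : List Bool) : ∃ V, cut x (R ++ [y]) ++ V = R := by
  induction R with
  | nil => exact ⟨[], by simp [cut]⟩
  | cons z R ih =>
    obtain ⟨V, hV⟩ := ih
    rw [List.cons_append, cut]
    split_ifs
    · exact ⟨V, by rw [List.cons_append, hV]⟩
    · exact ⟨_, rfl⟩

theorem Hh_cut_snoc (z x y : Bool) (R : List Bool) : Le (Hh z (cut x (R ++ [y]))) (Hh z R) := by
  obtain ⟨V, hV⟩ := cut_le x y R
  have := Hh_append (cut x (R ++ [y])) V z
  rwa [hV] at this

theorem Hh_cut (z x : Bool) (R : List Bool) : Le (Hh z (cut x R)) (Hh z R) := by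
  rcases R.eq_nil_or_concat' with rfl | ⟨V, y, rfl⟩
  · exact Le.refl _
  · exact (Hh_cut_snoc z x y V).trans (Hh_append _ _ _)

theorem Hh_cut_ne {x z : Bool} (h : x ≠ z) (y : Bool) (R : List Bool) :
    Hh x (cut y (z :: R)) = Hh x (cut y R) := by
  rw [cut]
  split_ifs with hy
  · exact Hh_ne h _
  · rw [cut_not_mem hy]

/-- the survival function of a cyclic word -/
noncomputable def cc : List Bool → RR
  | [] => 0
  | x :: R => if (!x) ∈ R then T x (cc R) (Hh (!x) (cut (!x) R)) else 0

theorem cc_const {x : Bool} {R : List Bool} (h : x ∉ R) : cc R = 0 := by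
  rcases R with _ | ⟨y, R⟩
  · rfl
  · rw [cc, if_neg]
    intro h'
    have : (!y) = x := by
      cases x <;> cases y <;> simp_all
    exact h (List.mem_cons_of_mem _ (this ▸ h'))

theorem cc_nonneg (R : List Bool) : Le 0 (cc R) := by
  induction R with
  | nil => exact Le.refl _
  | cons y R ih =>
    rw [cc]
    split_ifs
    · exact T_nonneg _ ih (Hh_nonneg _ _)
    · exact Le.refl _

theorem cc_le (x : Bool) (R : List Bool) :
    Le (cc (x :: R)) (T x (cc R) (Hh (!x) (cut (!x) R))) := by
  rw [cc]
  split_ifs
  · exact Le.refl _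
  · exact T_nonneg _ (cc_nonneg _) (Hh_nonneg _ _)

/-- the matrix of one binary letter: wait for `x`, read `z`, then wait for `y` -/
noncomputable def Mx (z : Bool) : Matrix Bool Bool RR :=
  fun x y => if x = z then st y else if x = y then 1 else 0

/-- the matrix of a word -/
noncomputable def Pm (V : List Bool) : Matrix Bool Bool RR := (V.map Mx).prod

/-- the generator of the fair walk -/
noncomputable def lam : RR := st true + st false - 1

theorem Mx_same (z y : Bool) (B : Matrix Bool Bool RR) :
    (Mx z * B) z y = st true * B true y + st false * B false y := by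
  simp [Matrix.mul_apply, Mx]

theorem Mx_ne {x z : Bool} (h : x ≠ z) (y : Bool) (B : Matrix Bool Bool RR) :
    (Mx z * B) x y = B x y := by
  cases x <;> simp [Matrix.mul_apply, Mx, h]

theorem Pm_cons (z : Bool) (V : List Bool) : Pm (z :: V) = Mx z * Pm V := by simp [Pm]

theorem Pm_entry (V : List Bool) : ∀ x y, Pm V x y =
    st y * (Hh x V - Hh x (cut y V)) + if x = y ∧ x ∉ V then 1 else 0 := by
  induction V with
  | nil => intro x y; simp [Pm, Hh, cut, Matrix.one_apply]
  | cons z R ih =>
    intro x y
    rw [Pm_cons]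
    by_cases e : x = z
    · subst e
      rw [Mx_same, ih, ih, Hh_same, cut]
      by_cases hy : y ∈ R
      · rw [if_pos hy, Hh_same, if_neg (fun h => h.2 (h.1 ▸ hy)), if_neg (fun h => h.2 (h.1 ▸ hy))]
        simp only [I, T, Bool.not_true, List.mem_cons, true_or, not_true, and_false, if_false]
        ring
      · rw [if_neg hy, cut_not_mem hy]
        cases y <;> simp [I, T, Hh, hy] <;> ring
    · rw [Mx_ne e, ih, Hh_ne e, Hh_cut_ne e]
      simp [e]

theorem Pm_row (V : List Bool) : ∀ x, Pm V x true + Pm V x false = 1 + lam * Hh x V := by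
  induction V with
  | nil => intro x; cases x <;> simp [Pm, Hh]
  | cons z R ih =>
    intro x
    rw [Pm_cons]
    by_cases e : x = z
    · subst e
      rw [Mx_same, Mx_same, Hh_same, I, T, Bool.not_true]
      have h1 := ih true
      have h2 := ih false
      unfold lam at *
      linear_combination st true * h1 + st false * h2
    · rw [Mx_ne e, Mx_ne e, Hh_ne e, ih]

theorem trace_eq (B : Matrix Bool Bool RR) : B.trace = B true true + B false false := by
  simp [Matrix.trace]

theorem Pm_trace (V : List Bool) : (Pm V).trace = 1 + (V.map st).prod + lam * cc V := by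
  induction V with
  | nil => simp [Pm, cc, one_add_one_eq_two]
  | cons z R ih =>
    have h1 := Pm_row R (!z)
    have h2 := Pm_entry R (!z) (!z)
    have h3 : cc (z :: R) = T z (cc R) (Hh (!z) (cut (!z) R)) - if (!z) ∉ R then 1 else 0 := by
      rw [cc]
      by_cases hz : (!z) ∈ R
      · simp [hz]
      · simp [hz, cc_const hz, cut_not_mem hz, Hh, T]
    simp only [true_and] at h2
    rw [trace_eq] at ih
    rw [trace_eq, Pm_cons, h3, List.map_cons, List.prod_cons, T]
    generalize (if (!z) ∉ R then (1 : RR) else 0) = e at *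
    unfold lam at *
    cases z
    · rw [Mx_same, Mx_ne (by simp)]
      simp only [Bool.not_false] at *
      linear_combination st true * h1 + st false * ih - (st true + st false - 1) * h2
    · rw [Mx_same, Mx_ne (by simp)]
      simp only [Bool.not_true] at *
      linear_combination st false * h1 + st true * ih - (st true + st false - 1) * h2

theorem lam_ne : lam ≠ 0 := by
  intro h
  have := congrArg (fun x : RR => x.coeff (0, 0)) h
  simp [lam, st, coeff_one, dl] at this

theorem cc_rot (V V' : List Bool) : cc (V ++ V') = cc (V' ++ V) := by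
  have h1 := Pm_trace (V ++ V')
  have h2 := Pm_trace (V' ++ V)
  simp only [Pm, List.map_append, List.prod_append] at h1 h2
  rw [Matrix.trace_mul_comm, h2, mul_comm (V'.map st).prod] at h1
  exact (mul_left_cancel₀ lam_ne (add_left_cancel h1)).symm

theorem cc_snoc (x : Bool) (R : List Bool) : cc (R ++ [x]) = cc (x :: R) := cc_rot R [x]

theorem Hh_le_cc' (x : Bool) (V : List Bool) :
    ∀ j, Le (Hh x V) (cc (V ++ List.replicate j (!x) ++ [!x])) := by
  induction V with
  | nil => exact fun j => cc_nonneg _
  | cons y V ih =>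
    intro j
    by_cases e : x = y
    · subst e
      rw [Hh_same, List.cons_append, List.cons_append, cc, if_pos (by simp), cut_snoc, I_eq x]
      exact T_mono x (ih j) (Hh_append _ _ _)
    · have e' : y = !x := by cases x <;> cases y <;> simp_all
      rw [Hh_ne e, List.cons_append, List.cons_append, ← cc_snoc, e']
      have := ih (j + 1)
      rwa [List.replicate_succ', ← List.append_assoc] at this

theorem Hh_le_cc (x : Bool) (V : List Bool) : Le (Hh (!x) V) (cc (x :: V)) := by
  have := Hh_le_cc' (!x) V 0
  rwa [List.replicate_zero, List.append_nil, Bool.not_not, cc_snoc] at this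

theorem cc_le_I (y : Bool) (R : List Bool) : Le (cc (R ++ [y])) (I R) := by
  induction R with
  | nil =>
    rw [List.nil_append, cc, if_neg (by simp)]
    exact Hh_le_I [] y
  | cons x R ih =>
    rw [List.cons_append, I_cons]
    exact (cc_le x _).trans (T_mono x ih (Hh_cut_snoc _ _ _ _))

theorem cc_ins_same {x : Bool} {R : List Bool} (ih : Le (cc R) (cc (x :: R))) :
    Le (cc (x :: R)) (cc (x :: x :: R)) := by
  by_cases h : (!x) ∈ R
  · have e : cc (x :: x :: R) = T x (cc (x :: R)) (Hh (!x) (cut (!x) R)) := by
      rw [cc, if_pos (List.mem_cons_of_mem _ h), Hh_cut_ne (by simp)]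
    rw [e]
    exact (cc_le x R).trans (T_mono x ih (Le.refl _))
  · rw [cc, if_neg h]
    exact cc_nonneg _

theorem cc_ins (n : ℕ) : ∀ (V : List Bool) (x : Bool), V.length = n → Le (cc V) (cc (x :: V)) := by
  induction n with
  | zero =>
    intro V x h
    rw [List.length_eq_zero_iff.1 h]
    exact cc_nonneg _
  | succ n ih =>
    rintro (_ | ⟨z, R⟩) x h
    · exact cc_nonneg _
    have hn : R.length = n := by simpa using h
    by_cases e : z = x
    · subst e
      exact cc_ins_same (ih R z hn)
    obtain rfl : z = !x := by cases x <;> cases z <;> simp_all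
    rcases R.eq_nil_or_concat' with rfl | ⟨R, y, rfl⟩
    · rw [cc, if_neg (by simp)]
      exact cc_nonneg _
    by_cases e' : y = x
    · subst e'
      have h1 : cc ((!y) :: (R ++ [y])) = cc (y :: (!y) :: R) := cc_snoc y ((!y) :: R)
      have h2 : cc (y :: (!y) :: (R ++ [y])) = cc (y :: y :: (!y) :: R) :=
        cc_snoc y (y :: (!y) :: R)
      rw [h1, h2]
      exact cc_ins_same (ih _ y (by simpa using hn))
    · obtain rfl : y = !x := by cases x <;> cases y <;> simp_all
      have e2 : cc (x :: (!x) :: (R ++ [!x])) = T x (cc ((!x) :: (R ++ [!x]))) (I R) := by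
        rw [cc, if_pos (by simp), ← List.cons_append, cut_snoc, Hh_same]
      rw [e2]
      refine (cc_le _ _).trans ?_
      rw [T_swap]
      exact T_mono x ((Hh_cut _ _ _).trans (Hh_le_cc _ _)) (cc_le_I _ _)

theorem cone_cc (V : List Bool) : Cone (cc V).coeff := by
  induction V with
  | nil => exact Cone.zero
  | cons x R ih =>
    have h1 := cc_ins _ R x rfl
    have h2 := (Hh_cut _ (!x) _).trans (Hh_le_cc x R)
    rw [cc] at h1 h2 ⊢
    split_ifs at h1 h2 ⊢
    · exact cone_T x ih (cone_Hh _ _) h1 h2
    · exact Cone.zero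

end Pool.Agent.MP_23af5d_nt.TD
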